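import Pool.Agent.H.MP_ce2c94_gt.D3.Spec

set_option autoImplicit false

/-!
# The nonlinear map of `D3.Spec` in the calculus of quadratic remainders

`D : Fin 6 → E →+ W` are the jet maps. `Bg.dF` is the dual number of the nonlinear map (its value and
the six coefficients of its linear part), computed from the duals of the leaves; `Bg.quad` bounds
the remainder by an explicit rational function `triF` of the bounds `Slots` of the leaves and of the
intermediate quantities.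
-/

namespace Pool.MP_ce2c94_gt.D3S

open W93

/-! ### bounds for a dual number -/

section Bnd

variable {W E J : Type*} [NormedCommRing W] [NormedAddCommGroup E] [Fintype J]

/-- `s = (A, l)`: the value is bounded by `A`, the linear part by `l`. -/
structure Bnd (D : J → E →+ W) (δ : Du W J) (s : ℚ × ℚ) : Prop where
  A0 : 0 ≤ s.1
  l0 : 0 ≤ s.2
  hA : ‖δ.v‖ ≤ s.1
  hl : ∀ x, ‖δ.lin D x‖ ≤ s.2 * ‖x‖

/-- The bounds from the norms of the value and of the coefficients. -/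
theorem Bnd.of {D : J → E →+ W} {dn : J → ℝ} (hD : ∀ j x, ‖D j x‖ ≤ dn j * ‖x‖) {δ : Du W J}
    {s : ℚ × ℚ} (h1 : 0 ≤ s.1) (h2 : 0 ≤ s.2) (hA : ‖δ.v‖ ≤ s.1)
    (hl : ∑ j, ‖δ.d j‖ * dn j ≤ s.2) : Bnd D δ s :=
  ⟨h1, h2, hA, Du.lin_le hD δ hl⟩

variable {D : J → E →+ W} {r : ℚ} {G : E → W} {δ : Du W J} {t : Tri} {s : ℚ × ℚ}

/-- Replace the first two constants. -/
def _root_.Pool.MP_ce2c94_gt.W93.Tri.set (t : Tri) (s : ℚ × ℚ) : Tri := ⟨s.1, s.2, t.c⟩

/-- The constants of an affine map. -/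
def _root_.Pool.MP_ce2c94_gt.W93.Tri.leaf (s : ℚ × ℚ) : Tri := ⟨s.1, s.2, 0⟩

theorem _root_.Pool.MP_ce2c94_gt.W93.Quad.set (H : Quad D r G δ t) (hs : Bnd D δ s) :
    Quad D r G δ (t.set s) := H.tighten hs.A0 hs.l0 hs.hA hs.hl

/-- An affine map. -/
theorem _root_.Pool.MP_ce2c94_gt.W93.Quad.leaf (r0 : 0 ≤ r) (hs : Bnd D δ s)
    (hG : ∀ x, G x = δ.v + δ.lin D x) : Quad D r G δ (Tri.leaf s) :=
  (Quad.aff r0 δ hs.A0 hs.l0 hs.hA hs.hl).congr hG rfl fun _ => rfl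

/-- The estimate needed in the Newton-Kantorovich theorem. -/
theorem _root_.Pool.MP_ce2c94_gt.W93.Quad.nk (H : Quad D r G δ t) {dn : J → ℝ}
    (hD : ∀ j x, ‖D j x‖ ≤ dn j * ‖x‖) (g : J → W) {e : ℝ}
    (he : ∑ j, ‖δ.d j - g j‖ * dn j ≤ e) {x y : E} (hx : ‖x‖ ≤ r) (hy : ‖y‖ ≤ r) :
    ‖G x - G y - ∑ j, g j * D j (x - y)‖ ≤ (t.c * r + e) * ‖x - y‖ := by
  have h1 := H.hq x y hx hy
  have h2 : ‖(⟨0, fun j => δ.d j - g j⟩ : Du W J).lin D (x - y)‖ ≤ e * ‖x - y‖ :=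
    Du.lin_le hD _ he _
  have h3 : (⟨0, fun j => δ.d j - g j⟩ : Du W J).lin D (x - y) =
      δ.lin D (x - y) - ∑ j, g j * D j (x - y) := by
    rw [Du.lin, Du.lin, ← Finset.sum_sub_distrib]
    exact Finset.sum_congr rfl fun j _ => sub_mul _ _ _
  rw [h3] at h2
  have e1 : G x - G y - ∑ j, g j * D j (x - y) = (G x - G y - δ.lin D (x - y)) +
      (δ.lin D (x - y) - ∑ j, g j * D j (x - y)) := by abel
  rw [e1, add_mul]
  exact (norm_add_le _ _).trans (add_le_add h1 h2)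

end Bnd

/-! ### vectors -/

section Vec

variable {W E J : Type*} [NormedCommRing W] [NormedAddCommGroup E] [Fintype J]

/-- dual of `eta` -/
def dEta (a b : Fin 3 → Du W J) : Du W J :=
  (((a 0).mul (b 0)).sub ((a 1).mul (b 1))).sub ((a 2).mul (b 2))

/-- dual of `dt` -/
def dDt (a b : Fin 3 → Du W J) : Du W J :=
  (((a 0).mul (b 0)).add ((a 1).mul (b 1))).add ((a 2).mul (b 2))

/-- dual of `crs` -/
def dCrs (a b : Fin 3 → Du W J) : Fin 3 → Du W J :=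
  ![((a 1).mul (b 2)).sub ((a 2).mul (b 1)), ((a 2).mul (b 0)).sub ((a 0).mul (b 2)),
    ((a 0).mul (b 1)).sub ((a 1).mul (b 0))]

/-- constants of `eta` and `dt` -/
def tDt (r : ℚ) (a b : Fin 3 → Tri) : Tri :=
  (((a 0).mul r (b 0)).add ((a 1).mul r (b 1))).add ((a 2).mul r (b 2))

/-- constants of `crs` -/
def tCrs (r : ℚ) (a b : Fin 3 → Tri) : Fin 3 → Tri :=
  ![((a 1).mul r (b 2)).add ((a 2).mul r (b 1)), ((a 2).mul r (b 0)).add ((a 0).mul r (b 2)),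
    ((a 0).mul r (b 1)).add ((a 1).mul r (b 0))]

variable {D : J → E →+ W} {r : ℚ} {F G : E → Fin 3 → W} {δ δ' : Fin 3 → Du W J}
  {t t' : Fin 3 → Tri}

theorem quad_eta (H : ∀ i, Quad D r (fun x => F x i) (δ i) (t i))
    (K : ∀ i, Quad D r (fun x => G x i) (δ' i) (t' i)) :
    Quad D r (fun x => eta (F x) (G x)) (dEta δ δ') (tDt r t t') :=
  (((H 0).mul (K 0)).sub ((H 1).mul (K 1))).sub ((H 2).mul (K 2))

theorem quad_dt (H : ∀ i, Quad D r (fun x => F x i) (δ i) (t i))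
    (K : ∀ i, Quad D r (fun x => G x i) (δ' i) (t' i)) :
    Quad D r (fun x => dt (F x) (G x)) (dDt δ δ') (tDt r t t') :=
  (((H 0).mul (K 0)).add ((H 1).mul (K 1))).add ((H 2).mul (K 2))

theorem quad_crs (H : ∀ i, Quad D r (fun x => F x i) (δ i) (t i))
    (K : ∀ i, Quad D r (fun x => G x i) (δ' i) (t' i)) (i : Fin 3) :
    Quad D r (fun x => crs (F x) (G x) i) (dCrs δ δ' i) (tCrs r t t' i) := by
  fin_cases i
  · exact ((H 1).mul (K 2)).sub ((H 2).mul (K 1))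
  · exact ((H 2).mul (K 0)).sub ((H 0).mul (K 2))
  · exact ((H 0).mul (K 1)).sub ((H 1).mul (K 0))

end Vec

/-! ### the map -/

/-- Bounds `(A, l)` for the leaves and for the intermediate quantities. -/
structure Slots where
  /-- position -/
  C : Fin 3 → ℚ × ℚ
  /-- second derivative vector `B` -/
  B : Fin 3 → ℚ × ℚ
  /-- `s A` -/
  a : Fin 3 → ℚ × ℚ
  /-- `s B` -/
  b : Fin 3 → ℚ × ℚ
  /-- `s p` -/
  p : Fin 3 → ℚ × ℚ
  /-- `s q` -/
  q : Fin 3 → ℚ × ℚ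
  /-- `s w` -/
  w : Fin 3 → ℚ × ℚ
  /-- `a × b` -/
  n : Fin 3 → ℚ × ℚ
  /-- `η(b,b)` -/
  ebb : ℚ × ℚ
  /-- `η(a,b)` -/
  eab : ℚ × ℚ
  /-- `η(a,a)` -/
  eaa : ℚ × ℚ
  /-- `η(b,B)` -/
  ebB : ℚ × ℚ
  /-- `η(a,B)` -/
  eaB : ℚ × ℚ
  /-- `η(a,a) η(b,B) - η(a,b) η(a,B)` -/
  g : ℚ × ℚ
  /-- `T = 2 (η(b,b) p - 2 η(a,b) q + η(a,a) w) + g C` -/
  T : Fin 3 → ℚ × ℚ

namespace Slots

variable (r : ℚ) (S : Slots)

/-- constants of `a × b` -/
def tn (i : Fin 3) : Tri :=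
  (tCrs r (fun i => Tri.leaf (S.a i)) (fun i => Tri.leaf (S.b i)) i).set (S.n i)
def tebb : Tri := (tDt r (fun i => Tri.leaf (S.b i)) (fun i => Tri.leaf (S.b i))).set S.ebb
def teab : Tri := (tDt r (fun i => Tri.leaf (S.a i)) (fun i => Tri.leaf (S.b i))).set S.eab
def teaa : Tri := (tDt r (fun i => Tri.leaf (S.a i)) (fun i => Tri.leaf (S.a i))).set S.eaa
def tebB : Tri := (tDt r (fun i => Tri.leaf (S.b i)) (fun i => Tri.leaf (S.B i))).set S.ebB
def teaB : Tri := (tDt r (fun i => Tri.leaf (S.a i)) (fun i => Tri.leaf (S.B i))).set S.eaB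
def tg : Tri := (((S.teaa r).mul r (S.tebB r)).add ((S.teab r).mul r (S.teaB r))).set S.g
def tu (i : Fin 3) : Tri :=
  (((S.tebb r).mul r (Tri.leaf (S.p i))).add
    (((S.teab r).mul r (Tri.leaf (S.q i))).add ((S.teab r).mul r (Tri.leaf (S.q i))))).add
    ((S.teaa r).mul r (Tri.leaf (S.w i)))
def tT (i : Fin 3) : Tri :=
  (((S.tu r i).add (S.tu r i)).add ((S.tg r).mul r (Tri.leaf (S.C i)))).set (S.T i)

/-- constants of the map -/
def tF : Tri := tDt r (S.tT r) (S.tn r)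

end Slots

namespace Bg

variable {W : Type*} [NormedCommRing W] (β : Bg W)

/-- the duals of the leaves -/
def dC (i : Fin 3) : Du W (Fin 6) := ⟨β.C i, ![β.V i, 0, 0, 0, 0, 0]⟩
def dB (i : Fin 3) : Du W (Fin 6) := ⟨β.B i, ![β.V2 i, 0, β.k * β.V i, 0, 0, 0]⟩
def da (i : Fin 3) : Du W (Fin 6) :=
  ⟨β.s * β.A i, ![β.s * β.Vj i, β.s * β.V i, 0, 0, 0, 0]⟩
def db (i : Fin 3) : Du W (Fin 6) :=
  ⟨β.s * β.B i, ![β.s * β.V2 i, 0, β.s * (β.k * β.V i), 0, 0, 0]⟩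
def dp (i : Fin 3) : Du W (Fin 6) :=
  ⟨β.s * β.p i, ![β.s * β.Vjj i, β.s * (2 * β.Vj i), 0, β.s * β.V i, 0, 0]⟩
def dq (i : Fin 3) : Du W (Fin 6) :=
  ⟨β.s * β.q i, ![β.s * β.Vj2 i, β.s * β.V2 i, β.s * (β.k * β.Vj i), 0, β.s * (β.k * β.V i), 0]⟩
def dw (i : Fin 3) : Du W (Fin 6) :=
  ⟨β.s * β.w i, ![β.s * β.V22 i, 0, β.s * (2 * (β.k * β.V2 i)), 0, 0, β.s * (β.k * β.k * β.V i)]⟩

/-- the duals of the intermediate quantities -/
def dn : Fin 3 → Du W (Fin 6) := dCrs β.da β.db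
def debb : Du W (Fin 6) := dEta β.db β.db
def deab : Du W (Fin 6) := dEta β.da β.db
def deaa : Du W (Fin 6) := dEta β.da β.da
def debB : Du W (Fin 6) := dEta β.db β.dB
def deaB : Du W (Fin 6) := dEta β.da β.dB
def dg : Du W (Fin 6) := (β.deaa.mul β.debB).sub (β.deab.mul β.deaB)
def du (i : Fin 3) : Du W (Fin 6) :=
  ((β.debb.mul (β.dp i)).sub ((β.deab.mul (β.dq i)).add (β.deab.mul (β.dq i)))).add
    (β.deaa.mul (β.dw i))
def dT (i : Fin 3) : Du W (Fin 6) := ((β.du i).add (β.du i)).add (β.dg.mul (β.dC i))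

/-- the dual of the map -/
def dF : Du W (Fin 6) := dDt β.dT β.dn

variable {E : Type*} [NormedAddCommGroup E]

/-- All bounds hold. -/
structure Ok (D : Fin 6 → E →+ W) (S : Slots) : Prop where
  C : ∀ i, Bnd D (β.dC i) (S.C i)
  B : ∀ i, Bnd D (β.dB i) (S.B i)
  a : ∀ i, Bnd D (β.da i) (S.a i)
  b : ∀ i, Bnd D (β.db i) (S.b i)
  p : ∀ i, Bnd D (β.dp i) (S.p i)
  q : ∀ i, Bnd D (β.dq i) (S.q i)
  w : ∀ i, Bnd D (β.dw i) (S.w i)
  n : ∀ i, Bnd D (β.dn i) (S.n i)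
  ebb : Bnd D β.debb S.ebb
  eab : Bnd D β.deab S.eab
  eaa : Bnd D β.deaa S.eaa
  ebB : Bnd D β.debB S.ebB
  eaB : Bnd D β.deaB S.eaB
  g : Bnd D β.dg S.g
  T : ∀ i, Bnd D (β.dT i) (S.T i)

variable {β} {D : Fin 6 → E →+ W} {S : Slots} {r : ℚ}

/-- the jet of an element -/
def jt (D : Fin 6 → E →+ W) (x : E) (j : Fin 6) : W := D j x

/-- **The nonlinear map and its dual number.** -/
theorem quad (H : β.Ok D S) (r0 : 0 ≤ r) :
    Quad D r (fun x => β.F (jt D x)) β.dF (S.tF r) := by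
  have qC : ∀ i, Quad D r (fun x => β.fC (jt D x) i) (β.dC i) (Tri.leaf (S.C i)) := fun i =>
    Quad.leaf r0 (H.C i) fun x => by
      simp only [fC, jt, dC, Du.lin, Fin.sum_univ_six, Matrix.cons_val_zero, Matrix.cons_val_one,
        Matrix.cons_val]
      ring
  have qB : ∀ i, Quad D r (fun x => β.fB (jt D x) i) (β.dB i) (Tri.leaf (S.B i)) := fun i =>
    Quad.leaf r0 (H.B i) fun x => by
      simp only [fB, jt, dB, Du.lin, Fin.sum_univ_six, Matrix.cons_val_zero, Matrix.cons_val_one,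
        Matrix.cons_val]
      ring
  have qa : ∀ i, Quad D r (fun x => sm β.s (β.fA (jt D x)) i) (β.da i) (Tri.leaf (S.a i)) :=
    fun i => Quad.leaf r0 (H.a i) fun x => by
      simp only [sm, fA, jt, da, Du.lin, Fin.sum_univ_six, Matrix.cons_val_zero,
        Matrix.cons_val_one, Matrix.cons_val]
      ring
  have qb : ∀ i, Quad D r (fun x => sm β.s (β.fB (jt D x)) i) (β.db i) (Tri.leaf (S.b i)) :=
    fun i => Quad.leaf r0 (H.b i) fun x => by
      simp only [sm, fB, jt, db, Du.lin, Fin.sum_univ_six, Matrix.cons_val_zero,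
        Matrix.cons_val_one, Matrix.cons_val]
      ring
  have qp : ∀ i, Quad D r (fun x => sm β.s (β.fp (jt D x)) i) (β.dp i) (Tri.leaf (S.p i)) :=
    fun i => Quad.leaf r0 (H.p i) fun x => by
      simp only [sm, fp, jt, dp, Du.lin, Fin.sum_univ_six, Matrix.cons_val_zero,
        Matrix.cons_val_one, Matrix.cons_val]
      ring
  have qq : ∀ i, Quad D r (fun x => sm β.s (β.fq (jt D x)) i) (β.dq i) (Tri.leaf (S.q i)) :=
    fun i => Quad.leaf r0 (H.q i) fun x => by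
      simp only [sm, fq, jt, dq, Du.lin, Fin.sum_univ_six, Matrix.cons_val_zero,
        Matrix.cons_val_one, Matrix.cons_val]
      ring
  have qw : ∀ i, Quad D r (fun x => sm β.s (β.fw (jt D x)) i) (β.dw i) (Tri.leaf (S.w i)) :=
    fun i => Quad.leaf r0 (H.w i) fun x => by
      simp only [sm, fw, jt, dw, Du.lin, Fin.sum_univ_six, Matrix.cons_val_zero,
        Matrix.cons_val_one, Matrix.cons_val]
      ring
  have qn : ∀ i, Quad D r
      (fun x => crs (sm β.s (β.fA (jt D x))) (sm β.s (β.fB (jt D x))) i) (β.dn i) (S.tn r i) :=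
    fun i => (quad_crs qa qb i).set (H.n i)
  have qebb := (quad_eta qb qb).set H.ebb
  have qeab := (quad_eta qa qb).set H.eab
  have qeaa := (quad_eta qa qa).set H.eaa
  have qebB := (quad_eta qb qB).set H.ebB
  have qeaB := (quad_eta qa qB).set H.eaB
  have qg := ((qeaa.mul qebB).sub (qeab.mul qeaB)).set H.g
  have qu : ∀ i, Quad D r (fun x => eta (sm β.s (β.fB (jt D x))) (sm β.s (β.fB (jt D x))) *
      sm β.s (β.fp (jt D x)) i -
      (eta (sm β.s (β.fA (jt D x))) (sm β.s (β.fB (jt D x))) * sm β.s (β.fq (jt D x)) i +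
        eta (sm β.s (β.fA (jt D x))) (sm β.s (β.fB (jt D x))) * sm β.s (β.fq (jt D x)) i) +
      eta (sm β.s (β.fA (jt D x))) (sm β.s (β.fA (jt D x))) * sm β.s (β.fw (jt D x)) i)
      (β.du i) (S.tu r i) := fun i =>
    ((qebb.mul (qp i)).sub ((qeab.mul (qq i)).add (qeab.mul (qq i)))).add (qeaa.mul (qw i))
  have qT : ∀ i, Quad D r (fun x => vT (eta (sm β.s (β.fB (jt D x))) (sm β.s (β.fB (jt D x))))
      (eta (sm β.s (β.fA (jt D x))) (sm β.s (β.fB (jt D x))))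
      (eta (sm β.s (β.fA (jt D x))) (sm β.s (β.fA (jt D x))))
      (eta (sm β.s (β.fA (jt D x))) (sm β.s (β.fA (jt D x))) *
        eta (sm β.s (β.fB (jt D x))) (β.fB (jt D x)) -
        eta (sm β.s (β.fA (jt D x))) (sm β.s (β.fB (jt D x))) *
        eta (sm β.s (β.fA (jt D x))) (β.fB (jt D x))) (β.fC (jt D x)) (sm β.s (β.fp (jt D x)))
      (sm β.s (β.fq (jt D x))) (sm β.s (β.fw (jt D x))) i) (β.dT i) (S.tT r i) := fun i =>
    ((((qu i).add (qu i)).add (qg.mul (qC i))).set (H.T i)).congr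
      (fun x => by simp only [vT]; ring) rfl fun _ => rfl
  exact quad_dt qT qn

end Bg

end Pool.MP_ce2c94_gt.D3S
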