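import Mathlib
import Pool.Agent.H.MP_ce2c94_gt.h42.Wien4

/-!
# The approximate right inverse (PROJECT D3, module M4)

The unknown is `ψ = ω φ`, `ω = a j² + b m² + s`; `dj a b s α` (`α : Fin 6`) are the jets
`φ, φ_j, φ_m, φ_jj, φ_jm, φ_mm` (helper42's `jet`).  `L ψ = ∑ α, g α * dj α ψ`.
Columns: a given element for the finitely many modes with `a j² + b m² < K²`
(`ColOK`), and `(ω k / λ k) • sym (e k)` for the others.
-/

set_option autoImplicit false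

namespace Pool.MP_ce2c94_gt

open D3W Finset

/-- right inverse from its columns, on the even/even functions -/
theorem exists_rinv_of_col (L : W →L[ℝ] W) (a : ℤ × ℤ → W) {α z : ℝ}
    (ha : ∀ k, ‖a k‖ ≤ α * wt k) (haP : ∀ k, Par 1 1 (a k))
    (hz : ∀ k, ‖sym (e k) - L (a k)‖ ≤ z * wt k) :
    ∃ A : W →L[ℝ] W, (∀ k, A (e k) = a k) ∧ (∀ y, ‖A y‖ ≤ α * ‖y‖) ∧
      (∀ y, A y ∈ WS) ∧ ∀ y ∈ WS, ‖y - L (A y)‖ ≤ z * ‖y‖ := by
  refine ⟨ofCol a, ofCol_e ha, norm_ofCol_le ha, fun y => ?_, fun y hy => ?_⟩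
  · have h1 : sym.comp (ofCol a) = ofCol a := clm_ext fun k => by
      rw [ContinuousLinearMap.comp_apply, ofCol_e ha, sym_of_par (haP k)]
    exact sym_eq_iff.mp (congrArg (fun S : W →L[ℝ] W => S y) h1)
  · have h2 := norm_le_of_col (sym - L.comp (ofCol a)) (C := z) (fun k => by
      rw [_root_.sub_apply, ContinuousLinearMap.comp_apply, ofCol_e ha]
      exact hz k) y
    rw [_root_.sub_apply, ContinuousLinearMap.comp_apply, sym_of_par hy] at h2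
    exact h2

/-- the jets of the unknown -/
noncomputable def dj (a b s : ℝ) (i : Fin 6) : W →L[ℝ] W :=
  ![jet a b s 0 0, jet a b s 1 0, jet a b s 0 1, jet a b s 2 0, jet a b s 1 1, jet a b s 0 2] i

/-- the linear operator with the coefficients `g` -/
noncomputable def Lop (a b s : ℝ) (g : Fin 6 → W) (x : W) : W := ∑ i, g i * dj a b s i x

theorem exists_clm (a b s : ℝ) (g : Fin 6 → W) :
    ∃ L : W →L[ℝ] W, ∀ x, L x = Lop a b s g x := by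
  refine ⟨∑ i, (ContinuousLinearMap.mul ℝ W (g i)).comp (dj a b s i), fun x => ?_⟩
  rw [Lop, _root_.sum_apply]
  rfl

theorem Lop_eq (a b s : ℝ) (g : Fin 6 → W) (x : W) :
    Lop a b s g x = g 0 * jet a b s 0 0 x + g 1 * jet a b s 1 0 x + g 2 * jet a b s 0 1 x
      + g 3 * jet a b s 2 0 x + g 4 * jet a b s 1 1 x + g 5 * jet a b s 0 2 x := by
  rw [Lop, Fin.sum_univ_six]
  rfl

theorem le_of_sq_le {a b : ℝ} (hb : 0 ≤ b) (h : a ^ 2 ≤ b ^ 2) : a ≤ b := by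
  by_contra hc
  push Not at hc
  have := pow_lt_pow_left₀ hc hb (two_ne_zero)
  linarith

/-- the elementary inequality behind the tail estimate -/
theorem tail_ineq {a0 c0 K z g nh n0 n1 n2 n4 Q1 Q2 : ℝ} (ha0 : 0 < a0) (hc0 : 0 < c0)
    (hK : 0 < K) (hn0 : 0 ≤ n0) (hQ1 : 0 ≤ Q1) (hQ2 : 0 ≤ Q2)
    (h1 : g ^ 2 + n4 ^ 2 / (4 * a0 * c0) ≤ Q1 ^ 2) (h2 : n1 ^ 2 / a0 + n2 ^ 2 / c0 ≤ Q2 ^ 2)
    (hz : Q1 + nh + Q2 / K + n0 / K ^ 2 ≤ z) {x y : ℝ}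
    (hl : K ^ 2 ≤ a0 * x ^ 2 + c0 * y ^ 2) :
    g * |a0 * x ^ 2 - c0 * y ^ 2| + nh * (a0 * x ^ 2 + c0 * y ^ 2) + n4 * (|x| * |y|)
      + n1 * |x| + n2 * |y| + n0 ≤ z * (a0 * x ^ 2 + c0 * y ^ 2) := by
  obtain ⟨l, hl'⟩ : ∃ l : ℝ, l = a0 * x ^ 2 + c0 * y ^ 2 := ⟨_, rfl⟩
  rw [← hl'] at hl ⊢
  have hK2 : 0 < K ^ 2 := by positivity
  have hl0 : 0 < l := hK2.trans_le hl
  obtain ⟨r, hr0, hr⟩ : ∃ r : ℝ, 0 ≤ r ∧ r ^ 2 = l := ⟨Real.sqrt l, Real.sqrt_nonneg _,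
    Real.sq_sqrt hl0.le⟩
  have hKr : K ≤ r := by
    rw [← hr] at hl
    exact le_of_sq_le hr0 hl
  have p1 : g * |a0 * x ^ 2 - c0 * y ^ 2| + n4 * (|x| * |y|) ≤ Q1 * l := by
    refine le_of_sq_le (mul_nonneg hQ1 hl0.le) ?_
    obtain ⟨u, hu⟩ : ∃ u : ℝ, u = |a0 * x ^ 2 - c0 * y ^ 2| := ⟨_, rfl⟩
    obtain ⟨w, hw⟩ : ∃ w : ℝ, w = |x| * |y| := ⟨_, rfl⟩
    have hu2 : u ^ 2 = (a0 * x ^ 2 - c0 * y ^ 2) ^ 2 := by rw [hu, sq_abs]
    have hw2 : w ^ 2 = x ^ 2 * y ^ 2 := by rw [hw, mul_pow, sq_abs, sq_abs]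
    have hA : 0 < a0 * c0 := mul_pos ha0 hc0
    have e1 : u ^ 2 + 4 * (a0 * c0) * w ^ 2 = l ^ 2 := by rw [hu2, hw2, hl']; ring
    have e2 : (g ^ 2 + n4 ^ 2 / (4 * a0 * c0)) * (u ^ 2 + 4 * (a0 * c0) * w ^ 2)
        - (g * u + n4 * w) ^ 2 = (4 * (a0 * c0) * g * w - n4 * u) ^ 2 / (4 * (a0 * c0)) := by
      field_simp
      ring
    have e3 : 0 ≤ (4 * (a0 * c0) * g * w - n4 * u) ^ 2 / (4 * (a0 * c0)) := by positivity
    rw [← hu, ← hw]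
    calc (g * u + n4 * w) ^ 2 ≤ (g ^ 2 + n4 ^ 2 / (4 * a0 * c0)) * (u ^ 2 + 4 * (a0 * c0) * w ^ 2) := by
          linarith
      _ ≤ Q1 ^ 2 * l ^ 2 := by
          rw [e1]
          exact mul_le_mul_of_nonneg_right h1 (by positivity)
      _ = (Q1 * l) ^ 2 := by ring
  have p2 : n1 * |x| + n2 * |y| ≤ Q2 / K * l := by
    have h3 : n1 * |x| + n2 * |y| ≤ Q2 * r := by
      refine le_of_sq_le (mul_nonneg hQ2 hr0) ?_
      have e2 : (n1 ^ 2 / a0 + n2 ^ 2 / c0) * (a0 * |x| ^ 2 + c0 * |y| ^ 2)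
          - (n1 * |x| + n2 * |y|) ^ 2 = (c0 * n1 * |y| - a0 * n2 * |x|) ^ 2 / (a0 * c0) := by
        field_simp
        ring
      have e3 : 0 ≤ (c0 * n1 * |y| - a0 * n2 * |x|) ^ 2 / (a0 * c0) := by positivity
      have e4 : a0 * |x| ^ 2 + c0 * |y| ^ 2 = r ^ 2 := by rw [sq_abs, sq_abs, hr, hl']
      calc (n1 * |x| + n2 * |y|) ^ 2
          ≤ (n1 ^ 2 / a0 + n2 ^ 2 / c0) * (a0 * |x| ^ 2 + c0 * |y| ^ 2) := by linarith
        _ ≤ Q2 ^ 2 * r ^ 2 := by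
            rw [e4]
            exact mul_le_mul_of_nonneg_right h2 (by positivity)
        _ = (Q2 * r) ^ 2 := by ring
    refine h3.trans ?_
    rw [← hr]
    have : Q2 / K * r ^ 2 = Q2 * r * (r / K) := by field_simp
    rw [this]
    have h4 : 1 ≤ r / K := (one_le_div hK).mpr hKr
    exact le_mul_of_one_le_right (mul_nonneg hQ2 hr0) h4
  have p3 : n0 ≤ n0 / K ^ 2 * l := by
    have : n0 / K ^ 2 * l = n0 * (l / K ^ 2) := by field_simp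
    rw [this]
    exact le_mul_of_one_le_right hn0 ((one_le_div hK2).mpr hl)
  have p4 : (Q1 + nh + Q2 / K + n0 / K ^ 2) * l ≤ z * l :=
    mul_le_mul_of_nonneg_right hz hl0.le
  calc _ = (g * |a0 * x ^ 2 - c0 * y ^ 2| + n4 * (|x| * |y|)) + nh * l
        + (n1 * |x| + n2 * |y|) + n0 := by ring
    _ ≤ Q1 * l + nh * l + Q2 / K * l + n0 / K ^ 2 * l := by linarith
    _ = (Q1 + nh + Q2 / K + n0 / K ^ 2) * l := by ring
    _ ≤ z * l := p4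


section Tail

variable {a b s : ℝ}

/-- the principal symbol -/
noncomputable def lam (a b : ℝ) (k : ℤ × ℤ) : ℝ := a * (k.1 : ℝ) ^ 2 + b * (k.2 : ℝ) ^ 2

theorem om_eq (k : ℤ × ℤ) : om a b s k = lam a b k + s := rfl

theorem jet_sym_e (ha : 0 < a) (hb : 0 < b) (hs : 0 < s) {p q : ℕ} (h : p + q ≤ 2)
    (hp : Even p) (hq : Even q) (k : ℤ × ℤ) :
    jet a b s p q (sym (e k)) = sb a b s p q k • sym (e k) := by
  obtain ⟨C, hC⟩ := sb_bdd ha hb hs h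
  have h1 : ∀ l : ℤ × ℤ, sb a b s p q l = sb a b s p q k →
      jet a b s p q (e l) = sb a b s p q k • e l := fun l hl => by
    rw [jet, mult_e hC, hl]
  have e1 : sb a b s p q (su k) = sb a b s p q k := by
    unfold sb; rw [om_su]; simp [su, hp.neg_pow]
  have e2 : sb a b s p q (st k) = sb a b s p q k := by
    unfold sb; rw [om_st]; simp [st, hq.neg_pow]
  have e3 : sb a b s p q (-k) = sb a b s p q k := by
    rw [← su_st]
    unfold sb; rw [om_su, om_st]; simp [su, st, hp.neg_pow, hq.neg_pow]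
  rw [sym_e, map_smul, map_add, map_add, map_add, h1 k rfl, h1 _ e1, h1 _ e2, h1 _ e3,
    ← smul_add, ← smul_add, ← smul_add, smul_comm]

theorem norm_jet_sym_e (ha : 0 < a) (hb : 0 < b) (hs : 0 < s) {p q : ℕ} (h : p + q ≤ 2)
    (k : ℤ × ℤ) :
    ‖jet a b s p q (sym (e k))‖ ≤ |(k.1 : ℝ)| ^ p * |(k.2 : ℝ)| ^ q / om a b s k * wt k := by
  obtain ⟨C, hC⟩ := sb_bdd ha hb hs h
  have hom := om_pos ha.le hb.le hs k
  have h1 : ∀ l : ℤ × ℤ, |sb a b s p q l| = |(k.1 : ℝ)| ^ p * |(k.2 : ℝ)| ^ q / om a b s k →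
      wt l = wt k → ‖jet a b s p q (e l)‖ = |(k.1 : ℝ)| ^ p * |(k.2 : ℝ)| ^ q / om a b s k * wt k :=
    fun l hl hw => by rw [jet, mult_e hC, norm_smul_e, hl, hw]
  have e0 : |sb a b s p q k| = |(k.1 : ℝ)| ^ p * |(k.2 : ℝ)| ^ q / om a b s k := by
    unfold sb; rw [abs_div, abs_mul, abs_pow, abs_pow, abs_of_pos hom]
  have e1 : |sb a b s p q (su k)| = |(k.1 : ℝ)| ^ p * |(k.2 : ℝ)| ^ q / om a b s k := by
    unfold sb; rw [om_su, abs_div, abs_mul, abs_pow, abs_pow, abs_of_pos hom]; simp [su]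
  have e2 : |sb a b s p q (st k)| = |(k.1 : ℝ)| ^ p * |(k.2 : ℝ)| ^ q / om a b s k := by
    unfold sb; rw [om_st, abs_div, abs_mul, abs_pow, abs_pow, abs_of_pos hom]; simp [st]
  have e3 : |sb a b s p q (-k)| = |(k.1 : ℝ)| ^ p * |(k.2 : ℝ)| ^ q / om a b s k := by
    rw [← su_st]
    unfold sb; rw [om_su, om_st, abs_div, abs_mul, abs_pow, abs_pow, abs_of_pos hom]; simp [su, st]
  obtain ⟨c, hc⟩ : ∃ c : ℝ, c = |(k.1 : ℝ)| ^ p * |(k.2 : ℝ)| ^ q / om a b s k * wt k := ⟨_, rfl⟩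
  have g0 := h1 k e0 rfl
  have g1 := h1 _ e1 (wt_su k)
  have g2 := h1 _ e2 (wt_st k)
  have g3 := h1 _ e3 (wt_neg k)
  rw [← hc] at g0 g1 g2 g3 ⊢
  rw [sym_e, map_smul, map_add, map_add, map_add, norm_smul, Real.norm_eq_abs,
    abs_of_pos (by norm_num : (0 : ℝ) < 1 / 4)]
  have n1 := norm_add_le (jet a b s p q (e k) + jet a b s p q (e (su k)) + jet a b s p q (e (st k)))
    (jet a b s p q (e (-k)))
  have n2 := norm_add_le (jet a b s p q (e k) + jet a b s p q (e (su k))) (jet a b s p q (e (st k)))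
  have n3 := norm_add_le (jet a b s p q (e k)) (jet a b s p q (e (su k)))
  linarith

theorem norm_sym_e_le (k : ℤ × ℤ) : ‖sym (e k)‖ ≤ wt k := (norm_sym_le _).trans_eq (norm_e k)

/-- the columns far out -/
theorem tail_col (ha : 0 < a) (hb : 0 < b) (hs : 0 < s) (g : Fin 6 → W)
    {K z nG nH n0 n1 n2 n4 Q1 Q2 : ℝ} (hK : 0 < K)
    (hG : ‖(1 / (2 * a)) • g 3 - (1 / (2 * b)) • g 5‖ ≤ nG)
    (hH : ‖(1 / (2 * a)) • g 3 + (1 / (2 * b)) • g 5 - 1‖ ≤ nH)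
    (h0 : ‖g 0‖ ≤ n0) (h1 : ‖g 1‖ ≤ n1) (h2 : ‖g 2‖ ≤ n2) (h4 : ‖g 4‖ ≤ n4)
    (hQ1 : 0 ≤ Q1) (hQ2 : 0 ≤ Q2)
    (c1 : nG ^ 2 + n4 ^ 2 / (4 * a * b) ≤ Q1 ^ 2) (c2 : n1 ^ 2 / a + n2 ^ 2 / b ≤ Q2 ^ 2)
    (hz : Q1 + nH + Q2 / K + n0 / K ^ 2 ≤ z) (k : ℤ × ℤ) (hk : K ^ 2 ≤ lam a b k) :
    ‖sym (e k) - Lop a b s g ((om a b s k / lam a b k) • sym (e k))‖ ≤ z * wt k := by
  have hl : 0 < lam a b k := lt_of_lt_of_le (by positivity) hk
  have hom := om_pos ha.le hb.le hs k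
  have hw := (wt_pos k).le
  obtain ⟨E, hE⟩ : ∃ E : W, E = sym (e k) := ⟨_, rfl⟩
  obtain ⟨l, hl'⟩ : ∃ l : ℝ, l = lam a b k := ⟨_, rfl⟩
  obtain ⟨o, ho⟩ : ∃ o : ℝ, o = om a b s k := ⟨_, rfl⟩
  obtain ⟨x, hx⟩ : ∃ x : ℝ, x = (k.1 : ℝ) := ⟨_, rfl⟩
  obtain ⟨y, hy⟩ : ∃ y : ℝ, y = (k.2 : ℝ) := ⟨_, rfl⟩
  have j00 := jet_sym_e ha hb hs (p := 0) (q := 0) (by norm_num) (by norm_num) (by norm_num) k
  have j20 := jet_sym_e ha hb hs (p := 2) (q := 0) (by norm_num) (by norm_num) (by norm_num) k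
  have j02 := jet_sym_e ha hb hs (p := 0) (q := 2) (by norm_num) (by norm_num) (by norm_num) k
  have m10 := norm_jet_sym_e ha hb hs (p := 1) (q := 0) (by norm_num) k
  have m01 := norm_jet_sym_e ha hb hs (p := 0) (q := 1) (by norm_num) k
  have m11 := norm_jet_sym_e ha hb hs (p := 1) (q := 1) (by norm_num) k
  have nE := norm_sym_e_le k
  unfold sb at j00 j20 j02
  rw [← hE] at j00 j20 j02 m10 m01 m11 nE ⊢
  rw [← ho, ← hx, ← hy] at j00 j20 j02 m10 m01 m11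
  rw [← ho] at hom ⊢
  rw [← hl'] at hl hk ⊢
  have hlxy : l = a * x ^ 2 + b * y ^ 2 := by rw [hl', hx, hy]; rfl
  simp only [pow_zero, mul_one, one_mul, pow_one] at j00 j20 j02 m10 m01 m11
  obtain ⟨G, hG'⟩ : ∃ G : W, G = (1 / (2 * a)) • g 3 - (1 / (2 * b)) • g 5 := ⟨_, rfl⟩
  obtain ⟨H, hH'⟩ : ∃ H : W, H = (1 / (2 * a)) • g 3 + (1 / (2 * b)) • g 5 - 1 := ⟨_, rfl⟩
  rw [← hG'] at hG
  rw [← hH'] at hH
  have g3 : g 3 = a • (1 + H + G) := by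
    rw [hG', hH', smul_add, smul_add, smul_sub, smul_sub, smul_add, smul_smul, smul_smul]
    have e1 : a * (1 / (2 * a)) = 1 / 2 := by field_simp
    rw [e1]
    module
  have g5 : g 5 = b • (1 + H - G) := by
    rw [hG', hH', smul_sub, smul_add, smul_sub, smul_sub, smul_add, smul_smul, smul_smul]
    have e1 : b * (1 / (2 * b)) = 1 / 2 := by field_simp
    rw [e1]
    module
  have key : E - Lop a b s g ((o / l) • E)
      = -((l⁻¹ * (a * x ^ 2 - b * y ^ 2)) • (G * E)) - H * E - l⁻¹ • (g 0 * E)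
        - (o / l) • (g 1 * jet a b s 1 0 E) - (o / l) • (g 2 * jet a b s 0 1 E)
        - (o / l) • (g 4 * jet a b s 1 1 E) := by
    rw [Lop_eq]
    simp only [map_smul, mul_smul_comm]
    rw [j00, j20, j02, g3, g5]
    simp only [mul_smul_comm, smul_mul_assoc, add_mul, sub_mul, one_mul, smul_smul]
    have e1 : o / l * (1 / o) = l⁻¹ := by field_simp
    have e2 : o / l * (x ^ 2 / o * a) = l⁻¹ * (a * x ^ 2) := by field_simp
    have e3 : o / l * (y ^ 2 / o * b) = l⁻¹ * (b * y ^ 2) := by field_simp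
    have e4 : l⁻¹ * (a * x ^ 2) + l⁻¹ * (b * y ^ 2) = 1 := by
      rw [← mul_add, ← hlxy, inv_mul_cancel₀ hl.ne']
    obtain ⟨p, hp⟩ : ∃ p : ℝ, p = l⁻¹ * (a * x ^ 2) := ⟨_, rfl⟩
    have hq : l⁻¹ * (b * y ^ 2) = 1 - p := by rw [hp]; linarith
    have hpq : l⁻¹ * (a * x ^ 2 - b * y ^ 2) = p - (1 - p) := by rw [mul_sub, hq, hp]
    rw [hpq, e1, e2, e3, hq, ← hp]
    module
  rw [key]
  have hli : 0 < l⁻¹ := inv_pos.mpr hl
  have hol : 0 < o / l := div_pos hom hl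
  have b1 : ‖(l⁻¹ * (a * x ^ 2 - b * y ^ 2)) • (G * E)‖
      ≤ l⁻¹ * |a * x ^ 2 - b * y ^ 2| * (nG * wt k) := by
    rw [norm_smul, Real.norm_eq_abs, abs_mul, abs_of_pos hli]
    exact mul_le_mul_of_nonneg_left ((norm_mul_le _ _).trans
      (mul_le_mul hG nE (norm_nonneg _) ((norm_nonneg _).trans hG))) (by positivity)
  have b2 : ‖H * E‖ ≤ nH * wt k := (norm_mul_le _ _).trans
      (mul_le_mul hH nE (norm_nonneg _) ((norm_nonneg _).trans hH))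
  have b3 : ‖l⁻¹ • (g 0 * E)‖ ≤ l⁻¹ * (n0 * wt k) := by
    rw [norm_smul, Real.norm_eq_abs, abs_of_pos hli]
    exact mul_le_mul_of_nonneg_left ((norm_mul_le _ _).trans
      (mul_le_mul h0 nE (norm_nonneg _) ((norm_nonneg _).trans h0))) hli.le
  have b4 : ‖(o / l) • (g 1 * jet a b s 1 0 E)‖ ≤ l⁻¹ * (n1 * |x|) * wt k := by
    rw [norm_smul, Real.norm_eq_abs, abs_of_pos hol]
    calc o / l * ‖g 1 * jet a b s 1 0 E‖ ≤ o / l * (n1 * (|x| / o * wt k)) :=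
          mul_le_mul_of_nonneg_left ((norm_mul_le _ _).trans
            (mul_le_mul h1 m10 (norm_nonneg _) ((norm_nonneg _).trans h1))) hol.le
      _ = l⁻¹ * (n1 * |x|) * wt k := by field_simp
  have b5 : ‖(o / l) • (g 2 * jet a b s 0 1 E)‖ ≤ l⁻¹ * (n2 * |y|) * wt k := by
    rw [norm_smul, Real.norm_eq_abs, abs_of_pos hol]
    calc o / l * ‖g 2 * jet a b s 0 1 E‖ ≤ o / l * (n2 * (|y| / o * wt k)) :=
          mul_le_mul_of_nonneg_left ((norm_mul_le _ _).trans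
            (mul_le_mul h2 m01 (norm_nonneg _) ((norm_nonneg _).trans h2))) hol.le
      _ = l⁻¹ * (n2 * |y|) * wt k := by field_simp
  have b6 : ‖(o / l) • (g 4 * jet a b s 1 1 E)‖ ≤ l⁻¹ * (n4 * (|x| * |y|)) * wt k := by
    rw [norm_smul, Real.norm_eq_abs, abs_of_pos hol]
    calc o / l * ‖g 4 * jet a b s 1 1 E‖ ≤ o / l * (n4 * (|x| * |y| / o * wt k)) :=
          mul_le_mul_of_nonneg_left ((norm_mul_le _ _).trans
            (mul_le_mul h4 m11 (norm_nonneg _) ((norm_nonneg _).trans h4))) hol.le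
      _ = l⁻¹ * (n4 * (|x| * |y|)) * wt k := by field_simp
  have hn0 : 0 ≤ n0 := (norm_nonneg _).trans h0
  have ti := tail_ineq (g := nG) (nh := nH) (n0 := n0) (n1 := n1) (n2 := n2) (n4 := n4) ha hb hK
    hn0 hQ1 hQ2 c1 c2 hz (x := x) (y := y) (by rw [← hlxy]; exact hk)
  rw [← hlxy] at ti
  have t1 := norm_sub_le (-((l⁻¹ * (a * x ^ 2 - b * y ^ 2)) • (G * E)) - H * E - l⁻¹ • (g 0 * E)
    - (o / l) • (g 1 * jet a b s 1 0 E) - (o / l) • (g 2 * jet a b s 0 1 E))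
    ((o / l) • (g 4 * jet a b s 1 1 E))
  have t2 := norm_sub_le (-((l⁻¹ * (a * x ^ 2 - b * y ^ 2)) • (G * E)) - H * E - l⁻¹ • (g 0 * E)
    - (o / l) • (g 1 * jet a b s 1 0 E)) ((o / l) • (g 2 * jet a b s 0 1 E))
  have t3 := norm_sub_le (-((l⁻¹ * (a * x ^ 2 - b * y ^ 2)) • (G * E)) - H * E - l⁻¹ • (g 0 * E))
    ((o / l) • (g 1 * jet a b s 1 0 E))
  have t4 := norm_sub_le (-((l⁻¹ * (a * x ^ 2 - b * y ^ 2)) • (G * E)) - H * E) (l⁻¹ • (g 0 * E))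
  have t5 := norm_sub_le (-((l⁻¹ * (a * x ^ 2 - b * y ^ 2)) • (G * E))) (H * E)
  rw [norm_neg] at t5
  have e1 : l⁻¹ * |a * x ^ 2 - b * y ^ 2| * (nG * wt k) + nH * wt k + l⁻¹ * (n0 * wt k)
      + l⁻¹ * (n1 * |x|) * wt k + l⁻¹ * (n2 * |y|) * wt k + l⁻¹ * (n4 * (|x| * |y|)) * wt k
      = l⁻¹ * (nG * |a * x ^ 2 - b * y ^ 2| + nH * l + n4 * (|x| * |y|) + n1 * |x| + n2 * |y| + n0)
        * wt k := by
    field_simp
    ring
  have e2 : l⁻¹ * (nG * |a * x ^ 2 - b * y ^ 2| + nH * l + n4 * (|x| * |y|) + n1 * |x| + n2 * |y|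
      + n0) * wt k ≤ l⁻¹ * (z * l) * wt k :=
    mul_le_mul_of_nonneg_right (mul_le_mul_of_nonneg_left ti hli.le) hw
  have e3 : l⁻¹ * (z * l) * wt k = z * wt k := by field_simp
  linarith

end Tail

section Main

variable {a b s : ℝ}

/-- the column of the mode `k` is available: an even/even element `ψ` of norm at most `α` with
`‖sym (e k) - L ψ‖ ≤ z` -/
def ColOK (a b s : ℝ) (g : Fin 6 → W) (α z : ℝ) (k : ℤ × ℤ) : Prop :=
  ∃ ψ : W, Par 1 1 ψ ∧ ‖ψ‖ ≤ α ∧ ‖sym (e k) - Lop a b s g ψ‖ ≤ z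

/-- the jets of `ψ = a f_uu + b f_tt + s f` -/
theorem jets_of {f0 f1 f2 f3 f4 f5 : W} (ha : 0 < a) (hb : 0 < b) (hs : 0 < s)
    (h1 : IsDu f0 f1) (h2 : IsDt f0 f2) (h3 : IsDu f1 f3) (h4 : IsDt f1 f4) (h5 : IsDt f2 f5) :
    jet a b s 0 0 (a • f3 + b • f5 + s • f0) = f0 ∧
    jet a b s 1 0 (a • f3 + b • f5 + s • f0) = f1 ∧
    jet a b s 0 1 (a • f3 + b • f5 + s • f0) = f2 ∧
    jet a b s 2 0 (a • f3 + b • f5 + s • f0) = f3 ∧
    jet a b s 1 1 (a • f3 + b • f5 + s • f0) = f4 ∧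
    jet a b s 0 2 (a • f3 + b • f5 + s • f0) = f5 := by
  have key : ∀ k, coef k (a • f3 + b • f5 + s • f0) = om a b s k * coef k f0 := fun k => by
    rw [map_add, map_add, map_smul, map_smul, map_smul, h3 k, h1 k, h5 k, h2 k, om]
    simp only [smul_eq_mul]
    ring
  have hom := fun k => (om_pos ha.le hb.le hs k).ne'
  have step : ∀ (p q : ℕ) (h : p + q ≤ 2) (f : W),
      (∀ k, coef k f = (k.1 : ℝ) ^ p * (k.2 : ℝ) ^ q * coef k f0) →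
      jet a b s p q (a • f3 + b • f5 + s • f0) = f := fun p q h f hf => W_ext fun k => by
    rw [coef_jet ha hb hs h, key, hf k, sb]
    have := hom k
    field_simp
  refine ⟨step 0 0 (by norm_num) _ fun k => ?_, step 1 0 (by norm_num) _ fun k => ?_,
    step 0 1 (by norm_num) _ fun k => ?_, step 2 0 (by norm_num) _ fun k => ?_,
    step 1 1 (by norm_num) _ fun k => ?_, step 0 2 (by norm_num) _ fun k => ?_⟩
  · simp
  · rw [h1 k]; simp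
  · rw [h2 k]; simp
  · rw [h3 k, h1 k]; ring
  · rw [h4 k, h1 k]; ring
  · rw [h5 k, h2 k]; ring

theorem Par.of_isDu {c d : ℝ} {f f' : W} (h : IsDu f f') (hf : Par c d f) : Par (-c) d f' := by
  rw [par_iff] at *
  refine ⟨fun k => ?_, fun k => ?_⟩
  · rw [h, h, hf.1]; simp only [su]; push_cast; ring
  · rw [h, h, hf.2]; simp only [st]; ring

theorem Par.of_isDt {c d : ℝ} {f f' : W} (h : IsDt f f') (hf : Par c d f) : Par c (-d) f' := by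
  rw [par_iff] at *
  refine ⟨fun k => ?_, fun k => ?_⟩
  · rw [h, h, hf.1]; simp only [su]; ring
  · rw [h, h, hf.2]; simp only [st]; push_cast; ring

/-- a column from the six jets of a function `f0` -/
theorem colOK_of_jets {f0 f1 f2 f3 f4 f5 : W} (ha : 0 < a) (hb : 0 < b) (hs : 0 < s)
    (g : Fin 6 → W) {α z : ℝ} {k : ℤ × ℤ} (hp : Par 1 1 f0)
    (h1 : IsDu f0 f1) (h2 : IsDt f0 f2) (h3 : IsDu f1 f3) (h4 : IsDt f1 f4) (h5 : IsDt f2 f5)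
    (hα : ‖a • f3 + b • f5 + s • f0‖ ≤ α)
    (hz : ‖sym (e k) - (g 0 * f0 + g 1 * f1 + g 2 * f2 + g 3 * f3 + g 4 * f4 + g 5 * f5)‖ ≤ z) :
    ColOK a b s g α z k := by
  obtain ⟨e0, e1, e2, e3, e4, e5⟩ := jets_of ha hb hs h1 h2 h3 h4 h5
  refine ⟨a • f3 + b • f5 + s • f0, ?_, hα, ?_⟩
  · have p3 : Par 1 1 f3 := (Par.of_isDu h3 (Par.of_isDu h1 hp)).cast (by norm_num) rfl
    have p5 : Par 1 1 f5 := (Par.of_isDt h5 (Par.of_isDt h2 hp)).cast rfl (by norm_num)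
    exact ((p3.smul a).add (p5.smul b)).add (hp.smul s)
  · rw [Lop_eq, e0, e1, e2, e3, e4, e5]
    exact hz

theorem one_le_wt (k : ℤ × ℤ) : 1 ≤ wt k := one_le_pow₀ one_le_nu

/-- **The approximate right inverse.** -/
theorem exists_rinv (ha : 0 < a) (hb : 0 < b) (hs : 0 < s) (g : Fin 6 → W)
    {K α z nG nH n0 n1 n2 n4 Q1 Q2 : ℝ} (hK : 0 < K)
    (hG : ‖(1 / (2 * a)) • g 3 - (1 / (2 * b)) • g 5‖ ≤ nG)
    (hH : ‖(1 / (2 * a)) • g 3 + (1 / (2 * b)) • g 5 - 1‖ ≤ nH)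
    (h0 : ‖g 0‖ ≤ n0) (h1 : ‖g 1‖ ≤ n1) (h2 : ‖g 2‖ ≤ n2) (h4 : ‖g 4‖ ≤ n4)
    (hQ1 : 0 ≤ Q1) (hQ2 : 0 ≤ Q2)
    (c1 : nG ^ 2 + n4 ^ 2 / (4 * a * b) ≤ Q1 ^ 2) (c2 : n1 ^ 2 / a + n2 ^ 2 / b ≤ Q2 ^ 2)
    (hz : Q1 + nH + Q2 / K + n0 / K ^ 2 ≤ z) (hα : 1 + s / K ^ 2 ≤ α)
    (cols : ∀ j m : ℕ, a * (j : ℝ) ^ 2 + b * (m : ℝ) ^ 2 < K ^ 2 →
      ColOK a b s g α z ((j : ℤ), (m : ℤ))) :
    ∃ A : W →L[ℝ] W, (∀ y, ‖A y‖ ≤ α * ‖y‖) ∧ (∀ y, A y ∈ WS) ∧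
      ∀ y ∈ WS, ‖y - ∑ i, g i * dj a b s i (A y)‖ ≤ z * ‖y‖ := by
  classical
  have hn0 : 0 ≤ n0 := (norm_nonneg _).trans h0
  have hnH : 0 ≤ nH := (norm_nonneg _).trans hH
  have hz0 : 0 ≤ z := le_trans (by positivity) hz
  have hα1 : 1 ≤ α := le_trans (by have : 0 ≤ s / K ^ 2 := by positivity
                                   linarith) hα
  have hα0 : 0 ≤ α := by linarith
  -- the columns
  have hcol : ∀ k : ℤ × ℤ, ∃ w : W, Par 1 1 w ∧ ‖w‖ ≤ α * wt k ∧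
      ‖sym (e k) - Lop a b s g w‖ ≤ z * wt k := by
    intro k
    by_cases hk : lam a b k < K ^ 2
    · have hk' : a * ((k.1.natAbs : ℕ) : ℝ) ^ 2 + b * ((k.2.natAbs : ℕ) : ℝ) ^ 2 < K ^ 2 := by
        have e1 : ((k.1.natAbs : ℕ) : ℝ) ^ 2 = (k.1 : ℝ) ^ 2 := by
          rw [Nat.cast_natAbs, Int.cast_abs, sq_abs]
        have e2 : ((k.2.natAbs : ℕ) : ℝ) ^ 2 = (k.2 : ℝ) ^ 2 := by
          rw [Nat.cast_natAbs, Int.cast_abs, sq_abs]
        rw [e1, e2]; exact hk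
      obtain ⟨w, hw1, hw2, hw3⟩ := cols _ _ hk'
      have e3 : sym (e (((k.1.natAbs : ℕ) : ℤ), ((k.2.natAbs : ℕ) : ℤ))) = sym (e k) := by
        rw [← sym_e_abs k, Int.natCast_natAbs, Int.natCast_natAbs]
      rw [e3] at hw3
      have hwt := one_le_wt k
      exact ⟨w, hw1, hw2.trans (le_mul_of_one_le_right hα0 hwt),
        hw3.trans (le_mul_of_one_le_right hz0 hwt)⟩
    · push Not at hk
      refine ⟨(om a b s k / lam a b k) • sym (e k), (par_sym _).smul _, ?_,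
        tail_col ha hb hs g hK hG hH h0 h1 h2 h4 hQ1 hQ2 c1 c2 hz k hk⟩
      have hl : 0 < lam a b k := lt_of_lt_of_le (by positivity) hk
      have h5 : om a b s k / lam a b k ≤ α := by
        rw [om_eq, add_div, div_self hl.ne']
        have := div_le_div_of_nonneg_left hs.le (by positivity : (0 : ℝ) < K ^ 2) hk
        linarith
      have h6 : 0 ≤ om a b s k / lam a b k := (div_pos (om_pos ha.le hb.le hs k) hl).le
      rw [norm_smul, Real.norm_eq_abs, abs_of_nonneg h6]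
      exact mul_le_mul h5 (norm_sym_e_le k) (norm_nonneg _) hα0
  choose w hw1 hw2 hw3 using hcol
  obtain ⟨L, hL⟩ := exists_clm a b s g
  obtain ⟨A, -, hA2, hA3, hA4⟩ := exists_rinv_of_col L w hw2 hw1 (fun k => by rw [hL]; exact hw3 k)
  exact ⟨A, hA2, hA3, fun y hy => by
    have := hA4 y hy
    rw [hL] at this
    exact this⟩

end Main

end Pool.MP_ce2c94_gt
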