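import Pool.Agent.H.MP_ce2c94_gt.D3Jet
import Pool.Agent.H.MP_ce2c94_gt.D3.Eqn
import Pool.Agent.H.MP_ce2c94_gt.D3.RInv

/-!
# The last step: from a small zero of the nonlinear map and norm certificates to shrinking tori

`QC r v t`: the certificate for the positivity of a quantity whose value at the background is `v`
and whose deviation is controlled by the constants `t` (they are computed from the same `Slots` as
those of the nonlinear map). `Geo` collects the certificates, `Geo.torus` gives the torus and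
`two_tori_of` two tori which are not congruent.
-/

open Set Filter Topology
open scoped ContDiff RealInnerProductSpace

namespace D3

open Pool.MP_ce2c94_gt Pool.MP_ce2c94_gt.D3W Pool.MP_ce2c94_gt.D3S Pool.MP_ce2c94_gt.W93

/-! ### real elements -/

/-- `f` has real values -/
def RealW (f : W) : Prop := ∀ p, (evp p f).im = 0

theorem EvenW.real {f : W} (h : EvenW f) : RealW f := h.im

theorem RealW.mul {f g : W} (hf : RealW f) (hg : RealW g) : RealW (f * g) := fun p => by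
  rw [map_mul, Complex.mul_im, hf p, hg p, mul_zero, zero_mul, add_zero]

theorem RealW.re_mul {f : W} (hf : RealW f) (g : W) (p : ℝ × ℝ) :
    (evp p (f * g)).re = (evp p f).re * (evp p g).re := by
  rw [map_mul, Complex.mul_re, hf p, zero_mul, sub_zero]

theorem PosW.of_mul {f g : W} (hf : RealW f) (pf : PosW f) (h : PosW (f * g)) : PosW g :=
  fun p => by
    have h1 := h p
    rw [hf.re_mul] at h1
    exact (mul_pos_iff_of_pos_left (pf p)).mp h1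

theorem PosW.mul {f g : W} (hf : RealW f) (pf : PosW f) (pg : PosW g) : PosW (f * g) :=
  fun p => by
    rw [hf.re_mul]
    exact mul_pos (pf p) (pg p)

theorem PosW.ne_zero {f : W} (pf : PosW f) (p : ℝ × ℝ) : evp p f ≠ 0 := fun h => by
  have := pf p
  rw [h] at this
  simp at this

/-! ### certificates -/

/-- positivity from the norm of `1 - g f` and the value of `g` at one point -/
theorem posW_of_norm {f g : W} (h : ‖1 - g * f‖ < 1) (hf : RealW f) (hg : RealW g)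
    {p₀ : ℝ × ℝ} (h0 : 0 < (evp p₀ g).re) : PosW f := by
  have key : ∀ q : ℝ × ℝ, 0 < (evp q g).re * (evp q f).re := by
    intro q
    have h1 : ‖evp q (1 - g * f)‖ < 1 := (norm_evp_le _ _).trans_lt h
    have h2 := (Complex.abs_re_le_norm (evp q (1 - g * f))).trans_lt h1
    rw [map_sub, map_one, Complex.sub_re, hg.re_mul, Complex.one_re, abs_lt] at h2
    linarith [h2.2]
  have hc : Continuous fun q : ℝ × ℝ => (evp q f).re :=
    Complex.continuous_re.comp (contDiff_ev f).continuous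
  have hpos0 : 0 < (evp p₀ f).re := (mul_pos_iff_of_pos_left h0).mp (key p₀)
  intro p
  by_contra hn
  rw [not_lt] at hn
  have hpre : IsPreconnected (univ : Set (ℝ × ℝ)) := isPreconnected_univ
  obtain ⟨q, -, hq⟩ := hpre.intermediate_value (mem_univ p) (mem_univ p₀) hc.continuousOn
    ⟨hn, hpos0.le⟩
  have h3 := key q
  simp only at hq
  rw [hq, mul_zero] at h3
  exact lt_irrefl _ h3

/-- A positivity certificate for one element: `g` is a multiplier. -/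
def PC (v : W) : Prop :=
  ∃ (g : W) (a : ℚ), EvenW g ∧ 0 < (evp (0, 0) g).re ∧ ‖1 - g * v‖ ≤ a ∧ a < 1

/-- A positivity certificate for all elements which are approximated by `v` with the constants
`t` on the ball of radius `r`. -/
def QC (r : ℚ) (v : W) (t : Tri) : Prop :=
  ∃ (g : W) (a b : ℚ), EvenW g ∧ 0 < (evp (0, 0) g).re ∧ ‖1 - g * v‖ ≤ a ∧ ‖g‖ ≤ b ∧
    a + b * (t.l * r + t.c * r ^ 2) < 1

variable {E : Type*} [NormedAddCommGroup E] {D : Fin 6 → E →+ W} {r : ℚ}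

theorem PC.pos {v : W} (h : PC v) (hv : RealW v) : PosW v := by
  obtain ⟨g, a, pg, h0, ha, hab⟩ := h
  refine posW_of_norm (g := g) (lt_of_le_of_lt ha ?_) hv pg.real (p₀ := (0, 0)) h0
  exact_mod_cast hab

theorem QC.pos {G : E → W} {δ : W93.Du W (Fin 6)} {t : Tri} {v : W} (h : QC r v t)
    (H : Quad D r G δ t) (hv : δ.v = v) {y : E} (hy : ‖y‖ ≤ r) (hf : RealW (G y)) :
    PosW (G y) := by
  obtain ⟨g, a, b, pg, h0, ha, hb, hab⟩ := h
  refine posW_of_norm (g := g) ?_ hf pg.real (p₀ := (0, 0)) h0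
  have h1 := H.size hy
  have h2 : 1 - g * G y = (1 - g * v) - g * (G y - δ.v) := by rw [hv]; ring
  have h3 : ‖g * (G y - δ.v)‖ ≤ b * (t.l * r + t.c * r ^ 2) :=
    (norm_mul_le _ _).trans (mul_le_mul hb h1 (norm_nonneg _) ((norm_nonneg _).trans hb))
  have h4 : ((a + b * (t.l * r + t.c * r ^ 2) : ℚ) : ℝ) < ((1 : ℚ) : ℝ) := by exact_mod_cast hab
  push_cast at h4
  rw [h2]
  linarith [norm_sub_le (1 - g * v) (g * (G y - δ.v))]

/-! ### the four quantities -/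

/-- the square of the distance from the axis minus `S0` -/
noncomputable def qS (S0 : ℚ) (c : Fin 3 → W) : W := c 0 * c 0 - c 1 * c 1 - algebraMap ℝ W S0

/-- `cos u` and `i sin u` -/
noncomputable def cu : W := (1 / 2 : ℝ) • (eu + eu')
noncomputable def su1 : W := (1 / 2 : ℝ) • (eu - eu')

/-- the quantity of the first angle -/
noncomputable def qAng1 (S0 c : ℚ) (C : Fin 3 → W) : W :=
  qS S0 C * cu - C 2 * (algebraMap ℝ W c * su1)

/-- the quantity of the second angle -/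
noncomputable def qAng2 (C b : Fin 3 → W) : W := C 0 * b 1 - C 1 * b 0

/-- the Jacobian, `n = a × b` -/
noncomputable def qJac (S0 : ℚ) (C n : Fin 3 → W) : W :=
  -(qS S0 C * (C 0 * n 0 + C 1 * n 1) + ((C 0 * C 0 - C 1 * C 1) * (C 2 * n 2) +
    (C 0 * C 0 - C 1 * C 1) * (C 2 * n 2)))

/-- `R - |X|²` -/
noncomputable def qRad (R : ℚ) (C : Fin 3 → W) : W := algebraMap ℝ W R - D3S.eta C C

theorem qAng2_sm (s : W) (c b : Fin 3 → W) : qAng2 c (sm s b) = s * qAng2 c b := by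
  simp only [qAng2, sm]
  ring

theorem qJac_sm (s : W) (S0 : ℚ) (c a b : Fin 3 → W) :
    qJac S0 c (crs (sm s a) (sm s b)) = (s * s) * qJac S0 c (crs a b) := by
  simp only [qJac, crs, sm, Matrix.cons_val]
  ring

section Consts

variable (S : Slots)

/-- the constants of `qS` -/
def tqS (r S0 : ℚ) : Tri :=
  (((Tri.leaf (S.C 0)).mul r (Tri.leaf (S.C 0))).add
    ((Tri.leaf (S.C 1)).mul r (Tri.leaf (S.C 1)))).add ⟨|S0|, 0, 0⟩

/-- the constants of `qAng1` -/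
def tqAng1 (r S0 c : ℚ) : Tri :=
  ((tqS S r S0).mul r ⟨1001 / 1000, 0, 0⟩).add
    ((Tri.leaf (S.C 2)).mul r ⟨|c| * (1001 / 1000), 0, 0⟩)

/-- the constants of `qAng2` -/
def tqAng2 (r : ℚ) : Tri :=
  ((Tri.leaf (S.C 0)).mul r (Tri.leaf (S.b 1))).add
    ((Tri.leaf (S.C 1)).mul r (Tri.leaf (S.b 0)))

/-- the constants of the last factor of the Jacobian -/
def tqJ2 (r : ℚ) : Tri :=
  (((Tri.leaf (S.C 0)).mul r (Tri.leaf (S.C 0))).add
    ((Tri.leaf (S.C 1)).mul r (Tri.leaf (S.C 1)))).mul r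
      ((Tri.leaf (S.C 2)).mul r (S.tn r 2))

/-- the constants of `qJac` -/
def tqJac (r S0 : ℚ) : Tri :=
  ((tqS S r S0).mul r (((Tri.leaf (S.C 0)).mul r (S.tn r 0)).add
    ((Tri.leaf (S.C 1)).mul r (S.tn r 1)))).add ((tqJ2 S r).add (tqJ2 S r))

/-- the constants of `|X|²` -/
def tqEta (r : ℚ) : Tri := tDt r (fun i => Tri.leaf (S.C i)) fun i => Tri.leaf (S.C i)

/-- the constants of `qRad` -/
def tqRad (r R : ℚ) : Tri := Tri.add ⟨|R|, 0, 0⟩ (tqEta S r)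

end Consts

section Quads

variable {β : Bg W} {S : Slots}

theorem norm_alg_le (q : ℚ) : ‖algebraMap ℝ W (q : ℝ)‖ ≤ ((|q| : ℚ) : ℝ) := by
  rw [norm_algebraMap']
  push_cast
  exact le_of_eq (Real.norm_eq_abs _)

theorem norm_e1 (k : ℤ × ℤ) (hk : k.1.natAbs + k.2.natAbs = 1) : ‖e k‖ ≤ 1001 / 1000 := by
  rw [norm_e]
  unfold wt
  rw [hk, pow_one]
  unfold nu
  norm_num

theorem norm_cu_le : ‖cu‖ ≤ ((1001 / 1000 : ℚ) : ℝ) := by
  unfold cu
  have h1 : ‖eu‖ ≤ 1001 / 1000 := norm_e1 (1, 0) (by decide)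
  have h2 : ‖eu'‖ ≤ 1001 / 1000 := norm_e1 (-1, 0) (by decide)
  rw [norm_smul]
  have h3 : ‖(1 / 2 : ℝ)‖ = 1 / 2 := by norm_num
  rw [h3]
  push_cast
  linarith [norm_add_le eu eu']

theorem norm_su1_le : ‖su1‖ ≤ ((1001 / 1000 : ℚ) : ℝ) := by
  unfold su1
  have h1 : ‖eu‖ ≤ 1001 / 1000 := norm_e1 (1, 0) (by decide)
  have h2 : ‖eu'‖ ≤ 1001 / 1000 := norm_e1 (-1, 0) (by decide)
  rw [norm_smul]
  have h3 : ‖(1 / 2 : ℝ)‖ = 1 / 2 := by norm_num
  rw [h3]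
  push_cast
  linarith [norm_sub_le eu eu']

theorem quad_fC (H : β.Ok D S) (r0 : 0 ≤ r) (i : Fin 3) :
    Quad D r (fun y => β.fC (Bg.jt D y) i) (β.dC i) (Tri.leaf (S.C i)) :=
  Quad.leaf r0 (H.C i) fun x => by
    simp only [Bg.fC, Bg.jt, Bg.dC, Du.lin, Fin.sum_univ_six, Matrix.cons_val_zero,
      Matrix.cons_val_one, Matrix.cons_val]
    ring

theorem quad_fa (H : β.Ok D S) (r0 : 0 ≤ r) (i : Fin 3) :
    Quad D r (fun y => sm β.s (β.fA (Bg.jt D y)) i) (β.da i) (Tri.leaf (S.a i)) :=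
  Quad.leaf r0 (H.a i) fun x => by
    simp only [sm, Bg.fA, Bg.jt, Bg.da, Du.lin, Fin.sum_univ_six, Matrix.cons_val_zero,
      Matrix.cons_val_one, Matrix.cons_val]
    ring

theorem quad_fb (H : β.Ok D S) (r0 : 0 ≤ r) (i : Fin 3) :
    Quad D r (fun y => sm β.s (β.fB (Bg.jt D y)) i) (β.db i) (Tri.leaf (S.b i)) :=
  Quad.leaf r0 (H.b i) fun x => by
    simp only [sm, Bg.fB, Bg.jt, Bg.db, Du.lin, Fin.sum_univ_six, Matrix.cons_val_zero,
      Matrix.cons_val_one, Matrix.cons_val]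
    ring

theorem quad_fn (H : β.Ok D S) (r0 : 0 ≤ r) (i : Fin 3) :
    Quad D r (fun y => crs (sm β.s (β.fA (Bg.jt D y))) (sm β.s (β.fB (Bg.jt D y))) i)
      (β.dn i) (S.tn r i) :=
  (quad_crs (quad_fa H r0) (quad_fb H r0) i).set (H.n i)

theorem quad_qS (H : β.Ok D S) (r0 : 0 ≤ r) (S0 : ℚ) :
    Quad D r (fun y => qS S0 (β.fC (Bg.jt D y)))
      ((((β.dC 0).mul (β.dC 0)).sub ((β.dC 1).mul (β.dC 1))).sub
        ⟨algebraMap ℝ W S0, fun _ => 0⟩) (tqS S r S0) :=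
  (((quad_fC H r0 0).mul (quad_fC H r0 0)).sub ((quad_fC H r0 1).mul (quad_fC H r0 1))).sub
    (Quad.const r0 _ (abs_nonneg _) (norm_alg_le S0))

theorem quad_qAng1 (H : β.Ok D S) (r0 : 0 ≤ r) (S0 c : ℚ) :
    ∃ δ : W93.Du W (Fin 6), δ.v = qAng1 S0 c β.C ∧
      Quad D r (fun y => qAng1 S0 c (β.fC (Bg.jt D y))) δ (tqAng1 S r S0 c) := by
  have h1 := (quad_qS H r0 S0).mul (Quad.const (D := D) r0 cu (by norm_num) norm_cu_le)
  have h3 : ‖algebraMap ℝ W (c : ℝ) * su1‖ ≤ ((|c| * (1001 / 1000) : ℚ) : ℝ) := by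
    rw [Rat.cast_mul]
    exact (norm_mul_le _ _).trans (mul_le_mul (norm_alg_le c) norm_su1_le (norm_nonneg _)
      (by exact_mod_cast abs_nonneg c))
  have h2 := (quad_fC H r0 2).mul (Quad.const (D := D) r0 (algebraMap ℝ W c * su1)
    (by positivity) h3)
  exact ⟨_, rfl, h1.sub h2⟩

theorem quad_qAng2 (H : β.Ok D S) (r0 : 0 ≤ r) :
    ∃ δ : W93.Du W (Fin 6), δ.v = qAng2 β.C (sm β.s β.B) ∧
      Quad D r (fun y => qAng2 (β.fC (Bg.jt D y)) (sm β.s (β.fB (Bg.jt D y)))) δ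
        (tqAng2 S r) :=
  ⟨_, rfl, ((quad_fC H r0 0).mul (quad_fb H r0 1)).sub ((quad_fC H r0 1).mul (quad_fb H r0 0))⟩

theorem dn_v (β : Bg W) (i : Fin 3) : (β.dn i).v = crs (sm β.s β.A) (sm β.s β.B) i := by
  fin_cases i <;> rfl

theorem quad_qJac (H : β.Ok D S) (r0 : 0 ≤ r) (S0 : ℚ) :
    ∃ δ : W93.Du W (Fin 6), δ.v = qJac S0 β.C (crs (sm β.s β.A) (sm β.s β.B)) ∧
      Quad D r (fun y => qJac S0 (β.fC (Bg.jt D y)) (crs (sm β.s (β.fA (Bg.jt D y)))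
        (sm β.s (β.fB (Bg.jt D y))))) δ (tqJac S r S0) := by
  have h1 := (quad_qS H r0 S0).mul (((quad_fC H r0 0).mul (quad_fn H r0 0)).add
    ((quad_fC H r0 1).mul (quad_fn H r0 1)))
  have h2 := (((quad_fC H r0 0).mul (quad_fC H r0 0)).sub
    ((quad_fC H r0 1).mul (quad_fC H r0 1))).mul ((quad_fC H r0 2).mul (quad_fn H r0 2))
  refine ⟨_, ?_, (h1.add (h2.add h2)).neg⟩
  simp only [qJac, ← dn_v]
  rfl

theorem quad_eta2 (H : β.Ok D S) (r0 : 0 ≤ r) :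
    Quad D r (fun y => D3S.eta (β.fC (Bg.jt D y)) (β.fC (Bg.jt D y)))
      (dEta β.dC β.dC) (tqEta S r) := quad_eta (quad_fC H r0) (quad_fC H r0)

theorem quad_qRad (H : β.Ok D S) (r0 : 0 ≤ r) (R : ℚ) :
    ∃ δ : W93.Du W (Fin 6), δ.v = qRad R β.C ∧
      Quad D r (fun y => qRad R (β.fC (Bg.jt D y))) δ (tqRad S r R) :=
  ⟨_, rfl, (Quad.const r0 _ (abs_nonneg _) (norm_alg_le R)).sub (quad_eta2 H r0)⟩

end Quads

/-! ### the quantities of a formal surface -/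

theorem qAng1_eq (h : Hat W) (S0 c : ℚ) :
    qAng1 S0 c ![h.P.f, h.Q.f, h.Z.f] = h.cosq eu eu' S0 c := by
  have e1 : ∀ x : W, (1 / 2 : ℝ) • x = algebraMap ℝ W (1 / 2) * x := fun x =>
    Algebra.smul_def _ _
  simp only [qAng1, qS, cu, su1, Hat.cosq, Hat.rho, e1, Matrix.cons_val]
  ring

theorem qAng2_eq (h : Hat W) (N : ℕ) :
    qAng2 ![h.P.f, h.Q.f, h.Z.f] ![h.a1 N, h.a2 N, h.a3 N] = h.ang N := by
  simp only [qAng2, Hat.ang, Matrix.cons_val]

theorem qJac_eq (h : Hat W) (N : ℕ) (S0 : ℚ) :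
    qJac S0 ![h.P.f, h.Q.f, h.Z.f] (crs ![h.P.fu, h.Q.fu, h.Z.fu] ![h.a1 N, h.a2 N, h.a3 N]) =
      h.jac N S0 := by
  simp only [qJac, qS, crs, Hat.jac, Hat.rho, Hat.n1, Hat.n2, Hat.n3, Matrix.cons_val]
  ring

theorem IsHat.real_cosq {h : Hat W} (H : IsHat evp h) (N : ℕ) (S0 c : ℝ) :
    RealW (h.cosq eu eu' S0 c) := fun p => by
  rw [← H.cosq_eq N evp_eu evp_eu' S0 c p, Complex.ofReal_im]

theorem IsHat.real_ang {h : Hat W} (H : IsHat evp h) (N : ℕ) : RealW (h.ang N) := fun p => by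
  rw [← H.ang_eq N p, Complex.ofReal_im]

theorem IsHat.real_jac {h : Hat W} (H : IsHat evp h) (N : ℕ) (S0 : ℝ) :
    RealW (h.jac N S0) := fun p => by
  rw [← H.Jac_eq N S0 p, Complex.ofReal_im]

/-! ### the torus -/

/-- All certificates for the geometric part. -/
structure Geo (N : ℕ) (s : W) (C V : Hat W) (S : Slots) (r S0 c : ℚ) : Prop where
  hC : HPar C
  hV : HPar V
  hs : EvenW s
  r0 : 0 ≤ r
  c0 : 0 < c
  /-- the normaliser is positive -/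
  g0 : PC s
  /-- `P > 0` -/
  g1 : QC r C.P.f (Tri.leaf (S.C 0))
  /-- `(P² + Q² - S0) cos u + c Z sin u > 0` -/
  g2 : QC r (qAng1 S0 c (bgOf N s C V).C) (tqAng1 S r S0 c)
  /-- `s (P Q_v - Q P_v) > 0` -/
  g3 : QC r (qAng2 (bgOf N s C V).C (sm s (bgOf N s C V).B)) (tqAng2 S r)
  /-- `s² J > 0` -/
  g4 : QC r (qJac S0 (bgOf N s C V).C (crs (sm s (bgOf N s C V).A) (sm s (bgOf N s C V).B)))
    (tqJac S r S0)

variable {N : ℕ} {s : W} {C V : Hat W} {S : Slots} {S0 c : ℚ}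

/-- **A small zero of the nonlinear map and the certificates give a shrinking torus.** -/
theorem Geo.torus (K : Geo N s C V S r S0 c) (H : (bgOf N s C V).Ok D S) {y : E}
    (hy : ‖y‖ ≤ r) {φ : HJet W} (hφ : Bg.jt D y = φ.vec6) (jφ : WJet φ) (eφ : EvenW φ.f)
    (hF : (bgOf N s C V).F (Bg.jt D y) = 0) :
    IsShrinkingTorus (range ((K.hC.fs3.isHat K.hV.fs3 jφ eφ).rot N).toSurf.X) := by
  have rs : RealW s := K.hs.real
  have pos_s : PosW s := K.g0.pos rs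
  have X := K.hC.fs3.isHat K.hV.fs3 jφ eφ
  have eC := fC_bgOf N s C V φ
  have eA := fA_bgOf N s C V φ
  have eB := fB_bgOf N s C V φ
  rw [hφ] at hF
  refine shrinkingTorus_of_bg K.hC.fs3 K.hV.fs3 jφ eφ pos_s.ne_zero hF
    (S0 := S0) (c := c) (by exact_mod_cast K.c0) ?_ ?_ ?_ ?_
  · have h := K.g1.pos (quad_fC H K.r0 0) rfl hy (by
      rw [hφ, eC]
      exact X.rP)
    rwa [hφ, eC] at h
  · obtain ⟨δ, h1, h2⟩ := quad_qAng1 H K.r0 S0 c
    have h := K.g2.pos h2 h1 hy (by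
      rw [hφ, eC, qAng1_eq]
      exact X.real_cosq N S0 c)
    rwa [hφ, eC, qAng1_eq] at h
  · obtain ⟨δ, h1, h2⟩ := quad_qAng2 H K.r0
    have es : (bgOf N s C V).s = s := rfl
    have h := K.g3.pos h2 h1 hy (by
      rw [hφ, eC, eB, es, qAng2_sm, qAng2_eq]
      exact rs.mul (X.real_ang N))
    rw [hφ, eC, eB, es, qAng2_sm, qAng2_eq] at h
    exact PosW.of_mul rs pos_s h
  · obtain ⟨δ, h1, h2⟩ := quad_qJac H K.r0 S0
    have es : (bgOf N s C V).s = s := rfl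
    have h := K.g4.pos h2 h1 hy (by
      rw [hφ, eC, eA, eB, es, qJac_sm, qJac_eq]
      exact (rs.mul rs).mul (X.real_jac N S0))
    rw [hφ, eC, eA, eB, es, qJac_sm, qJac_eq] at h
    exact PosW.of_mul (rs.mul rs) (PosW.mul rs pos_s pos_s) h

/-! ### the circumradius -/

/-- `|X|² < R` everywhere: with the certificate `QC r (qRad R C) (tqRad S r R)` -/
theorem Geo.rad_lt (K : Geo N s C V S r S0 c) (H : (bgOf N s C V).Ok D S) {y : E}
    (hy : ‖y‖ ≤ r) {φ : HJet W} (hφ : Bg.jt D y = φ.vec6) (jφ : WJet φ) (eφ : EvenW φ.f)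
    {R : ℚ} (hR : QC r (qRad R (bgOf N s C V).C) (tqRad S r R)) (p : ℝ × ℝ) :
    ((K.hC.fs3.isHat K.hV.fs3 jφ eφ).rot N).P p ^ 2 +
      ((K.hC.fs3.isHat K.hV.fs3 jφ eφ).rot N).Q p ^ 2 +
      ((K.hC.fs3.isHat K.hV.fs3 jφ eφ).rot N).Z p ^ 2 ≤ R := by
  have X := K.hC.fs3.isHat K.hV.fs3 jφ eφ
  have eC := fC_bgOf N s C V φ
  have e2 : ∀ q : ℝ × ℝ, evp q (qRad R ((bgOf N s C V).fC (Bg.jt D y))) =
      ((R - (((K.hC.fs3.isHat K.hV.fs3 jφ eφ).rot N).P q ^ 2 +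
      ((K.hC.fs3.isHat K.hV.fs3 jφ eφ).rot N).Q q ^ 2 +
      ((K.hC.fs3.isHat K.hV.fs3 jφ eφ).rot N).Z q ^ 2) : ℝ) : ℂ) := by
    intro q
    have hr := X.rho_eq N q
    obtain ⟨Z0, _⟩ := X.Z_real N q
    have hI := Complex.I_sq
    rw [Complex.ofReal_sub, Complex.ofReal_add, hr, Complex.ofReal_pow, Z0, hφ, eC]
    simp only [qRad, D3S.eta, Matrix.cons_val, Hat.rho, map_sub, map_mul, ev_algebraMap]
    linear_combination (evp q (C.pert V φ).Z.f * evp q (C.pert V φ).Z.f) * hI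
  obtain ⟨δ, h1, h2⟩ := quad_qRad H K.r0 R
  have h := hR.pos h2 h1 hy (fun q => by rw [e2 q, Complex.ofReal_im]) p
  rw [e2 p, Complex.ofReal_re] at h
  linarith

/-- the value of `P` at the origin of the parameter plane -/
theorem Geo.P_ge (K : Geo N s C V S r S0 c) (H : (bgOf N s C V).Ok D S) {y : E}
    (hy : ‖y‖ ≤ r) {φ : HJet W} (hφ : Bg.jt D y = φ.vec6) (jφ : WJet φ) (eφ : EvenW φ.f) :
    (evp (0, 0) C.P.f).re - (S.C 0).2 * r ≤
      ((K.hC.fs3.isHat K.hV.fs3 jφ eφ).rot N).P (0, 0) := by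
  have h1 := (quad_fC H K.r0 0).size hy
  have h2 := (Complex.abs_re_le_norm _).trans ((norm_evp_le (0, 0) _).trans h1)
  rw [hφ, fC_bgOf, map_sub, Complex.sub_re] at h2
  have h3 := (abs_le.mp h2).1
  change -_ ≤ (evp (0, 0) (C.pert V φ).P.f).re - (evp (0, 0) C.P.f).re at h3
  change _ ≤ (evp (0, 0) (C.pert V φ).P.f).re
  simp only [Tri.leaf] at h3
  push_cast at h3
  linarith

/-! ### the final theorem -/

theorem jt_dj {a b σ : ℝ} {D : Fin 6 → W →+ W} (hD : ∀ i x, D i x = dj a b σ i x) (y : W) :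
    Bg.jt D y = (phiJ a b σ y).vec6 := by
  funext i
  unfold Bg.jt
  rw [hD]
  fin_cases i <;> rfl

/-- The result of the existence part: a zero of norm at most `r` with the bounds `S`. -/
structure Solved (N : ℕ) (s : W) (C V : Hat W) (S : Slots) (r : ℚ) (a b σ : ℝ)
    (D : Fin 6 → W →+ W) : Prop where
  a0 : 0 < a
  b0 : 0 < b
  σ0 : 0 < σ
  hD : ∀ i x, D i x = dj a b σ i x
  ok : (bgOf N s C V).Ok D S
  ex : ∃ y ∈ WS, ‖y‖ ≤ r ∧ (bgOf N s C V).F (Bg.jt D y) = 0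

/-- One torus. -/
theorem torus_of {a b σ : ℝ} {D : Fin 6 → W →+ W} (T : Solved N s C V S r a b σ D)
    (K : Geo N s C V S r S0 c) : ∃ T : Set E3, IsShrinkingTorus T := by
  obtain ⟨y, yS, hy, hF⟩ := T.ex
  exact ⟨_, K.torus T.ok hy (jt_dj T.hD y) (phiJ_jet T.a0 T.b0 T.σ0 y)
    (phiJ_even T.a0 T.b0 T.σ0 yS) hF⟩

/-- **Two tori which are not congruent.** The first has a squared circumradius at most `R`, the
second has the point `u = v = 0` outside of the ball of radius `√R`. -/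
theorem two_tori_of {a b σ : ℝ} {D : Fin 6 → W →+ W} (T : Solved N s C V S r a b σ D)
    (K : Geo N s C V S r S0 c) {R : ℚ} (hR : QC r (qRad R (bgOf N s C V).C) (tqRad S r R))
    {N' : ℕ} {s' : W} {C' V' : Hat W} {S' : Slots} {r' S0' c' : ℚ} {a' b' σ' : ℝ}
    {D' : Fin 6 → W →+ W} (T' : Solved N' s' C' V' S' r' a' b' σ' D')
    (K' : Geo N' s' C' V' S' r' S0' c') {m : ℚ} (hm : (m : ℝ) ≤ (evp (0, 0) C'.P.f).re)
    (m0 : 0 ≤ m - (S'.C 0).2 * r') (hm2 : R < (m - (S'.C 0).2 * r') ^ 2) :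
    ∃ S T : Set E3, IsShrinkingTorus S ∧ IsShrinkingTorus T ∧
      ∀ g : E3 ≃ₗᵢ[ℝ] E3, g '' S ≠ T := by
  obtain ⟨y, yS, hy, hF⟩ := T.ex
  obtain ⟨y', yS', hy', hF'⟩ := T'.ex
  have j1 := phiJ_jet T.a0 T.b0 T.σ0 y
  have j2 := phiJ_even T.a0 T.b0 T.σ0 (y := y) yS
  have j1' := phiJ_jet T'.a0 T'.b0 T'.σ0 y'
  have j2' := phiJ_even T'.a0 T'.b0 T'.σ0 (y := y') yS'
  refine ⟨_, _, K.torus T.ok hy (jt_dj T.hD y) j1 j2 hF,
    K'.torus T'.ok hy' (jt_dj T'.hD y') j1' j2' hF', fun g => ?_⟩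
  refine Rot.not_congruent _ _ (C := (R : ℝ))
    (fun p => K.rad_lt T.ok hy (jt_dj T.hD y) j1 j2 hR p) ?_ g
  have h1 := K'.P_ge T'.ok hy' (jt_dj T'.hD y') j1' j2'
  have h2 : (0 : ℝ) ≤ ((m - (S'.C 0).2 * r' : ℚ) : ℝ) := by exact_mod_cast m0
  have h3 : (R : ℝ) < (((m - (S'.C 0).2 * r') ^ 2 : ℚ) : ℝ) := by exact_mod_cast hm2
  push_cast at h2 h3
  generalize ((K'.hC.fs3.isHat K'.hV.fs3 j1' j2').rot N').P (0, 0) = P at *
  generalize ((K'.hC.fs3.isHat K'.hV.fs3 j1' j2').rot N').Q (0, 0) = Q at *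
  generalize ((K'.hC.fs3.isHat K'.hV.fs3 j1' j2').rot N').Z (0, 0) = Z at *
  have h4 : (m : ℝ) - (S'.C 0).2 * r' ≤ P := by linarith
  nlinarith [sq_nonneg Q, sq_nonneg Z, pow_le_pow_left₀ h2 h4 2]

end D3
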