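import Mathlib
import Pool.Agent.H.MP_ce2c94_gt.D3.RInv
import Pool.Agent.H.MP_ce2c94_gt.D3Tab

/-!
# Column certificates (PROJECT D3, module M9)

`colsChk`: one `decide +kernel` check for many columns; `colsChk_sound`: `ColOK` for each of them.
Cells are combined in continuation passing style, so no list of registers is needed.
-/

set_option autoImplicit false

namespace Pool.MP_ce2c94_gt

open Pool.Agent.H.MP_ce2c94_gt.h46 D3W D3 AddMonoidAlgebra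

/-! ### operations in continuation passing style -/

/-- table -/
def tabK (P : Par) (B : Base) (a c : ℕ) (k : Cell → Bool) : Bool :=
  match tabC P B.w a c B.I B.J B.ε B.δ B.p B.N with
  | some C => forceC C fun C => forceC (autoN P C) k
  | none => false

/-- product -/
def mulK (P : Par) (x y : Cell) (k : Cell → Bool) : Bool :=
  match mulC P x y with
  | some C => forceC C k
  | none => false

/-- sum -/
def addK (P : Par) (x y : Cell) (k : Cell → Bool) : Bool :=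
  match addA P x y with
  | some C => forceC C k
  | none => false

/-- norm at most `n / 2^q` -/
def normK (P : Par) (x : Cell) (n q : ℕ) : Bool :=
  forceC (autoN P x) fun C => Nat.ble ((C.s + C.e) * 2 ^ q) (n * 2 ^ C.p)

/-- the cell of `sym (e (i, j))` -/
def symC (P : Par) (i j : ℕ) : Cell :=
  ⟨((2 ^ (P.b * (i + i)) + 1) * (2 ^ (P.b * P.W * (j + j)) + 1) : ℕ), i, j, up P 4, 0, 2⟩

/-- table, without computing its norm -/
def tabK0 (P : Par) (B : Base) (a c : ℕ) (k : Cell → Bool) : Bool :=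
  match tabC P B.w a c B.I B.J B.ε B.δ B.p B.N with
  | some C => forceC C k
  | none => false

/-- bring a cell to the precision `p` and the box `I, J` -/
def liftK (P : Par) (p I J : ℕ) (x : Cell) (k : Cell → Bool) : Bool :=
  Nat.ble x.p p && Nat.ble x.I I && Nat.ble x.J J && Nat.ble I P.I0 && Nat.ble J P.J0 &&
    forceC (enlC P I J (preC (p - x.p) x)) k

/-- same precision and same box -/
def same (x y : Cell) : Bool := Nat.beq x.p y.p && Nat.beq x.I y.I && Nat.beq x.J y.J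

/-- `x + y` for cells with the same box and precision -/
def addE (x y : Cell) : Cell := ⟨x.z + y.z, x.I, x.J, x.s + y.s, x.e + y.e, x.p⟩

/-- the product of cells, no test -/
def mulE (x y : Cell) : Cell :=
  ⟨x.z * y.z, x.I + y.I, x.J + y.J, x.s * y.s, x.e * (y.s + y.e) + x.s * y.e, x.p + y.p⟩

/-- one column -/
def colChk (P : Par) (g0 g1 g2 g3 g4 g5 : Cell) (an bn sn zn zq αn αq k1 k2 : ℕ) (B : Base) :
    Bool :=
  Nat.ble k1 P.I0 && Nat.ble k2 P.J0 && decide (B.ε = 1) && decide (B.δ = 1) &&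
  tabK0 P B 0 0 fun f0 => tabK0 P B 1 0 fun f1 => tabK0 P B 0 1 fun f2 =>
  tabK0 P B 2 0 fun f3 => tabK0 P B 1 1 fun f4 => tabK0 P B 0 2 fun f5 =>
  same f0 f3 && same f0 f5 && same f0 f1 && same f0 f2 && same f0 f4 &&
  Nat.ble (g0.I + f0.I) P.I0 && Nat.ble (g0.J + f0.J) P.J0 &&
  normK P (addE (addE (smulC an f3) (smulC bn f5)) (smulC sn f0)) αn αq &&
  liftK P (g0.p + f0.p) (g0.I + f0.I) (g0.J + f0.J) (symC P k1 k2) fun y =>
  forceC (addE y (negC (addE (addE (addE (addE (addE (mulE g0 f0) (mulE g1 f1)) (mulE g2 f2))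
    (mulE g3 f3)) (mulE g4 f4)) (mulE g5 f5)))) fun y => normK P y zn zq

/-- all columns -/
def colsLoop (P : Par) (g0 g1 g2 g3 g4 g5 : Cell) (an bn sn zn zq αn αq : ℕ) :
    List (ℕ × ℕ × Base) → Bool
  | [] => true
  | (k1, k2, B) :: l => colChk P g0 g1 g2 g3 g4 g5 an bn sn zn zq αn αq k1 k2 B &&
      colsLoop P g0 g1 g2 g3 g4 g5 an bn sn zn zq αn αq l

/-- the complete check of a list of columns; `pG, IG, JG`: the common precision and box to which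
the coefficient functions are brought -/
def colsChk (b W h I0 J0 k pG IG JG : ℕ) (G0 G1 G2 G3 G4 G5 : Base)
    (an bn sn zn zq αn αq : ℕ) (l : List (ℕ × ℕ × Base)) : Bool :=
  Nat.ble ((I0 + J0) * 2 ^ (k + 1)) (2 ^ 20) &&
  mkPar b W h I0 J0 k fun P => P.ok &&
  tabK P G0 0 0 fun g0 => tabK P G1 0 0 fun g1 => tabK P G2 0 0 fun g2 =>
  tabK P G3 0 0 fun g3 => tabK P G4 0 0 fun g4 => tabK P G5 0 0 fun g5 =>
  liftK P pG IG JG g0 fun g0 => liftK P pG IG JG g1 fun g1 => liftK P pG IG JG g2 fun g2 =>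
  liftK P pG IG JG g3 fun g3 => liftK P pG IG JG g4 fun g4 => liftK P pG IG JG g5 fun g5 =>
  same g0 g1 && same g0 g2 && same g0 g3 && same g0 g4 && same g0 g5 &&
  colsLoop P g0 g1 g2 g3 g4 g5 an bn sn zn zq αn αq l

/-- the norms needed for the tail -/
def tailChk (b W h I0 J0 k : ℕ) (G0 G1 G2 G3 G4 G5 : Base) (an bn d : ℕ)
    (q nG nH n0 n1 n2 n4 : ℕ) : Bool :=
  Nat.ble ((I0 + J0) * 2 ^ (k + 1)) (2 ^ 20) &&
  mkPar b W h I0 J0 k fun P => P.ok &&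
  tabK P G0 0 0 fun g0 => normK P g0 n0 q &&
  tabK P G1 0 0 fun g1 => normK P g1 n1 q &&
  tabK P G2 0 0 fun g2 => normK P g2 n2 q &&
  tabK P G4 0 0 fun g4 => normK P g4 n4 q &&
  tabK P G3 0 0 fun g3 => tabK P G5 0 0 fun g5 =>
  addK P (smulC bn g3) (negC (smulC an g5)) fun y => normK P y nG q &&
  addK P (smulC bn g3) (smulC an g5) fun y =>
  addK P (smulC d y) (negC (cstC P (2 * an * bn))) fun y => normK P y nH q

section

variable {P : Par} {A : Alg P W}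

theorem tabK_sound (h : nu ^ (P.I0 + P.J0) ≤ 1 + 1 / 2 ^ P.k) (hP : P.Ok) {B : Base} {a c : ℕ}
    {k : Cell → Bool} (hk : tabK P B a c k = true) :
    ∃ C, Enc (algW P h) (baseW B a c) C ∧ k C = true := by
  unfold tabK at hk
  split at hk
  · rename_i C hC
    rw [forceC_eq, forceC_eq] at hk
    refine ⟨_, autoN_sound hP ?_, hk⟩
    rw [← tabW_eq_baseW P h]
    exact tabC_sound _ hC
  · exact absurd hk (by simp)

theorem tabK0_sound (h : nu ^ (P.I0 + P.J0) ≤ 1 + 1 / 2 ^ P.k) {B : Base} {a c : ℕ}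
    {k : Cell → Bool} (hk : tabK0 P B a c k = true) :
    ∃ C, Enc (algW P h) (baseW B a c) C ∧ k C = true := by
  unfold tabK0 at hk
  split at hk
  · rename_i C hC
    rw [forceC_eq] at hk
    refine ⟨_, ?_, hk⟩
    rw [← tabW_eq_baseW P h]
    exact tabC_sound _ hC
  · exact absurd hk (by simp)

theorem liftK_sound {p I J : ℕ} {x : W} {X : Cell} (hx : Enc A x X) {k : Cell → Bool}
    (hk : liftK P p I J X k = true) : ∃ C, Enc A x C ∧ C.p = p ∧ C.I = I ∧ C.J = J ∧ k C = true := by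
  unfold liftK at hk
  simp only [Bool.and_eq_true, Nat.ble_eq] at hk
  obtain ⟨⟨⟨⟨⟨h1, h2⟩, h3⟩, h4⟩, h5⟩, h6⟩ := hk
  rw [forceC_eq] at h6
  refine ⟨_, enlC_sound (preC_sound hx) h2 h3 h4 h5, ?_, rfl, rfl, h6⟩
  show X.p + (p - X.p) = p
  omega

theorem same_iff {x y : Cell} : same x y = true ↔ x.p = y.p ∧ x.I = y.I ∧ x.J = y.J := by
  unfold same
  simp only [Bool.and_eq_true, Nat.beq_eq, and_assoc]

theorem addE_sound {x y : W} {X Y : Cell} (hx : Enc A x X) (hy : Enc A y Y) (hp : X.p = Y.p)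
    (hI : X.I = Y.I) (hJ : X.J = Y.J) : Enc A (x + y) (addE X Y) := by
  obtain ⟨u, u1, u2, u3, u4⟩ := hx.ex
  obtain ⟨v, v1, v2, v3, v4⟩ := hy.ex
  rw [← hI, ← hJ] at v1
  rw [← hp] at v4
  refine ⟨u + v, u1.add v1, (nrm_add _ _).trans (Nat.add_le_add u2 v2), ?_, ?_⟩
  · rw [map_add]
    show _ ≤ ((X.s + Y.s : ℕ) : ℝ)
    push_cast
    exact (norm_add_le _ _).trans (add_le_add u3 v3)
  · show ‖((2 : ℝ) ^ X.p) • (x + y) - A.ι (u + v)‖ ≤ ((X.e + Y.e : ℕ) : ℝ)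
    push_cast
    have e1 : ((2 : ℝ) ^ X.p) • (x + y) - A.ι (u + v)
        = (((2 : ℝ) ^ X.p) • x - A.ι u) + (((2 : ℝ) ^ X.p) • y - A.ι v) := by
      rw [map_add, smul_add]; abel
    rw [e1]
    exact (norm_add_le _ _).trans (add_le_add u4 v4)

theorem mulE_sound {x y : W} {X Y : Cell} (hx : Enc A x X) (hy : Enc A y Y)
    (hI : X.I + Y.I ≤ P.I0) (hJ : X.J + Y.J ≤ P.J0) : Enc A (x * y) (mulE X Y) := by
  refine mulC_sound (P := P) hx hy ?_
  unfold mulC mulE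
  rw [if_pos]
  simp only [Bool.and_eq_true, Nat.ble_eq]
  exact ⟨hI, hJ⟩

theorem mulK_sound {x y : W} {X Y : Cell} (hx : Enc A x X) (hy : Enc A y Y) {k : Cell → Bool}
    (hk : mulK P X Y k = true) : ∃ C, Enc A (x * y) C ∧ k C = true := by
  unfold mulK at hk
  split at hk
  · rename_i C hC
    rw [forceC_eq] at hk
    exact ⟨_, mulC_sound hx hy hC, hk⟩
  · exact absurd hk (by simp)

theorem addK_sound {x y : W} {X Y : Cell} (hx : Enc A x X) (hy : Enc A y Y) {k : Cell → Bool}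
    (hk : addK P X Y k = true) : ∃ C, Enc A (x + y) C ∧ k C = true := by
  unfold addK at hk
  split at hk
  · rename_i C hC
    rw [forceC_eq] at hk
    exact ⟨_, addA_sound hx hy hC, hk⟩
  · exact absurd hk (by simp)

theorem normK_sound (hP : P.Ok) {x : W} {X : Cell} (hx : Enc A x X) {n q : ℕ}
    (hk : normK P X n q = true) : ‖x‖ ≤ (n : ℝ) / 2 ^ q := by
  unfold normK at hk
  rw [forceC_eq, Nat.ble_eq] at hk
  refine (autoN_sound hP hx).norm_le.trans ?_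
  rw [div_le_div_iff₀ (by positivity) (by positivity)]
  exact_mod_cast hk

theorem iW_single (k : ℤ × ℤ) (c : ℤ) : iW (single k c) = (c : ℝ) • e k :=
  W_ext fun l => by
    rw [coef_iW, map_smul, coef_e, smul_eq_mul, coeff_single, Finsupp.single_apply]
    split_ifs <;> simp

theorem symC_sound (h : nu ^ (P.I0 + P.J0) ≤ 1 + 1 / 2 ^ P.k) {i j : ℕ} (hi : i ≤ P.I0)
    (hj : j ≤ P.J0) : Enc (algW P h) (sym (e ((i : ℤ), (j : ℤ)))) (symC P i j) := by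
  have hb := quad_box 1 1 (1 : ℤ) (le_refl i) (le_refl j)
  have hn : nrm (quad 1 1 i j 1) ≤ 4 := (quad_nrm 1 1 (by simp) (by simp) i j 1).trans (by simp)
  have hr : Rep P (quad 1 1 i j 1) (symC P i j).z i j := by
    refine ⟨hb, hi, hj, ?_⟩
    rw [ev_quad P.b P.W 1 1 1 (le_refl i) (le_refl j)]
    simp only [symC, Nat.sub_self, Nat.mul_zero, pow_zero]
    push_cast
    ring
  refine ⟨quad 1 1 i j 1, hr, hn.trans (le_up P _), (algW P h).bd' hb hi hj hn, ?_⟩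
  have e1 : ((2 : ℝ) ^ 2) • sym (e ((i : ℤ), (j : ℤ))) - iW (quad 1 1 i j 1) = 0 := by
    rw [quad, map_add, map_add, map_add, iW_single, iW_single, iW_single, iW_single, sym_e,
      smul_smul]
    simp only [su, st, Prod.neg_mk, mul_one, Int.cast_one, one_smul]
    norm_num
  show ‖((2 : ℝ) ^ 2) • sym (e ((i : ℤ), (j : ℤ))) - iW (quad 1 1 i j 1)‖ ≤ ((0 : ℕ) : ℝ)
  rw [e1, norm_zero]
  simp

/-! ### parities of the tables -/

theorem single_one_coeff_su (p k : ℤ × ℤ) :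
    (single p (1 : ℤ) : T).coeff (su k) = (single (su p) (1 : ℤ) : T).coeff k := by
  rw [coeff_single, coeff_single, Finsupp.single_apply, Finsupp.single_apply]
  have : (p = su k) = (su p = k) := by
    rw [eq_iff_iff]
    constructor
    · intro h; rw [h, su_su]
    · intro h; rw [← h, su_su]
  simp only [this]

theorem single_one_coeff_st (p k : ℤ × ℤ) :
    (single p (1 : ℤ) : T).coeff (st k) = (single (st p) (1 : ℤ) : T).coeff k := by
  rw [coeff_single, coeff_single, Finsupp.single_apply, Finsupp.single_apply]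
  have : (p = st k) = (st p = k) := by
    rw [eq_iff_iff]
    constructor
    · intro h; rw [h, st_st]
    · intro h; rw [← h, st_st]
  simp only [this]

theorem coeff_quad (ε δ : ℤ) (i j : ℕ) (a : ℤ) (q : ℤ × ℤ) : (quad ε δ i j a).coeff q =
      a * (single ((i : ℤ), (j : ℤ)) (1 : ℤ) : T).coeff q +
      ε * a * (single (-(i : ℤ), (j : ℤ)) (1 : ℤ) : T).coeff q +
      δ * a * (single ((i : ℤ), -(j : ℤ)) (1 : ℤ) : T).coeff q +
      ε * δ * a * (single (-(i : ℤ), -(j : ℤ)) (1 : ℤ) : T).coeff q := by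
  have hs : ∀ (p : ℤ × ℤ) (x : ℤ),
      (single p x : T).coeff q = x * (single p (1 : ℤ) : T).coeff q := by
    intro p x
    rw [coeff_single, coeff_single, Finsupp.single_apply, Finsupp.single_apply]
    split_ifs <;> ring
  rw [quad, coeff_add, coeff_add, coeff_add, Finsupp.add_apply, Finsupp.add_apply,
    Finsupp.add_apply, hs _ a, hs _ (ε * a), hs _ (δ * a), hs _ (ε * δ * a)]

theorem coeff_quad_su (ε δ : ℤ) (hε : ε * ε = 1) (i j : ℕ) (a : ℤ) (k : ℤ × ℤ) :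
    (quad ε δ i j a).coeff (su k) = ε * (quad ε δ i j a).coeff k := by
  rw [coeff_quad, coeff_quad, single_one_coeff_su, single_one_coeff_su, single_one_coeff_su,
    single_one_coeff_su]
  simp only [su, neg_neg]
  generalize (single ((i : ℤ), (j : ℤ)) (1 : ℤ) : T).coeff k = D
  generalize (single (-(i : ℤ), (j : ℤ)) (1 : ℤ) : T).coeff k = C
  generalize (single ((i : ℤ), -(j : ℤ)) (1 : ℤ) : T).coeff k = B
  generalize (single (-(i : ℤ), -(j : ℤ)) (1 : ℤ) : T).coeff k = A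
  linear_combination (-(a * C) - δ * a * A) * hε

theorem coeff_quad_st (ε δ : ℤ) (hδ : δ * δ = 1) (i j : ℕ) (a : ℤ) (k : ℤ × ℤ) :
    (quad ε δ i j a).coeff (st k) = δ * (quad ε δ i j a).coeff k := by
  rw [coeff_quad, coeff_quad, single_one_coeff_st, single_one_coeff_st, single_one_coeff_st,
    single_one_coeff_st]
  simp only [st, neg_neg]
  generalize (single ((i : ℤ), (j : ℤ)) (1 : ℤ) : T).coeff k = D
  generalize (single (-(i : ℤ), (j : ℤ)) (1 : ℤ) : T).coeff k = C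
  generalize (single ((i : ℤ), -(j : ℤ)) (1 : ℤ) : T).coeff k = B
  generalize (single (-(i : ℤ), -(j : ℤ)) (1 : ℤ) : T).coeff k = A
  linear_combination (-(a * B) - ε * a * A) * hδ

/-- the parities of a table -/
theorem par_baseW (B : Base) (hε : B.ε * B.ε = 1) (hδ : B.δ * B.δ = 1) :
    Par (B.ε : ℝ) (B.δ : ℝ) (baseW B 0 0) := by
  rw [par_iff]
  refine ⟨fun k => ?_, fun k => ?_⟩
  · unfold baseW
    rw [map_smul, map_smul, coef_iW, coef_iW]
    have h : ∀ x : T, DD 0 0 x = x := fun x => rfl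
    rw [h]
    unfold tab
    simp only [coeff_sum, Finsupp.finsetSum_apply, coeff_quad_su _ _ hε, ← Finset.mul_sum]
    push_cast
    simp only [smul_eq_mul]
    ring
  · unfold baseW
    rw [map_smul, map_smul, coef_iW, coef_iW]
    have h : ∀ x : T, DD 0 0 x = x := fun x => rfl
    rw [h]
    unfold tab
    simp only [coeff_sum, Finsupp.finsetSum_apply, coeff_quad_st _ _ hδ, ← Finset.mul_sum]
    push_cast
    simp only [smul_eq_mul]
    ring

theorem par_baseW_DD (B : Base) (hε : B.ε * B.ε = 1) (hδ : B.δ * B.δ = 1) (a c : ℕ) :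
    Par ((-1) ^ a * (B.ε : ℝ)) ((-1) ^ c * (B.δ : ℝ)) (baseW B a c) := by
  have h := par_iff.mp (par_baseW B hε hδ)
  rw [par_iff]
  refine ⟨fun k => ?_, fun k => ?_⟩
  · rw [coef_baseW, h.1, coef_baseW B a c k]
    simp only [su]
    push_cast
    rw [neg_pow]
    ring
  · rw [coef_baseW, h.2, coef_baseW B a c k]
    simp only [st]
    push_cast
    rw [neg_pow (k.2 : ℝ)]
    ring

theorem isDu_baseW (B : Base) (a c : ℕ) : IsDu (baseW B a c) (baseW B (a + 1) c) := fun k => by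
  rw [coef_baseW B (a + 1), coef_baseW B a]
  ring

theorem isDt_baseW (B : Base) (a c : ℕ) : IsDt (baseW B a c) (baseW B a (c + 1)) := fun k => by
  rw [coef_baseW B a (c + 1), coef_baseW B a c]
  ring

/-- the six coefficient functions -/
noncomputable def gW (G0 G1 G2 G3 G4 G5 : Base) : Fin 6 → W :=
  ![baseW G0 0 0, baseW G1 0 0, baseW G2 0 0, baseW G3 0 0, baseW G4 0 0, baseW G5 0 0]

theorem colChk_sound {P : Par} (h : nu ^ (P.I0 + P.J0) ≤ 1 + 1 / 2 ^ P.k) (hP : P.Ok)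
    {G0 G1 G2 G3 G4 G5 : Base} {g0 g1 g2 g3 g4 g5 : Cell}
    (e0 : Enc (algW P h) (baseW G0 0 0) g0) (e1 : Enc (algW P h) (baseW G1 0 0) g1)
    (e2 : Enc (algW P h) (baseW G2 0 0) g2) (e3 : Enc (algW P h) (baseW G3 0 0) g3)
    (e4 : Enc (algW P h) (baseW G4 0 0) g4) (e5 : Enc (algW P h) (baseW G5 0 0) g5)
    (s1 : g0.p = g1.p ∧ g0.I = g1.I ∧ g0.J = g1.J) (s2 : g0.p = g2.p ∧ g0.I = g2.I ∧ g0.J = g2.J)
    (s3 : g0.p = g3.p ∧ g0.I = g3.I ∧ g0.J = g3.J) (s4 : g0.p = g4.p ∧ g0.I = g4.I ∧ g0.J = g4.J)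
    (s5 : g0.p = g5.p ∧ g0.I = g5.I ∧ g0.J = g5.J)
    {an bn sn d zn zq αn αq k1 k2 : ℕ} (ha : 0 < an) (hb : 0 < bn) (hs : 0 < sn) (hd : 0 < d)
    {B : Base}
    (hc : colChk P g0 g1 g2 g3 g4 g5 an bn sn zn zq αn αq k1 k2 B = true) :
    ColOK ((an : ℝ) / d) ((bn : ℝ) / d) ((sn : ℝ) / d) (gW G0 G1 G2 G3 G4 G5)
      ((αn : ℝ) / 2 ^ αq / d) ((zn : ℝ) / 2 ^ zq) ((k1 : ℤ), (k2 : ℤ)) := by
  unfold colChk at hc
  rw [Bool.and_eq_true, Bool.and_eq_true, Bool.and_eq_true, Bool.and_eq_true, Nat.ble_eq,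
    Nat.ble_eq, decide_eq_true_eq, decide_eq_true_eq] at hc
  obtain ⟨⟨⟨⟨hk1, hk2⟩, hε⟩, hδ⟩, hc⟩ := hc
  obtain ⟨f0, F0, hc⟩ := tabK0_sound h hc
  obtain ⟨f1, F1, hc⟩ := tabK0_sound h hc
  obtain ⟨f2, F2, hc⟩ := tabK0_sound h hc
  obtain ⟨f3, F3, hc⟩ := tabK0_sound h hc
  obtain ⟨f4, F4, hc⟩ := tabK0_sound h hc
  obtain ⟨f5, F5, hc⟩ := tabK0_sound h hc
  simp only [Bool.and_eq_true, Nat.ble_eq, same_iff] at hc
  obtain ⟨⟨⟨⟨⟨⟨⟨⟨t3, t5⟩, t1⟩, t2⟩, t4⟩, hI⟩, hJ⟩, hα⟩, hc⟩ := hc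
  have Y1 := addE_sound (smulC_sound (n := (an : ℤ)) F3) (smulC_sound (n := (bn : ℤ)) F5)
    (t3.1.symm.trans t5.1) (t3.2.1.symm.trans t5.2.1) (t3.2.2.symm.trans t5.2.2)
  have Y2 := addE_sound Y1 (smulC_sound (n := (sn : ℤ)) F0) t3.1.symm t3.2.1.symm t3.2.2.symm
  have nα := normK_sound hP Y2 hα
  obtain ⟨y, Y, yp, yI, yJ, hc⟩ := liftK_sound (symC_sound h hk1 hk2) hc
  have M0 := mulE_sound e0 F0 hI hJ
  have M1 := mulE_sound e1 F1 (by rw [← s1.2.1, ← t1.2.1]; exact hI)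
    (by rw [← s1.2.2, ← t1.2.2]; exact hJ)
  have M2 := mulE_sound e2 F2 (by rw [← s2.2.1, ← t2.2.1]; exact hI)
    (by rw [← s2.2.2, ← t2.2.2]; exact hJ)
  have M3 := mulE_sound e3 F3 (by rw [← s3.2.1, ← t3.2.1]; exact hI)
    (by rw [← s3.2.2, ← t3.2.2]; exact hJ)
  have M4 := mulE_sound e4 F4 (by rw [← s4.2.1, ← t4.2.1]; exact hI)
    (by rw [← s4.2.2, ← t4.2.2]; exact hJ)
  have M5 := mulE_sound e5 F5 (by rw [← s5.2.1, ← t5.2.1]; exact hI)
    (by rw [← s5.2.2, ← t5.2.2]; exact hJ)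
  have R1 := addE_sound M0 M1 (show g0.p + f0.p = g1.p + f1.p by rw [s1.1, t1.1])
    (show g0.I + f0.I = g1.I + f1.I by rw [s1.2.1, t1.2.1])
    (show g0.J + f0.J = g1.J + f1.J by rw [s1.2.2, t1.2.2])
  have R2 := addE_sound R1 M2 (show g0.p + f0.p = g2.p + f2.p by rw [s2.1, t2.1])
    (show g0.I + f0.I = g2.I + f2.I by rw [s2.2.1, t2.2.1])
    (show g0.J + f0.J = g2.J + f2.J by rw [s2.2.2, t2.2.2])
  have R3 := addE_sound R2 M3 (show g0.p + f0.p = g3.p + f3.p by rw [s3.1, t3.1])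
    (show g0.I + f0.I = g3.I + f3.I by rw [s3.2.1, t3.2.1])
    (show g0.J + f0.J = g3.J + f3.J by rw [s3.2.2, t3.2.2])
  have R4 := addE_sound R3 M4 (show g0.p + f0.p = g4.p + f4.p by rw [s4.1, t4.1])
    (show g0.I + f0.I = g4.I + f4.I by rw [s4.2.1, t4.2.1])
    (show g0.J + f0.J = g4.J + f4.J by rw [s4.2.2, t4.2.2])
  have R5 := addE_sound R4 M5 (show g0.p + f0.p = g5.p + f5.p by rw [s5.1, t5.1])
    (show g0.I + f0.I = g5.I + f5.I by rw [s5.2.1, t5.2.1])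
    (show g0.J + f0.J = g5.J + f5.J by rw [s5.2.2, t5.2.2])
  have R6 := addE_sound Y (negC_sound R5) yp yI yJ
  rw [forceC_eq] at hc
  have nz := normK_sound hP R6 hc
  have hd' : (0 : ℝ) < d := by exact_mod_cast hd
  have ha' : (0 : ℝ) < an := by exact_mod_cast ha
  have hb' : (0 : ℝ) < bn := by exact_mod_cast hb
  have hs' : (0 : ℝ) < sn := by exact_mod_cast hs
  refine colOK_of_jets (f0 := baseW B 0 0) (f1 := baseW B 1 0) (f2 := baseW B 0 1)
    (f3 := baseW B 2 0) (f4 := baseW B 1 1) (f5 := baseW B 0 2) (div_pos ha' hd')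
    (div_pos hb' hd') (div_pos hs' hd') _ ?_ (isDu_baseW B 0 0) (isDt_baseW B 0 0)
    (isDu_baseW B 1 0) (isDt_baseW B 1 0) (isDt_baseW B 0 1) ?_ ?_
  · have := par_baseW B (by rw [hε]; norm_num) (by rw [hδ]; norm_num)
    rw [hε, hδ, Int.cast_one] at this
    exact this
  · have e1 : ((an : ℝ) / d) • baseW B 2 0 + ((bn : ℝ) / d) • baseW B 0 2
        + ((sn : ℝ) / d) • baseW B 0 0
        = ((d : ℝ)⁻¹) • (((an : ℤ) • baseW B 2 0 + (bn : ℤ) • baseW B 0 2)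
          + (sn : ℤ) • baseW B 0 0) := by
      rw [smul_add, smul_add, ← Int.cast_smul_eq_zsmul ℝ, ← Int.cast_smul_eq_zsmul ℝ,
        ← Int.cast_smul_eq_zsmul ℝ, smul_smul, smul_smul, smul_smul]
      push_cast
      congr 1
      · congr 1
        · congr 1; ring
        · congr 1; ring
      · congr 1; ring
    rw [e1, norm_smul, norm_inv, Real.norm_of_nonneg hd'.le, inv_mul_le_iff₀ hd']
    refine nα.trans (le_of_eq ?_)
    field_simp
  · refine le_trans (le_of_eq ?_) nz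
    congr 1
    rw [sub_eq_add_neg]
    congr 2

theorem colsLoop_sound {P : Par} (h : nu ^ (P.I0 + P.J0) ≤ 1 + 1 / 2 ^ P.k) (hP : P.Ok)
    {G0 G1 G2 G3 G4 G5 : Base} {g0 g1 g2 g3 g4 g5 : Cell}
    (e0 : Enc (algW P h) (baseW G0 0 0) g0) (e1 : Enc (algW P h) (baseW G1 0 0) g1)
    (e2 : Enc (algW P h) (baseW G2 0 0) g2) (e3 : Enc (algW P h) (baseW G3 0 0) g3)
    (e4 : Enc (algW P h) (baseW G4 0 0) g4) (e5 : Enc (algW P h) (baseW G5 0 0) g5)
    (s1 : g0.p = g1.p ∧ g0.I = g1.I ∧ g0.J = g1.J) (s2 : g0.p = g2.p ∧ g0.I = g2.I ∧ g0.J = g2.J)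
    (s3 : g0.p = g3.p ∧ g0.I = g3.I ∧ g0.J = g3.J) (s4 : g0.p = g4.p ∧ g0.I = g4.I ∧ g0.J = g4.J)
    (s5 : g0.p = g5.p ∧ g0.I = g5.I ∧ g0.J = g5.J)
    {an bn sn d zn zq αn αq : ℕ} (ha : 0 < an) (hb : 0 < bn) (hs : 0 < sn) (hd : 0 < d) :
    ∀ l : List (ℕ × ℕ × Base), colsLoop P g0 g1 g2 g3 g4 g5 an bn sn zn zq αn αq l = true →
    ∀ x ∈ l, ColOK ((an : ℝ) / d) ((bn : ℝ) / d) ((sn : ℝ) / d) (gW G0 G1 G2 G3 G4 G5)
      ((αn : ℝ) / 2 ^ αq / d) ((zn : ℝ) / 2 ^ zq) ((x.1 : ℤ), (x.2.1 : ℤ))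
  | [], _, x, hx => absurd hx (by simp)
  | (k1, k2, B) :: l, hc, x, hx => by
    rw [colsLoop, Bool.and_eq_true] at hc
    rcases List.mem_cons.1 hx with rfl | hx
    · exact colChk_sound h hP e0 e1 e2 e3 e4 e5 s1 s2 s3 s4 s5 ha hb hs hd hc.1
    · exact colsLoop_sound h hP e0 e1 e2 e3 e4 e5 s1 s2 s3 s4 s5 ha hb hs hd l hc.2 x hx

theorem par_k (b W' h I0 J0 k : ℕ) : (par b W' h I0 J0 k).k = k := by
  simp only [par, mkPar, forceN_eq, id]
theorem par_I0 (b W' h I0 J0 k : ℕ) : (par b W' h I0 J0 k).I0 = I0 := by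
  simp only [par, mkPar, forceN_eq, id]
theorem par_J0 (b W' h I0 J0 k : ℕ) : (par b W' h I0 J0 k).J0 = J0 := by
  simp only [par, mkPar, forceN_eq, id]

/-- **Columns from one check.** -/
theorem colsChk_sound {b W' h I0 J0 k pG IG JG : ℕ} {G0 G1 G2 G3 G4 G5 : Base}
    {an bn sn d zn zq αn αq : ℕ} (ha : 0 < an) (hb : 0 < bn) (hs : 0 < sn) (hd : 0 < d)
    {l : List (ℕ × ℕ × Base)}
    (hc : colsChk b W' h I0 J0 k pG IG JG G0 G1 G2 G3 G4 G5 an bn sn zn zq αn αq l = true) :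
    ∀ x ∈ l, ColOK ((an : ℝ) / d) ((bn : ℝ) / d) ((sn : ℝ) / d) (gW G0 G1 G2 G3 G4 G5)
      ((αn : ℝ) / 2 ^ αq / d) ((zn : ℝ) / 2 ^ zq) ((x.1 : ℤ), (x.2.1 : ℤ)) := by
  unfold colsChk at hc
  rw [mkPar_eq, Bool.and_eq_true, Bool.and_eq_true, Nat.ble_eq] at hc
  obtain ⟨hnu, hok, hc⟩ := hc
  have hP := Par.ok_iff _ hok
  have hn : nu ^ ((par b W' h I0 J0 k).I0 + (par b W' h I0 J0 k).J0)
      ≤ 1 + 1 / 2 ^ (par b W' h I0 J0 k).k := by
    rw [par_k, par_I0, par_J0]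
    exact D3.nu_pow_le hnu
  obtain ⟨g0, E0, hc⟩ := tabK_sound hn hP hc
  obtain ⟨g1, E1, hc⟩ := tabK_sound hn hP hc
  obtain ⟨g2, E2, hc⟩ := tabK_sound hn hP hc
  obtain ⟨g3, E3, hc⟩ := tabK_sound hn hP hc
  obtain ⟨g4, E4, hc⟩ := tabK_sound hn hP hc
  obtain ⟨g5, E5, hc⟩ := tabK_sound hn hP hc
  obtain ⟨g0, E0, p0, i0, j0, hc⟩ := liftK_sound E0 hc
  obtain ⟨g1, E1, p1, i1, j1, hc⟩ := liftK_sound E1 hc
  obtain ⟨g2, E2, p2, i2, j2, hc⟩ := liftK_sound E2 hc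
  obtain ⟨g3, E3, p3, i3, j3, hc⟩ := liftK_sound E3 hc
  obtain ⟨g4, E4, p4, i4, j4, hc⟩ := liftK_sound E4 hc
  obtain ⟨g5, E5, p5, i5, j5, hc⟩ := liftK_sound E5 hc
  simp only [Bool.and_eq_true, same_iff] at hc
  obtain ⟨⟨⟨⟨⟨s1, s2⟩, s3⟩, s4⟩, s5⟩, hc⟩ := hc
  exact colsLoop_sound hn hP E0 E1 E2 E3 E4 E5 s1 s2 s3 s4 s5 ha hb hs hd l hc

/-- **The norms for the tail from one check.** -/
theorem tailChk_sound {b W' h I0 J0 k : ℕ} {G0 G1 G2 G3 G4 G5 : Base}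
    {an bn d q nG nH n0 n1 n2 n4 : ℕ} (ha : 0 < an) (hb : 0 < bn) (hd : 0 < d)
    (hc : tailChk b W' h I0 J0 k G0 G1 G2 G3 G4 G5 an bn d q nG nH n0 n1 n2 n4 = true) :
    ‖(1 / (2 * ((an : ℝ) / d))) • gW G0 G1 G2 G3 G4 G5 3
      - (1 / (2 * ((bn : ℝ) / d))) • gW G0 G1 G2 G3 G4 G5 5‖
        ≤ (d : ℝ) * nG / 2 ^ q / (2 * an * bn) ∧
    ‖(1 / (2 * ((an : ℝ) / d))) • gW G0 G1 G2 G3 G4 G5 3
      + (1 / (2 * ((bn : ℝ) / d))) • gW G0 G1 G2 G3 G4 G5 5 - 1‖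
        ≤ (nH : ℝ) / 2 ^ q / (2 * an * bn) ∧
    ‖gW G0 G1 G2 G3 G4 G5 0‖ ≤ (n0 : ℝ) / 2 ^ q ∧ ‖gW G0 G1 G2 G3 G4 G5 1‖ ≤ (n1 : ℝ) / 2 ^ q ∧
    ‖gW G0 G1 G2 G3 G4 G5 2‖ ≤ (n2 : ℝ) / 2 ^ q ∧ ‖gW G0 G1 G2 G3 G4 G5 4‖ ≤ (n4 : ℝ) / 2 ^ q := by
  unfold tailChk at hc
  rw [mkPar_eq, Bool.and_eq_true, Bool.and_eq_true, Nat.ble_eq] at hc
  obtain ⟨hnu, hok, hc⟩ := hc
  have hP := Par.ok_iff _ hok
  have hn : nu ^ ((par b W' h I0 J0 k).I0 + (par b W' h I0 J0 k).J0)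
      ≤ 1 + 1 / 2 ^ (par b W' h I0 J0 k).k := by
    rw [par_k, par_I0, par_J0]
    exact D3.nu_pow_le hnu
  obtain ⟨g0, E0, hc⟩ := tabK_sound hn hP hc
  rw [Bool.and_eq_true] at hc
  obtain ⟨h0, hc⟩ := hc
  obtain ⟨g1, E1, hc⟩ := tabK_sound hn hP hc
  rw [Bool.and_eq_true] at hc
  obtain ⟨h1, hc⟩ := hc
  obtain ⟨g2, E2, hc⟩ := tabK_sound hn hP hc
  rw [Bool.and_eq_true] at hc
  obtain ⟨h2, hc⟩ := hc
  obtain ⟨g4, E4, hc⟩ := tabK_sound hn hP hc
  rw [Bool.and_eq_true] at hc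
  obtain ⟨h4, hc⟩ := hc
  obtain ⟨g3, E3, hc⟩ := tabK_sound hn hP hc
  obtain ⟨g5, E5, hc⟩ := tabK_sound hn hP hc
  obtain ⟨y1, Y1, hc⟩ := addK_sound (smulC_sound E3) (negC_sound (smulC_sound E5)) hc
  rw [Bool.and_eq_true] at hc
  obtain ⟨hG, hc⟩ := hc
  obtain ⟨y2, Y2, hc⟩ := addK_sound (smulC_sound E3) (smulC_sound E5) hc
  obtain ⟨y3, Y3, hc⟩ := addK_sound (smulC_sound Y2) (negC_sound (cstC_sound _ _)) hc
  have a0 := normK_sound hP E0 h0
  have a1 := normK_sound hP E1 h1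
  have a2 := normK_sound hP E2 h2
  have a4 := normK_sound hP E4 h4
  have aG := normK_sound hP Y1 hG
  have aH := normK_sound hP Y3 hc
  have hd' : (0 : ℝ) < d := by exact_mod_cast hd
  have ha' : (0 : ℝ) < an := by exact_mod_cast ha
  have hb' : (0 : ℝ) < bn := by exact_mod_cast hb
  have hab : (0 : ℝ) < 2 * an * bn := by positivity
  refine ⟨?_, ?_, a0, a1, a2, a4⟩
  · have e1 : (1 / (2 * ((an : ℝ) / d))) • gW G0 G1 G2 G3 G4 G5 3
        - (1 / (2 * ((bn : ℝ) / d))) • gW G0 G1 G2 G3 G4 G5 5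
        = ((d : ℝ) / (2 * an * bn)) • (((bn : ℤ) • baseW G3 0 0) + -((an : ℤ) • baseW G5 0 0)) := by
      show (1 / (2 * ((an : ℝ) / d))) • baseW G3 0 0 - (1 / (2 * ((bn : ℝ) / d))) • baseW G5 0 0 = _
      rw [← Int.cast_smul_eq_zsmul ℝ, ← Int.cast_smul_eq_zsmul ℝ, smul_add, smul_neg, smul_smul,
        smul_smul, ← sub_eq_add_neg]
      push_cast
      congr 1
      · congr 1; field_simp
      · congr 1; field_simp
    rw [e1, norm_smul, Real.norm_of_nonneg (by positivity)]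
    calc (d : ℝ) / (2 * an * bn) * ‖_‖ ≤ (d : ℝ) / (2 * an * bn) * (nG / 2 ^ q) :=
          mul_le_mul_of_nonneg_left aG (by positivity)
      _ = _ := by field_simp
  · have e1 : (1 / (2 * ((an : ℝ) / d))) • gW G0 G1 G2 G3 G4 G5 3
        + (1 / (2 * ((bn : ℝ) / d))) • gW G0 G1 G2 G3 G4 G5 5 - 1
        = ((1 : ℝ) / (2 * an * bn)) • ((d : ℤ) • (((bn : ℤ) • baseW G3 0 0)
          + ((an : ℤ) • baseW G5 0 0)) + -(((2 * an * bn : ℕ) : ℤ) : W)) := by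
      show (1 / (2 * ((an : ℝ) / d))) • baseW G3 0 0 + (1 / (2 * ((bn : ℝ) / d))) • baseW G5 0 0 - 1
        = _
      have e2 : ((((2 * an * bn : ℕ) : ℤ) : W)) = ((2 * an * bn : ℝ)) • (1 : W) := by
        rw [← Algebra.algebraMap_eq_smul_one, map_mul, map_mul, map_natCast, map_natCast, map_ofNat]
        push_cast
        rfl
      rw [e2, ← Int.cast_smul_eq_zsmul ℝ, ← Int.cast_smul_eq_zsmul ℝ, ← Int.cast_smul_eq_zsmul ℝ,
        smul_add, smul_neg, smul_smul, smul_add, smul_smul, smul_smul, smul_smul,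
        ← sub_eq_add_neg]
      push_cast
      have e3 : 1 / (2 * (an : ℝ) * bn) * (2 * an * bn) = 1 := by field_simp
      rw [e3, one_smul]
      congr 1
      congr 1
      · congr 1; field_simp
      · congr 1; field_simp
    rw [e1, norm_smul, Real.norm_of_nonneg (by positivity)]
    calc (1 : ℝ) / (2 * an * bn) * ‖_‖ ≤ (1 : ℝ) / (2 * an * bn) * (nH / 2 ^ q) :=
          mul_le_mul_of_nonneg_left aH (by positivity)
      _ = _ := by field_simp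

end

end Pool.MP_ce2c94_gt
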