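import Pool.Agent.H.MP_ce2c94_gt.D3.ExistR

set_option autoImplicit false

/-!
# The finite set of modes whose columns are checked one by one
-/

namespace Pool.MP_ce2c94_gt.D3E

/-- Every pair with `an j ^ 2 + bn m ^ 2 < kn` is in the list. -/
def coverChk (an bn kn J M : ℕ) (l : List (ℕ × ℕ)) : Bool :=
  Nat.ble kn (an * (J * J)) && Nat.ble kn (bn * (M * M)) &&
    (List.range J).all fun j => (List.range M).all fun m =>
      Nat.ble kn (an * (j * j) + bn * (m * m)) || l.any fun x => Nat.beq x.1 j && Nat.beq x.2 m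

theorem coverChk_sound {an bn kn J M : ℕ} {l : List (ℕ × ℕ)} (h : coverChk an bn kn J M l = true)
    (j m : ℕ) (hjm : an * (j * j) + bn * (m * m) < kn) : (j, m) ∈ l := by
  simp only [coverChk, Bool.and_eq_true, Bool.or_eq_true, List.all_eq_true, List.any_eq_true,
    List.mem_range, Nat.ble_eq] at h
  obtain ⟨⟨hJ, hM⟩, hl⟩ := h
  have h1 : j < J := by
    by_contra hc
    push Not at hc
    have := Nat.mul_le_mul_left an (Nat.mul_le_mul hc hc)
    omega
  have h2 : m < M := by
    by_contra hc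
    push Not at hc
    have := Nat.mul_le_mul_left bn (Nat.mul_le_mul hc hc)
    omega
  rcases hl j h1 m h2 with h3 | ⟨x, hx, h4, h5⟩
  · omega
  · have : x = (j, m) := Prod.ext (Nat.eq_of_beq_eq_true h4) (Nat.eq_of_beq_eq_true h5)
    rwa [← this]

/-- The columns from a list, `a = an / d`, `b = bn / d`, `K ^ 2 ≤ kn / d`. -/
theorem cols_of_cover {an bn kn J M d : ℕ} {l : List (ℕ × ℕ)}
    (h : coverChk an bn kn J M l = true) (hd : 0 < d) {a b K : ℝ} (ha : a = an / d)
    (hb : b = bn / d) (hK : K ^ 2 ≤ kn / d) {Q : ℤ × ℤ → Prop}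
    (hl : ∀ x ∈ l, Q ((x.1 : ℤ), (x.2 : ℤ))) (j m : ℕ)
    (hjm : a * (j : ℝ) ^ 2 + b * (m : ℝ) ^ 2 < K ^ 2) : Q ((j : ℤ), (m : ℤ)) := by
  refine hl (j, m) (coverChk_sound h j m ?_)
  have hd' : (0 : ℝ) < d := by exact_mod_cast hd
  have h1 := hjm.trans_le hK
  rw [ha, hb, div_mul_eq_mul_div, div_mul_eq_mul_div, ← add_div, div_lt_div_iff_of_pos_right hd']
    at h1
  have h2 : ((an * (j * j) + bn * (m * m) : ℕ) : ℝ) < (kn : ℕ) := by
    push_cast
    linarith
  exact_mod_cast h2

example : coverChk 23 180 12500 24 9 ((List.range 24).flatMap fun j =>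
    (List.range 9).map fun m => (j, m)) = true := by decide +kernel

end Pool.MP_ce2c94_gt.D3E
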