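import Pool.Agent.H.MP_ce2c94_gt.D3.DCell
import Pool.Agent.H.MP_ce2c94_gt.D3Hat

set_option autoImplicit false

/-!
# The background and the nonlinear map in dual cells

`bgT k s C V` is the background of `D3.Spec` given by the jets of the components of `C` and `V`.
`evalBg` computes dual cells of all the leaves and nodes of `D3.Eqn` from tables.
-/

namespace Pool.MP_ce2c94_gt.D3C

open Pool.Agent.H.MP_ce2c94_gt.h46 Pool.MP_ce2c94_gt.W93 Pool.MP_ce2c94_gt.D3S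
open D3 (HJet)

section bg

variable {W : Type*} [CommRing W]

/-- `Dj`, `D2` and the second derivatives of a formal vector -/
structure T6 (W : Type*) where
  f : Fin 3 → W
  u : Fin 3 → W
  v : Fin 3 → W
  uu : Fin 3 → W
  uv : Fin 3 → W
  vv : Fin 3 → W

/-- the derivatives of a formal vector from the jets of its components -/
def t6 (k : W) (a b c : HJet W) : T6 W where
  f := ![a.f, b.f, c.f]
  u := ![a.fu, b.fu, c.fu]
  v := ![k * a.ft + b.f, k * b.ft + a.f, k * c.ft]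
  uu := ![a.fuu, b.fuu, c.fuu]
  uv := ![k * a.fut + b.fu, k * b.fut + a.fu, k * c.fut]
  vv := ![k * (k * a.ftt + b.ft) + (k * b.ft + a.f), k * (k * b.ftt + a.ft) + (k * a.ft + b.f),
    k * (k * c.ftt)]

/-- the background given by two formal vectors with their derivatives -/
def bgT (k s : W) (C V : T6 W) : Bg W where
  k := k
  s := s
  C := C.f
  A := C.u
  B := C.v
  p := C.uu
  q := C.uv
  w := C.vv
  V := V.f
  Vj := V.u
  V2 := V.v
  Vjj := V.uu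
  Vj2 := V.uv
  V22 := V.vv

end bg

/-! ### kernel functions -/

/-- the cells of a jet -/
structure JC where
  f : OC
  fu : OC
  ft : OC
  fuu : OC
  fut : OC
  ftt : OC

/-- unknown jet -/
def JC.unk : JC := ⟨.u, .u, .u, .u, .u, .u⟩

/-- a derivative of a table, rounded -/
def ldO (P : Par) (r : Rd) (B : Base) (a c : ℕ) : Option OC :=
  match tabC P B.w a c B.I B.J B.ε B.δ B.p B.N with
  | some x => forceC x fun x => rndO P r (.c x)
  | none => none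

/-- the jet of a table, rounded -/
def ldJ {β : Type*} (P : Par) (r : Rd) (B : Base) (K : JC → Option β) : Option β :=
  bnd (ldO P r B 0 0) fun f => bnd (ldO P r B 1 0) fun fu => bnd (ldO P r B 0 1) fun ft =>
  bnd (ldO P r B 2 0) fun fuu => bnd (ldO P r B 1 1) fun fut => bnd (ldO P r B 0 2) fun ftt =>
  K ⟨f, fu, ft, fuu, fut, ftt⟩

/-- three cells -/
structure C3 where
  x : OC
  y : OC
  z : OC

/-- six vectors of cells -/
structure C6 where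
  f : C3
  u : C3
  v : C3
  uu : C3
  uv : C3
  vv : C3

/-- `k a + b`, rounded -/
def lcO (P : Par) (r : Rd) (k : ℤ) (a b : OC) : Option OC :=
  bnd (addO P (smulO k a) b) fun x => rndO P r x

/-- the cells of `t6` -/
def c6 {β : Type*} (P : Par) (r : Rd) (k : ℤ) (a b c : JC) (K : C6 → Option β) : Option β :=
  bnd (lcO P r k a.ft b.f) fun v0 => bnd (lcO P r k b.ft a.f) fun v1 =>
  bnd (rndO P r (smulO k c.ft)) fun v2 =>
  bnd (lcO P r k a.fut b.fu) fun q0 => bnd (lcO P r k b.fut a.fu) fun q1 =>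
  bnd (rndO P r (smulO k c.fut)) fun q2 =>
  bnd (addO P (smulO k a.ftt) b.ft) fun w0 => bnd (lcO P r k w0 v1) fun w0 =>
  bnd (addO P (smulO k b.ftt) a.ft) fun w1 => bnd (lcO P r k w1 v0) fun w1 =>
  bnd (rndO P r (smulO k (smulO k c.ftt))) fun w2 =>
  K ⟨⟨a.f, b.f, c.f⟩, ⟨a.fu, b.fu, c.fu⟩, ⟨v0, v1, v2⟩, ⟨a.fuu, b.fuu, c.fuu⟩, ⟨q0, q1, q2⟩,
    ⟨w0, w1, w2⟩⟩

/-- products with `s`, rounded -/
def sO3 {β : Type*} (P : Par) (r : Rd) (s : OC) (a : C3) (K : C3 → Option β) : Option β :=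
  bnd (bnd (mulO P s a.x) fun x => rndO P r x) fun x =>
  bnd (bnd (mulO P s a.y) fun x => rndO P r x) fun y =>
  bnd (bnd (mulO P s a.z) fun x => rndO P r x) fun z => K ⟨x, y, z⟩

/-- products with `s`, rounded -/
def sO6 {β : Type*} (P : Par) (r : Rd) (s : OC) (a : C6) (K : C6 → Option β) : Option β :=
  sO3 P r s a.f fun f => sO3 P r s a.u fun u => sO3 P r s a.v fun v => sO3 P r s a.uu fun uu =>
  sO3 P r s a.uv fun uv => sO3 P r s a.vv fun vv => K ⟨f, u, v, uu, uv, vv⟩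

/-- the leaves -/
structure LV where
  C : DV
  B : DV
  a : DV
  b : DV
  p : DV
  q : DV
  w : DV

/-- evaluates a multiple -/
def sme {β : Type*} (n : ℤ) (a : OC) (K : OC → Option β) : Option β := bnd (some (smulO n a)) K

/-- evaluates multiples of three cells -/
def sme3 {β : Type*} (n : ℤ) (a : C3) (K : C3 → Option β) : Option β :=
  sme n a.x fun x => sme n a.y fun y => sme n a.z fun z => K ⟨x, y, z⟩

/-- a vector of dual cells from vectors of cells -/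
def dvOf (v d0 d1 d2 d3 d4 d5 : C3) : DV :=
  ⟨⟨v.x, d0.x, d1.x, d2.x, d3.x, d4.x, d5.x⟩, ⟨v.y, d0.y, d1.y, d2.y, d3.y, d4.y, d5.y⟩,
    ⟨v.z, d0.z, d1.z, d2.z, d3.z, d4.z, d5.z⟩⟩

/-- the zero vector -/
def z3 : C3 := ⟨.z, .z, .z⟩

/-- the leaves from the cells of `C`, `s C`, `V`, `s V` -/
def leaves {β : Type*} (k : ℤ) (C sC V sV : C6) (K : LV → Option β) : Option β :=
  sme3 k V.f fun kV => sme3 k sV.f fun ksV => sme3 2 sV.u fun sVu2 => sme3 k sV.u fun ksVu =>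
  sme3 (2 * k) sV.v fun ksVv2 => sme3 (k * k) sV.f fun kksV =>
  K ⟨dvOf C.f V.f z3 z3 z3 z3 z3, dvOf C.v V.v z3 kV z3 z3 z3, dvOf sC.u sV.u sV.f z3 z3 z3 z3,
    dvOf sC.v sV.v z3 ksV z3 z3 z3, dvOf sC.uu sV.uu sVu2 z3 sV.f z3 z3,
    dvOf sC.uv sV.uv sV.v ksVu z3 ksV z3, dvOf sC.vv sV.vv z3 ksVv2 z3 z3 kksV⟩

/-- the nodes -/
structure NV where
  ebb : DC
  eab : DC
  eaa : DC
  ebB : DC
  eaB : DC
  g : DC
  n : DV
  T : DV

/-- the nodes from the leaves -/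
def nodes {β : Type*} (P : Par) (r r' : Rd) (L : LV) (K : NV → Option β) : Option β :=
  etaD P r r' L.b L.b fun ebb => etaD P r r' L.a L.b fun eab => etaD P r r' L.a L.a fun eaa =>
  etaD P r r' L.b L.B fun ebB => etaD P r r' L.a L.B fun eaB =>
  detD P r r' eaa ebB eab eaB fun g => crsD P r r' L.a L.b fun n =>
  TiD P r r' ebb eab eaa g L.C.x L.p.x L.q.x L.w.x fun T0 =>
  TiD P r r' ebb eab eaa g L.C.y L.p.y L.q.y L.w.y fun T1 =>
  TiD P r r' ebb eab eaa g L.C.z L.p.z L.q.z L.w.z fun T2 =>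
  K ⟨ebb, eab, eaa, ebB, eaB, g, n, ⟨T0, T1, T2⟩⟩

/-- leaves and nodes from the tables: `k`, `s`, three components of `C` and of `V` -/
def evalBg {β : Type*} (P : Par) (r r' : Rd) (k : ℤ) (bs b0 b1 b2 v0 v1 v2 : Base)
    (K : LV → NV → Option β) : Option β :=
  bnd (ldO P r bs 0 0) fun s => ldJ P r b0 fun a => ldJ P r b1 fun b => ldJ P r b2 fun c =>
  c6 P r k a b c fun C => sO6 P r s C fun sC =>
  ldJ P r' v0 fun a => ldJ P r' v1 fun b => ldJ P r' v2 fun c =>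
  c6 P r' k a b c fun V => sO6 P r' s V fun sV =>
  leaves k C sC V sV fun L => nodes P r r' L fun N => K L N

/-- values only -/
def evalVal {β : Type*} (P : Par) (r : Rd) (k : ℤ) (bs b0 b1 b2 : Base)
    (K : LV → NV → Option β) : Option β :=
  bnd (ldO P r bs 0 0) fun s => ldJ P r b0 fun a => ldJ P r b1 fun b => ldJ P r b2 fun c =>
  c6 P r k a b c fun C => sO6 P r s C fun sC =>
  c6 P r k .unk .unk .unk fun V => sO6 P r s V fun sV =>
  leaves k C sC V sV fun L => nodes P r r L fun N => K L N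

/-! ### soundness -/

section
variable {P : Par} {W : Type*} [NormedCommRing W] [NormedAlgebra ℝ W] {A : Alg P W}

/-- enclosure of a jet -/
structure EncJ (A : Alg P W) (h : HJet W) (x : JC) : Prop where
  f : EncO A h.f x.f
  fu : EncO A h.fu x.fu
  ft : EncO A h.ft x.ft
  fuu : EncO A h.fuu x.fuu
  fut : EncO A h.fut x.fut
  ftt : EncO A h.ftt x.ftt

theorem EncJ.unk (h : HJet W) : EncJ A h .unk := ⟨trivial, trivial, trivial, trivial, trivial, trivial⟩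

/-- the jet of a table -/
noncomputable def jetW (A : Alg P W) (B : Base) : HJet W where
  f := tabW A B.w 0 0 B.I B.J B.ε B.δ B.p B.N
  fu := tabW A B.w 1 0 B.I B.J B.ε B.δ B.p B.N
  ft := tabW A B.w 0 1 B.I B.J B.ε B.δ B.p B.N
  fuu := tabW A B.w 2 0 B.I B.J B.ε B.δ B.p B.N
  fut := tabW A B.w 1 1 B.I B.J B.ε B.δ B.p B.N
  ftt := tabW A B.w 0 2 B.I B.J B.ε B.δ B.p B.N

theorem ldO_sound (hP : P.Ok) {r : Rd} {B : Base} {a c : ℕ} {x : OC}
    (h : ldO P r B a c = some x) : EncO A (tabW A B.w a c B.I B.J B.ε B.δ B.p B.N) x := by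
  unfold ldO at h
  split at h
  · rename_i y hy
    rw [forceC_eq] at h
    exact rndO_sound hP (a := .c y) (tabC_sound A hy) h
  · exact absurd h (by simp)

variable {β : Type*} {z : β}

theorem ldJ_sound (hP : P.Ok) {r : Rd} {B : Base} {K : JC → Option β}
    (h : ldJ P r B K = some z) : ∃ x, EncJ A (jetW A B) x ∧ K x = some z := by
  obtain ⟨_, h0, h⟩ := bnd_eq h
  obtain ⟨_, h1, h⟩ := bnd_eq h
  obtain ⟨_, h2, h⟩ := bnd_eq h
  obtain ⟨_, h3, h⟩ := bnd_eq h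
  obtain ⟨_, h4, h⟩ := bnd_eq h
  obtain ⟨_, h5, h⟩ := bnd_eq h
  exact ⟨_, ⟨ldO_sound hP h0, ldO_sound hP h1, ldO_sound hP h2, ldO_sound hP h3,
    ldO_sound hP h4, ldO_sound hP h5⟩, h⟩

/-- enclosure of a vector -/
structure EncC3 (A : Alg P W) (v : Fin 3 → W) (c : C3) : Prop where
  x : EncO A (v 0) c.x
  y : EncO A (v 1) c.y
  z : EncO A (v 2) c.z

/-- enclosure of six vectors -/
structure EncC6 (A : Alg P W) (h : T6 W) (c : C6) : Prop where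
  f : EncC3 A h.f c.f
  u : EncC3 A h.u c.u
  v : EncC3 A h.v c.v
  uu : EncC3 A h.uu c.uu
  uv : EncC3 A h.uv c.uv
  vv : EncC3 A h.vv c.vv

theorem smulO_mul {n : ℤ} {k : W} (hk : k = n) {a : OC} {x : W} (ha : EncO A x a) :
    EncO A (k * x) (smulO n a) := by
  have h := smulO_sound (n := n) ha
  rwa [zsmul_eq_mul, ← hk] at h

theorem lcO_sound (hP : P.Ok) {r : Rd} {n : ℤ} {k : W} (hk : k = n) {a b c : OC} {x y : W}
    (ha : EncO A x a) (hb : EncO A y b) (h : lcO P r n a b = some c) :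
    EncO A (k * x + y) c := by
  obtain ⟨e, he, h⟩ := bnd_eq h
  exact rndO_sound hP (addO_sound (smulO_mul hk ha) hb he) h

theorem c6_sound (hP : P.Ok) {r : Rd} {n : ℤ} {k : W} (hk : k = n) {a b c : HJet W}
    {a' b' c' : JC} (ha : EncJ A a a') (hb : EncJ A b b') (hc : EncJ A c c')
    {K : C6 → Option β} (h : c6 P r n a' b' c' K = some z) :
    ∃ x, EncC6 A (t6 k a b c) x ∧ K x = some z := by
  obtain ⟨v0, e0, h⟩ := bnd_eq h
  obtain ⟨v1, e1, h⟩ := bnd_eq h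
  obtain ⟨v2, e2, h⟩ := bnd_eq h
  obtain ⟨q0, e3, h⟩ := bnd_eq h
  obtain ⟨q1, e4, h⟩ := bnd_eq h
  obtain ⟨q2, e5, h⟩ := bnd_eq h
  obtain ⟨w0, e6, h⟩ := bnd_eq h
  obtain ⟨w0', e7, h⟩ := bnd_eq h
  obtain ⟨w1, e8, h⟩ := bnd_eq h
  obtain ⟨w1', e9, h⟩ := bnd_eq h
  obtain ⟨w2, e10, h⟩ := bnd_eq h
  have f0 := lcO_sound hP hk ha.ft hb.f e0
  have f1 := lcO_sound hP hk hb.ft ha.f e1
  refine ⟨⟨⟨a'.f, b'.f, c'.f⟩, ⟨a'.fu, b'.fu, c'.fu⟩, ⟨v0, v1, v2⟩, ⟨a'.fuu, b'.fuu, c'.fuu⟩,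
    ⟨q0, q1, q2⟩, ⟨w0', w1', w2⟩⟩, ?_, h⟩
  constructor
  · exact ⟨ha.f, hb.f, hc.f⟩
  · exact ⟨ha.fu, hb.fu, hc.fu⟩
  · exact ⟨f0, f1, rndO_sound hP (smulO_mul hk hc.ft) e2⟩
  · exact ⟨ha.fuu, hb.fuu, hc.fuu⟩
  · exact ⟨lcO_sound hP hk ha.fut hb.fu e3, lcO_sound hP hk hb.fut ha.fu e4,
      rndO_sound hP (smulO_mul hk hc.fut) e5⟩
  · exact ⟨lcO_sound hP hk (addO_sound (smulO_mul hk ha.ftt) hb.ft e6) f1 e7,
      lcO_sound hP hk (addO_sound (smulO_mul hk hb.ftt) ha.ft e8) f0 e9,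
      rndO_sound hP (smulO_mul hk (smulO_mul hk hc.ftt)) e10⟩

theorem sO3_sound (hP : P.Ok) {r : Rd} {s : W} {s' : OC} (hs : EncO A s s') {a : Fin 3 → W}
    {a' : C3} (ha : EncC3 A a a') {K : C3 → Option β} (h : sO3 P r s' a' K = some z) :
    ∃ x, EncC3 A (fun i => s * a i) x ∧ K x = some z := by
  obtain ⟨x, ex, h⟩ := bnd_eq h
  obtain ⟨x', ex', ex⟩ := bnd_eq ex
  obtain ⟨y, ey, h⟩ := bnd_eq h
  obtain ⟨y', ey', ey⟩ := bnd_eq ey
  obtain ⟨w, ew, h⟩ := bnd_eq h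
  obtain ⟨w', ew', ew⟩ := bnd_eq ew
  exact ⟨_, ⟨rndO_sound hP (mulO_sound hs ha.x ex') ex, rndO_sound hP (mulO_sound hs ha.y ey') ey,
    rndO_sound hP (mulO_sound hs ha.z ew') ew⟩, h⟩

/-- multiplication of all the vectors by `s` -/
def T6.sm (s : W) (a : T6 W) : T6 W where
  f := fun i => s * a.f i
  u := fun i => s * a.u i
  v := fun i => s * a.v i
  uu := fun i => s * a.uu i
  uv := fun i => s * a.uv i
  vv := fun i => s * a.vv i

theorem sO6_sound (hP : P.Ok) {r : Rd} {s : W} {s' : OC} (hs : EncO A s s') {a : T6 W}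
    {a' : C6} (ha : EncC6 A a a') {K : C6 → Option β} (h : sO6 P r s' a' K = some z) :
    ∃ x, EncC6 A (a.sm s) x ∧ K x = some z := by
  obtain ⟨x1, h1, h⟩ := sO3_sound hP hs ha.f h
  obtain ⟨x2, h2, h⟩ := sO3_sound hP hs ha.u h
  obtain ⟨x3, h3, h⟩ := sO3_sound hP hs ha.v h
  obtain ⟨x4, h4, h⟩ := sO3_sound hP hs ha.uu h
  obtain ⟨x5, h5, h⟩ := sO3_sound hP hs ha.uv h
  obtain ⟨x6, h6, h⟩ := sO3_sound hP hs ha.vv h
  exact ⟨⟨x1, x2, x3, x4, x5, x6⟩, ⟨h1, h2, h3, h4, h5, h6⟩, h⟩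

theorem sme3_sound {n : ℤ} {a : Fin 3 → W} {a' : C3} (ha : EncC3 A a a') {K : C3 → Option β}
    (h : sme3 n a' K = some z) : ∃ x, EncC3 A (fun i => (n : W) * a i) x ∧ K x = some z := by
  unfold sme3 sme at h
  obtain ⟨x, ex, h⟩ := bnd_eq h
  obtain ⟨y, ey, h⟩ := bnd_eq h
  obtain ⟨w, ew, h⟩ := bnd_eq h
  rw [Option.some.injEq] at ex ey ew
  refine ⟨⟨x, y, w⟩, ⟨?_, ?_, ?_⟩, h⟩
  · rw [← ex]
    exact smulO_mul rfl ha.x
  · rw [← ey]
    exact smulO_mul rfl ha.y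
  · rw [← ew]
    exact smulO_mul rfl ha.z

theorem EncC3.congr {a b : Fin 3 → W} {x : C3} (h : EncC3 A a x) (hab : ∀ i, b i = a i) :
    EncC3 A b x := by
  have : b = a := funext hab
  rwa [this]

/-- enclosure of the leaves -/
structure EncL (A : Alg P W) (β : Bg W) (L : LV) : Prop where
  C : EncV A β.dC L.C
  B : EncV A β.dB L.B
  a : EncV A β.da L.a
  b : EncV A β.db L.b
  p : EncV A β.dp L.p
  q : EncV A β.dq L.q
  w : EncV A β.dw L.w

theorem EncV.of {δ : Fin 3 → Du W (Fin 6)} {v e0 e1 e2 e3 e4 e5 : Fin 3 → W}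
    {v' f0 f1 f2 f3 f4 f5 : C3} (hv : EncC3 A v v') (h0 : EncC3 A e0 f0) (h1 : EncC3 A e1 f1)
    (h2 : EncC3 A e2 f2) (h3 : EncC3 A e3 f3) (h4 : EncC3 A e4 f4) (h5 : EncC3 A e5 f5)
    (g : ∀ i, (δ i).v = v i) (g0 : ∀ i, (δ i).d 0 = e0 i) (g1 : ∀ i, (δ i).d 1 = e1 i)
    (g2 : ∀ i, (δ i).d 2 = e2 i) (g3 : ∀ i, (δ i).d 3 = e3 i) (g4 : ∀ i, (δ i).d 4 = e4 i)
    (g5 : ∀ i, (δ i).d 5 = e5 i) : EncV A δ (dvOf v' f0 f1 f2 f3 f4 f5) := by
  constructor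
  · exact ⟨by rw [g]; exact hv.x, by rw [g0]; exact h0.x, by rw [g1]; exact h1.x,
      by rw [g2]; exact h2.x, by rw [g3]; exact h3.x, by rw [g4]; exact h4.x,
      by rw [g5]; exact h5.x⟩
  · exact ⟨by rw [g]; exact hv.y, by rw [g0]; exact h0.y, by rw [g1]; exact h1.y,
      by rw [g2]; exact h2.y, by rw [g3]; exact h3.y, by rw [g4]; exact h4.y,
      by rw [g5]; exact h5.y⟩
  · exact ⟨by rw [g]; exact hv.z, by rw [g0]; exact h0.z, by rw [g1]; exact h1.z,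
      by rw [g2]; exact h2.z, by rw [g3]; exact h3.z, by rw [g4]; exact h4.z,
      by rw [g5]; exact h5.z⟩

theorem enc_z3 : EncC3 A (fun _ => (0 : W)) z3 := ⟨rfl, rfl, rfl⟩

theorem leaves_sound {n : ℤ} {k s : W} (hk : k = n) {C V : T6 W} {C' sC' V' sV' : C6}
    (hC : EncC6 A C C') (hsC : EncC6 A (C.sm s) sC') (hV : EncC6 A V V')
    (hsV : EncC6 A (V.sm s) sV') {K : LV → Option β} (h : leaves n C' sC' V' sV' K = some z) :
    ∃ L, EncL A (bgT k s C V) L ∧ K L = some z := by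
  obtain ⟨kV, e1, h⟩ := sme3_sound hV.f h
  obtain ⟨ksV, e2, h⟩ := sme3_sound hsV.f h
  obtain ⟨sVu2, e3, h⟩ := sme3_sound hsV.u h
  obtain ⟨ksVu, e4, h⟩ := sme3_sound hsV.u h
  obtain ⟨ksVv2, e5, h⟩ := sme3_sound hsV.v h
  obtain ⟨kksV, e6, h⟩ := sme3_sound hsV.f h
  subst hk
  refine ⟨_, ⟨?_, ?_, ?_, ?_, ?_, ?_, ?_⟩, h⟩
  · exact EncV.of hC.f hV.f enc_z3 enc_z3 enc_z3 enc_z3 enc_z3 (fun _ => rfl) (fun _ => rfl)
      (fun _ => rfl) (fun _ => rfl) (fun _ => rfl) (fun _ => rfl) (fun _ => rfl)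
  · exact EncV.of hC.v hV.v enc_z3 e1 enc_z3 enc_z3 enc_z3 (fun _ => rfl) (fun _ => rfl)
      (fun _ => rfl) (fun _ => rfl) (fun _ => rfl) (fun _ => rfl) (fun _ => rfl)
  · exact EncV.of hsC.u hsV.u hsV.f enc_z3 enc_z3 enc_z3 enc_z3 (fun _ => rfl) (fun _ => rfl)
      (fun _ => rfl) (fun _ => rfl) (fun _ => rfl) (fun _ => rfl) (fun _ => rfl)
  · refine EncV.of hsC.v hsV.v enc_z3 e2 enc_z3 enc_z3 enc_z3 (fun _ => rfl) (fun _ => rfl)
      (fun _ => rfl) (fun i => ?_) (fun _ => rfl) (fun _ => rfl) (fun _ => rfl)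
    change s * ((n : W) * V.f i) = (n : W) * (s * V.f i)
    ring
  · refine EncV.of hsC.uu hsV.uu e3 enc_z3 hsV.f enc_z3 enc_z3 (fun _ => rfl) (fun _ => rfl)
      (fun i => ?_) (fun _ => rfl) (fun _ => rfl) (fun _ => rfl) (fun _ => rfl)
    change s * (2 * V.u i) = ((2 : ℤ) : W) * (s * V.u i)
    push_cast
    ring
  · refine EncV.of hsC.uv hsV.uv hsV.v e4 enc_z3 e2 enc_z3 (fun _ => rfl) (fun _ => rfl)
      (fun _ => rfl) (fun i => ?_) (fun _ => rfl) (fun i => ?_) (fun _ => rfl)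
    · change s * ((n : W) * V.u i) = (n : W) * (s * V.u i)
      ring
    · change s * ((n : W) * V.f i) = (n : W) * (s * V.f i)
      ring
  · refine EncV.of hsC.vv hsV.vv enc_z3 e5 enc_z3 enc_z3 e6 (fun _ => rfl) (fun _ => rfl)
      (fun _ => rfl) (fun i => ?_) (fun _ => rfl) (fun _ => rfl) (fun i => ?_)
    · change s * (2 * ((n : W) * V.v i)) = ((2 * n : ℤ) : W) * (s * V.v i)
      push_cast
      ring
    · change s * ((n : W) * (n : W) * V.f i) = ((n * n : ℤ) : W) * (s * V.f i)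
      push_cast
      ring

/-- enclosure of the nodes -/
structure EncN (A : Alg P W) (β : Bg W) (N : NV) : Prop where
  ebb : EncD A β.debb N.ebb
  eab : EncD A β.deab N.eab
  eaa : EncD A β.deaa N.eaa
  ebB : EncD A β.debB N.ebB
  eaB : EncD A β.deaB N.eaB
  g : EncD A β.dg N.g
  n : EncV A β.dn N.n
  T : EncV A β.dT N.T

theorem nodes_sound (hP : P.Ok) {r r' : Rd} {b : Bg W} {L : LV} (hL : EncL A b L)
    {K : NV → Option β} (h : nodes P r r' L K = some z) : ∃ N, EncN A b N ∧ K N = some z := by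
  obtain ⟨ebb, h1, h⟩ := etaD_sound hP hL.b hL.b h
  obtain ⟨eab, h2, h⟩ := etaD_sound hP hL.a hL.b h
  obtain ⟨eaa, h3, h⟩ := etaD_sound hP hL.a hL.a h
  obtain ⟨ebB, h4, h⟩ := etaD_sound hP hL.b hL.B h
  obtain ⟨eaB, h5, h⟩ := etaD_sound hP hL.a hL.B h
  obtain ⟨g, h6, h⟩ := detD_sound hP h3 h4 h2 h5 h
  obtain ⟨n, h7, h⟩ := crsD_sound hP hL.a hL.b h
  obtain ⟨T0, h8, h⟩ := TiD_sound hP h1 h2 h3 h6 hL.C.x hL.p.x hL.q.x hL.w.x h
  obtain ⟨T1, h9, h⟩ := TiD_sound hP h1 h2 h3 h6 hL.C.y hL.p.y hL.q.y hL.w.y h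
  obtain ⟨T2, h10, h⟩ := TiD_sound hP h1 h2 h3 h6 hL.C.z hL.p.z hL.q.z hL.w.z h
  refine ⟨⟨ebb, eab, eaa, ebB, eaB, g, n, ⟨T0, T1, T2⟩⟩, ?_, h⟩
  constructor
  · exact h1
  · exact h2
  · exact h3
  · exact h4
  · exact h5
  · exact h6
  · exact h7
  · exact ⟨h8, h9, h10⟩

/-- the background of seven tables -/
noncomputable def bgW (A : Alg P W) (k : ℤ) (bs b0 b1 b2 v0 v1 v2 : Base) : Bg W :=
  bgT (k : W) (jetW A bs).f (t6 (k : W) (jetW A b0) (jetW A b1) (jetW A b2))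
    (t6 (k : W) (jetW A v0) (jetW A v1) (jetW A v2))

theorem evalBg_sound (hP : P.Ok) {r r' : Rd} {k : ℤ} {bs b0 b1 b2 v0 v1 v2 : Base}
    {K : LV → NV → Option β} (h : evalBg P r r' k bs b0 b1 b2 v0 v1 v2 K = some z) :
    ∃ L N, EncL A (bgW A k bs b0 b1 b2 v0 v1 v2) L ∧ EncN A (bgW A k bs b0 b1 b2 v0 v1 v2) N ∧
      K L N = some z := by
  obtain ⟨s, es, h⟩ := bnd_eq h
  have hs := ldO_sound (A := A) hP es
  obtain ⟨a, ha, h⟩ := ldJ_sound (A := A) hP h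
  obtain ⟨b, hb, h⟩ := ldJ_sound (A := A) hP h
  obtain ⟨c, hc, h⟩ := ldJ_sound (A := A) hP h
  obtain ⟨C, hC, h⟩ := c6_sound (k := (k : W)) hP rfl ha hb hc h
  obtain ⟨sC, hsC, h⟩ := sO6_sound hP hs hC h
  obtain ⟨a', ha', h⟩ := ldJ_sound (A := A) hP h
  obtain ⟨b', hb', h⟩ := ldJ_sound (A := A) hP h
  obtain ⟨c', hc', h⟩ := ldJ_sound (A := A) hP h
  obtain ⟨V, hV, h⟩ := c6_sound (k := (k : W)) hP rfl ha' hb' hc' h
  obtain ⟨sV, hsV, h⟩ := sO6_sound hP hs hV h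
  obtain ⟨L, hL, h⟩ := leaves_sound (k := (k : W)) rfl hC hsC hV hsV h
  obtain ⟨N, hN, h⟩ := nodes_sound hP hL h
  exact ⟨L, N, hL, hN, h⟩

theorem evalVal_sound (hP : P.Ok) {r : Rd} {k : ℤ} {bs b0 b1 b2 : Base} (v0 v1 v2 : HJet W)
    {K : LV → NV → Option β} (h : evalVal P r k bs b0 b1 b2 K = some z) :
    ∃ L N, EncL A (bgT (k : W) (jetW A bs).f (t6 (k : W) (jetW A b0) (jetW A b1) (jetW A b2))
        (t6 (k : W) v0 v1 v2)) L ∧
      EncN A (bgT (k : W) (jetW A bs).f (t6 (k : W) (jetW A b0) (jetW A b1) (jetW A b2))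
        (t6 (k : W) v0 v1 v2)) N ∧ K L N = some z := by
  obtain ⟨s, es, h⟩ := bnd_eq h
  have hs := ldO_sound (A := A) hP es
  obtain ⟨a, ha, h⟩ := ldJ_sound (A := A) hP h
  obtain ⟨b, hb, h⟩ := ldJ_sound (A := A) hP h
  obtain ⟨c, hc, h⟩ := ldJ_sound (A := A) hP h
  obtain ⟨C, hC, h⟩ := c6_sound (k := (k : W)) hP rfl ha hb hc h
  obtain ⟨sC, hsC, h⟩ := sO6_sound hP hs hC h
  obtain ⟨V, hV, h⟩ := c6_sound (k := (k : W)) hP rfl (EncJ.unk v0) (EncJ.unk v1) (EncJ.unk v2) h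
  obtain ⟨sV, hsV, h⟩ := sO6_sound hP hs hV h
  obtain ⟨L, hL, h⟩ := leaves_sound (k := (k : W)) rfl hC hsC hV hsV h
  obtain ⟨N, hN, h⟩ := nodes_sound hP hL h
  exact ⟨L, N, hL, hN, h⟩

end

end Pool.MP_ce2c94_gt.D3C
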