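import Pool.Agent.H.MP_ce2c94_gt.h46.Prog
import Pool.Agent.H.MP_ce2c94_gt.h88.FCell
import Pool.Agent.H.MP_ce2c94_gt.D3.Eqn

set_option autoImplicit false

/-!
# Dual cells

A dual cell encloses a dual number of `w93.Quad`: one cell for the value and one for each of the six
coefficients; `z` encloses exactly zero, `u` carries no information. The kernel functions have the
shape of `D3.Eqn`: sums of products are formed exactly and rounded once.
-/

namespace Pool.MP_ce2c94_gt.D3C

open Pool.Agent.H.MP_ce2c94_gt.h46 Pool.MP_ce2c94_gt.W93 Pool.MP_ce2c94_gt.D3S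
open Pool.MP_ce2c94_gt.h88 (addF addF_sound rndF rndF_sound normF normF_sound)

/-- zero, unknown or a cell -/
inductive OC
  | z
  | u
  | c (a : Cell)

/-- target precision and box -/
structure Rd where
  p : ℕ
  I : ℕ
  J : ℕ

/-- evaluates the cell -/
def forceL {α : Type*} (c : Cell) (k : Cell → α) : α :=
  match c with
  | ⟨z, I, J, s, e, p⟩ => forceN I fun I => forceN J fun J => forceN s fun s =>
    forceN e fun e => forceN p fun p => k ⟨z, I, J, s, e, p⟩

theorem forceL_eq {α : Type*} (c : Cell) (k : Cell → α) : forceL c k = k c := by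
  cases c
  simp only [forceL, forceN_eq]

/-- evaluates the cell -/
def forceO {α : Type*} (x : OC) (k : OC → α) : α :=
  match x with
  | .z => k .z
  | .u => k .u
  | .c a => forceL a fun a => k (.c a)

theorem forceO_eq {α : Type*} (x : OC) (k : OC → α) : forceO x k = k x := by
  cases x <;> simp [forceO, forceL_eq]

/-- evaluates and continues -/
def bnd {β : Type*} (x : Option OC) (k : OC → Option β) : Option β :=
  match x with
  | none => none
  | some c => forceO c k

theorem bnd_eq {β : Type*} {x : Option OC} {k : OC → Option β} {r : β} (h : bnd x k = some r) :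
    ∃ c, x = some c ∧ k c = some r := by
  cases x with
  | none => exact absurd h (by simp [bnd])
  | some c =>
    rw [bnd, forceO_eq] at h
    exact ⟨c, rfl, h⟩

/-- product -/
def mulO (P : Par) (a b : OC) : Option OC :=
  match a with
  | .z => some .z
  | .u => match b with
    | .z => some .z
    | .u => some .u
    | .c _ => some .u
  | .c a => match b with
    | .z => some .z
    | .u => some .u
    | .c b => match mulC P a b with
      | some r => some (.c r)
      | none => none

/-- sum -/
def addO (P : Par) (a b : OC) : Option OC :=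
  match a with
  | .z => some b
  | .u => some .u
  | .c a => match b with
    | .z => some (.c a)
    | .u => some .u
    | .c b => match addF P a b with
      | some r => some (.c r)
      | none => none

/-- negative -/
def negO (a : OC) : OC :=
  match a with
  | .z => .z
  | .u => .u
  | .c a => .c (negC a)

/-- integer multiple -/
def smulO (n : ℤ) (a : OC) : OC :=
  match a with
  | .z => .z
  | .u => .u
  | .c a => .c (smulC n a)

/-- norm and rounding -/
def rndO (P : Par) (r : Rd) (a : OC) : Option OC :=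
  match a with
  | .z => some .z
  | .u => some .u
  | .c a => match Nat.ble a.p r.p && Nat.ble a.I r.I && Nat.ble a.J r.J with
    | true => match normF P a with
      | none => none
      | some a => some (.c a)
    | false => forceN (min r.I a.I) fun I => forceN (min r.J a.J) fun J =>
      forceN (a.p - r.p) fun t =>
        match rndF P t I J a with
        | none => none
        | some a => some (.c a)

/-- norm -/
def nrmO (P : Par) (a : OC) : Option OC :=
  match a with
  | .z => some .z
  | .u => some .u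
  | .c a => match normF P a with
    | none => none
    | some a => some (.c a)

section
variable {P : Par} {W : Type*} [NormedCommRing W] [NormedAlgebra ℝ W] {A : Alg P W}

/-- enclosure -/
def EncO (A : Alg P W) (x : W) : OC → Prop
  | .z => x = 0
  | .u => True
  | .c a => Enc A x a

theorem EncO.u {x : W} : EncO A x .u := trivial

theorem mulO_sound {a b c : OC} {x y : W} (ha : EncO A x a) (hb : EncO A y b)
    (h : mulO P a b = some c) : EncO A (x * y) c := by
  cases a with
  | z =>
    simp only [mulO, Option.some.injEq] at h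
    subst h
    change x = 0 at ha
    change x * y = 0
    rw [ha, zero_mul]
  | u =>
    cases b with
    | z =>
      simp only [mulO, Option.some.injEq] at h
      subst h
      change y = 0 at hb
      change x * y = 0
      rw [hb, mul_zero]
    | u => simp only [mulO, Option.some.injEq] at h; subst h; trivial
    | c b => simp only [mulO, Option.some.injEq] at h; subst h; trivial
  | c a =>
    cases b with
    | z =>
      simp only [mulO, Option.some.injEq] at h
      subst h
      change y = 0 at hb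
      change x * y = 0
      rw [hb, mul_zero]
    | u => simp only [mulO, Option.some.injEq] at h; subst h; trivial
    | c b =>
      simp only [mulO] at h
      split at h
      · rename_i r hr
        simp only [Option.some.injEq] at h
        subst h
        exact mulC_sound ha hb hr
      · exact absurd h (by simp)

theorem addO_sound {a b c : OC} {x y : W} (ha : EncO A x a) (hb : EncO A y b)
    (h : addO P a b = some c) : EncO A (x + y) c := by
  cases a with
  | z =>
    simp only [addO, Option.some.injEq] at h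
    subst h
    change x = 0 at ha
    rw [ha, zero_add]
    exact hb
  | u => simp only [addO, Option.some.injEq] at h; subst h; trivial
  | c a =>
    cases b with
    | z =>
      simp only [addO, Option.some.injEq] at h
      subst h
      change y = 0 at hb
      rw [hb, add_zero]
      exact ha
    | u => simp only [addO, Option.some.injEq] at h; subst h; trivial
    | c b =>
      simp only [addO] at h
      split at h
      · rename_i r hr
        simp only [Option.some.injEq] at h
        subst h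
        exact addF_sound ha hb hr
      · exact absurd h (by simp)

theorem negO_sound {a : OC} {x : W} (ha : EncO A x a) : EncO A (-x) (negO a) := by
  cases a with
  | z => change x = 0 at ha; change -x = 0; rw [ha, neg_zero]
  | u => trivial
  | c a => exact negC_sound ha

theorem smulO_sound {n : ℤ} {a : OC} {x : W} (ha : EncO A x a) : EncO A (n • x) (smulO n a) := by
  cases a with
  | z => change x = 0 at ha; change n • x = 0; rw [ha, smul_zero]
  | u => trivial
  | c a => exact smulC_sound ha

theorem rndO_sound (hP : P.Ok) {r : Rd} {a c : OC} {x : W} (ha : EncO A x a)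
    (h : rndO P r a = some c) : EncO A x c := by
  cases a with
  | z => simp only [rndO, Option.some.injEq] at h; subst h; exact ha
  | u => simp only [rndO, Option.some.injEq] at h; subst h; trivial
  | c a =>
    simp only [rndO] at h
    split at h
    · split at h
      · exact absurd h (by simp)
      · rename_i a' ha'
        simp only [Option.some.injEq] at h
        subst h
        exact normF_sound hP ha ha'
    · simp only [forceN_eq] at h
      split at h
      · exact absurd h (by simp)
      · rename_i a' ha'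
        simp only [Option.some.injEq] at h
        subst h
        exact rndF_sound hP ha ha'

theorem nrmO_sound (hP : P.Ok) {a c : OC} {x : W} (ha : EncO A x a)
    (h : nrmO P a = some c) : EncO A x c := by
  cases a with
  | z => simp only [nrmO, Option.some.injEq] at h; subst h; exact ha
  | u => simp only [nrmO, Option.some.injEq] at h; subst h; trivial
  | c a =>
    simp only [nrmO] at h
    split at h
    · exact absurd h (by simp)
    · rename_i a' ha'
      simp only [Option.some.injEq] at h
      subst h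
      exact normF_sound hP ha ha'

end

/-! ### dual cells -/

/-- value and six coefficients -/
structure DC where
  v : OC
  d0 : OC
  d1 : OC
  d2 : OC
  d3 : OC
  d4 : OC
  d5 : OC

/-- seven evaluations -/
def mk7 {β : Type*} (v d0 d1 d2 d3 d4 d5 : Option OC) (k : DC → Option β) : Option β :=
  bnd v fun v => bnd d0 fun d0 => bnd d1 fun d1 => bnd d2 fun d2 => bnd d3 fun d3 =>
  bnd d4 fun d4 => bnd d5 fun d5 => k ⟨v, d0, d1, d2, d3, d4, d5⟩

theorem mk7_eq {β : Type*} {v d0 d1 d2 d3 d4 d5 : Option OC} {k : DC → Option β} {r : β}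
    (h : mk7 v d0 d1 d2 d3 d4 d5 k = some r) : ∃ x : DC, v = some x.v ∧ d0 = some x.d0 ∧
      d1 = some x.d1 ∧ d2 = some x.d2 ∧ d3 = some x.d3 ∧ d4 = some x.d4 ∧ d5 = some x.d5 ∧
      k x = some r := by
  obtain ⟨_, h0, h⟩ := bnd_eq h
  obtain ⟨_, h1, h⟩ := bnd_eq h
  obtain ⟨_, h2, h⟩ := bnd_eq h
  obtain ⟨_, h3, h⟩ := bnd_eq h
  obtain ⟨_, h4, h⟩ := bnd_eq h
  obtain ⟨_, h5, h⟩ := bnd_eq h
  obtain ⟨_, h6, h⟩ := bnd_eq h
  exact ⟨⟨_, _, _, _, _, _, _⟩, h0, h1, h2, h3, h4, h5, h6, h⟩

/-- `xv yd + yv xd` -/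
def maO (P : Par) (xv yv xd yd : OC) : Option OC :=
  bnd (mulO P xv yd) fun a => bnd (mulO P yv xd) fun b => addO P a b

/-- product -/
def mulD {β : Type*} (P : Par) (x y : DC) (k : DC → Option β) : Option β :=
  mk7 (mulO P x.v y.v) (maO P x.v y.v x.d0 y.d0) (maO P x.v y.v x.d1 y.d1)
    (maO P x.v y.v x.d2 y.d2) (maO P x.v y.v x.d3 y.d3) (maO P x.v y.v x.d4 y.d4)
    (maO P x.v y.v x.d5 y.d5) k

/-- sum -/
def addD {β : Type*} (P : Par) (x y : DC) (k : DC → Option β) : Option β :=
  mk7 (addO P x.v y.v) (addO P x.d0 y.d0) (addO P x.d1 y.d1) (addO P x.d2 y.d2)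
    (addO P x.d3 y.d3) (addO P x.d4 y.d4) (addO P x.d5 y.d5) k

/-- difference -/
def subD {β : Type*} (P : Par) (x y : DC) (k : DC → Option β) : Option β :=
  mk7 (addO P x.v (negO y.v)) (addO P x.d0 (negO y.d0)) (addO P x.d1 (negO y.d1))
    (addO P x.d2 (negO y.d2)) (addO P x.d3 (negO y.d3)) (addO P x.d4 (negO y.d4))
    (addO P x.d5 (negO y.d5)) k

/-- rounding, `r` for the value and `r'` for the coefficients -/
def rndD {β : Type*} (P : Par) (r r' : Rd) (x : DC) (k : DC → Option β) : Option β :=
  mk7 (rndO P r x.v) (rndO P r' x.d0) (rndO P r' x.d1) (rndO P r' x.d2) (rndO P r' x.d3)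
    (rndO P r' x.d4) (rndO P r' x.d5) k

section
variable {P : Par} {W : Type*} [NormedCommRing W] [NormedAlgebra ℝ W] {A : Alg P W}

/-- enclosure of a dual number -/
structure EncD (A : Alg P W) (δ : Du W (Fin 6)) (x : DC) : Prop where
  v : EncO A δ.v x.v
  d0 : EncO A (δ.d 0) x.d0
  d1 : EncO A (δ.d 1) x.d1
  d2 : EncO A (δ.d 2) x.d2
  d3 : EncO A (δ.d 3) x.d3
  d4 : EncO A (δ.d 4) x.d4
  d5 : EncO A (δ.d 5) x.d5

theorem maO_sound {xv yv xd yd c : OC} {a b d d' : W} (h1 : EncO A a xv) (h2 : EncO A b yv)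
    (h3 : EncO A d xd) (h4 : EncO A d' yd) (h : maO P xv yv xd yd = some c) :
    EncO A (a * d' + b * d) c := by
  obtain ⟨e, he, h⟩ := bnd_eq h
  obtain ⟨f, hf, h⟩ := bnd_eq h
  exact addO_sound (mulO_sound h1 h4 he) (mulO_sound h2 h3 hf) h

variable {β : Type*} {δ δ' : Du W (Fin 6)} {x y : DC} {k : DC → Option β} {r : β}

theorem mulD_sound (hx : EncD A δ x) (hy : EncD A δ' y) (h : mulD P x y k = some r) :
    ∃ z, EncD A (δ.mul δ') z ∧ k z = some r := by
  obtain ⟨z, h0, h1, h2, h3, h4, h5, h6, h⟩ := mk7_eq h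
  exact ⟨z, ⟨mulO_sound hx.v hy.v h0, maO_sound hx.v hy.v hx.d0 hy.d0 h1,
    maO_sound hx.v hy.v hx.d1 hy.d1 h2, maO_sound hx.v hy.v hx.d2 hy.d2 h3,
    maO_sound hx.v hy.v hx.d3 hy.d3 h4, maO_sound hx.v hy.v hx.d4 hy.d4 h5,
    maO_sound hx.v hy.v hx.d5 hy.d5 h6⟩, h⟩

theorem addD_sound (hx : EncD A δ x) (hy : EncD A δ' y) (h : addD P x y k = some r) :
    ∃ z, EncD A (δ.add δ') z ∧ k z = some r := by
  obtain ⟨z, h0, h1, h2, h3, h4, h5, h6, h⟩ := mk7_eq h
  exact ⟨z, ⟨addO_sound hx.v hy.v h0, addO_sound hx.d0 hy.d0 h1, addO_sound hx.d1 hy.d1 h2,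
    addO_sound hx.d2 hy.d2 h3, addO_sound hx.d3 hy.d3 h4, addO_sound hx.d4 hy.d4 h5,
    addO_sound hx.d5 hy.d5 h6⟩, h⟩

theorem subO_sound {a b c : OC} {x y : W} (ha : EncO A x a) (hb : EncO A y b)
    (h : addO P a (negO b) = some c) : EncO A (x - y) c := by
  rw [sub_eq_add_neg]
  exact addO_sound ha (negO_sound hb) h

theorem subD_sound (hx : EncD A δ x) (hy : EncD A δ' y) (h : subD P x y k = some r) :
    ∃ z, EncD A (δ.sub δ') z ∧ k z = some r := by
  obtain ⟨z, h0, h1, h2, h3, h4, h5, h6, h⟩ := mk7_eq h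
  exact ⟨z, ⟨subO_sound hx.v hy.v h0, subO_sound hx.d0 hy.d0 h1, subO_sound hx.d1 hy.d1 h2,
    subO_sound hx.d2 hy.d2 h3, subO_sound hx.d3 hy.d3 h4, subO_sound hx.d4 hy.d4 h5,
    subO_sound hx.d5 hy.d5 h6⟩, h⟩

theorem rndD_sound (hP : P.Ok) {s s' : Rd} (hx : EncD A δ x) (h : rndD P s s' x k = some r) :
    ∃ z, EncD A δ z ∧ k z = some r := by
  obtain ⟨z, h0, h1, h2, h3, h4, h5, h6, h⟩ := mk7_eq h
  exact ⟨z, ⟨rndO_sound hP hx.v h0, rndO_sound hP hx.d0 h1, rndO_sound hP hx.d1 h2,
    rndO_sound hP hx.d2 h3, rndO_sound hP hx.d3 h4, rndO_sound hP hx.d4 h5,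
    rndO_sound hP hx.d5 h6⟩, h⟩

end

/-! ### vectors of dual cells -/

/-- three dual cells -/
structure DV where
  x : DC
  y : DC
  z : DC

/-- dual of `eta`, rounded -/
def etaD {β : Type*} (P : Par) (r r' : Rd) (a b : DV) (k : DC → Option β) : Option β :=
  mulD P a.x b.x fun u => mulD P a.y b.y fun v => mulD P a.z b.z fun w =>
  subD P u v fun t => subD P t w fun t => rndD P r r' t k

/-- dual of `dt`, rounded -/
def dtD {β : Type*} (P : Par) (r r' : Rd) (a b : DV) (k : DC → Option β) : Option β :=
  mulD P a.x b.x fun u => mulD P a.y b.y fun v => mulD P a.z b.z fun w =>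
  addD P u v fun t => addD P t w fun t => rndD P r r' t k

/-- a difference of products, rounded -/
def detD {β : Type*} (P : Par) (r r' : Rd) (a b c d : DC) (k : DC → Option β) : Option β :=
  mulD P a b fun u => mulD P c d fun v => subD P u v fun t => rndD P r r' t k

/-- dual of `crs`, rounded -/
def crsD {β : Type*} (P : Par) (r r' : Rd) (a b : DV) (k : DV → Option β) : Option β :=
  detD P r r' a.y b.z a.z b.y fun x => detD P r r' a.z b.x a.x b.z fun y =>
  detD P r r' a.x b.y a.y b.x fun z => k ⟨x, y, z⟩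

/-- a component of `T`, rounded -/
def TiD {β : Type*} (P : Par) (r r' : Rd) (ebb eab eaa g C p q w : DC) (k : DC → Option β) :
    Option β :=
  mulD P ebb p fun a => mulD P eab q fun b => addD P b b fun b => subD P a b fun a =>
  mulD P eaa w fun b => addD P a b fun u => addD P u u fun u => mulD P g C fun c =>
  addD P u c fun t => rndD P r r' t k

section
variable {P : Par} {W : Type*} [NormedCommRing W] [NormedAlgebra ℝ W] {A : Alg P W}

/-- enclosure of a vector of dual numbers -/
structure EncV (A : Alg P W) (δ : Fin 3 → Du W (Fin 6)) (a : DV) : Prop where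
  x : EncD A (δ 0) a.x
  y : EncD A (δ 1) a.y
  z : EncD A (δ 2) a.z

variable {β : Type*} {δ δ' : Fin 3 → Du W (Fin 6)} {a b : DV} {r : β} {s s' : Rd}

theorem etaD_sound (hP : P.Ok) {k : DC → Option β} (ha : EncV A δ a) (hb : EncV A δ' b)
    (h : etaD P s s' a b k = some r) : ∃ z, EncD A (dEta δ δ') z ∧ k z = some r := by
  obtain ⟨u, hu, h⟩ := mulD_sound ha.x hb.x h
  obtain ⟨v, hv, h⟩ := mulD_sound ha.y hb.y h
  obtain ⟨w, hw, h⟩ := mulD_sound ha.z hb.z h
  obtain ⟨t, ht, h⟩ := subD_sound hu hv h
  obtain ⟨t', ht', h⟩ := subD_sound ht hw h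
  exact rndD_sound hP ht' h

theorem dtD_sound (hP : P.Ok) {k : DC → Option β} (ha : EncV A δ a) (hb : EncV A δ' b)
    (h : dtD P s s' a b k = some r) : ∃ z, EncD A (dDt δ δ') z ∧ k z = some r := by
  obtain ⟨u, hu, h⟩ := mulD_sound ha.x hb.x h
  obtain ⟨v, hv, h⟩ := mulD_sound ha.y hb.y h
  obtain ⟨w, hw, h⟩ := mulD_sound ha.z hb.z h
  obtain ⟨t, ht, h⟩ := addD_sound hu hv h
  obtain ⟨t', ht', h⟩ := addD_sound ht hw h
  exact rndD_sound hP ht' h

theorem detD_sound (hP : P.Ok) {k : DC → Option β} {α1 α2 α3 α4 : Du W (Fin 6)}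
    {a1 a2 a3 a4 : DC} (h1 : EncD A α1 a1) (h2 : EncD A α2 a2) (h3 : EncD A α3 a3)
    (h4 : EncD A α4 a4) (h : detD P s s' a1 a2 a3 a4 k = some r) :
    ∃ z, EncD A ((α1.mul α2).sub (α3.mul α4)) z ∧ k z = some r := by
  obtain ⟨u, hu, h⟩ := mulD_sound h1 h2 h
  obtain ⟨v, hv, h⟩ := mulD_sound h3 h4 h
  obtain ⟨t, ht, h⟩ := subD_sound hu hv h
  exact rndD_sound hP ht h

theorem crsD_sound (hP : P.Ok) {k : DV → Option β} (ha : EncV A δ a) (hb : EncV A δ' b)
    (h : crsD P s s' a b k = some r) : ∃ z, EncV A (dCrs δ δ') z ∧ k z = some r := by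
  obtain ⟨x, hx, h⟩ := detD_sound hP ha.y hb.z ha.z hb.y h
  obtain ⟨y, hy, h⟩ := detD_sound hP ha.z hb.x ha.x hb.z h
  obtain ⟨z, hz, h⟩ := detD_sound hP ha.x hb.y ha.y hb.x h
  exact ⟨⟨x, y, z⟩, ⟨hx, hy, hz⟩, h⟩

theorem TiD_sound (hP : P.Ok) {k : DC → Option β} {ebb eab eaa g C p q w : Du W (Fin 6)}
    {ebb' eab' eaa' g' C' p' q' w' : DC} (h1 : EncD A ebb ebb') (h2 : EncD A eab eab')
    (h3 : EncD A eaa eaa') (h4 : EncD A g g') (h5 : EncD A C C') (h6 : EncD A p p')
    (h7 : EncD A q q') (h8 : EncD A w w')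
    (h : TiD P s s' ebb' eab' eaa' g' C' p' q' w' k = some r) :
    ∃ z, EncD A (((((ebb.mul p).sub ((eab.mul q).add (eab.mul q))).add (eaa.mul w)).add
      (((ebb.mul p).sub ((eab.mul q).add (eab.mul q))).add (eaa.mul w))).add (g.mul C)) z ∧
      k z = some r := by
  obtain ⟨a, ha, h⟩ := mulD_sound h1 h6 h
  obtain ⟨b, hb, h⟩ := mulD_sound h2 h7 h
  obtain ⟨b2, hb2, h⟩ := addD_sound hb hb h
  obtain ⟨a2, ha2, h⟩ := subD_sound ha hb2 h
  obtain ⟨c, hc, h⟩ := mulD_sound h3 h8 h
  obtain ⟨u, hu, h⟩ := addD_sound ha2 hc h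
  obtain ⟨u2, hu2, h⟩ := addD_sound hu hu h
  obtain ⟨e, he, h⟩ := mulD_sound h4 h5 h
  obtain ⟨t, ht, h⟩ := addD_sound hu2 he h
  exact rndD_sound hP ht h

end

end Pool.MP_ce2c94_gt.D3C
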