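import Pool.Agent.H.MP_ce2c94_gt.D3.Par
import Pool.Agent.H.MP_ce2c94_gt.h95.NKs

set_option autoImplicit false

/-!
# Existence of a zero of the normalised equation from finitely many inequalities

The unknown is `y ∈ W`; the function is `φ = jet 0 0 y`, and the six entries of its jet are the
images of `y` under bounded multipliers. `Cert` collects all the numerical hypotheses.
-/

namespace Pool.MP_ce2c94_gt.D3E

open D3W D3S W93

noncomputable section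

/-- Parameters: the weight `a j ^ 2 + b m ^ 2 + s` of the frequency `(j, m)`, and bounds `dn` for the
norms of the six jet maps (order: value, `Dj`, `Dm`, `Dj Dj`, `Dj Dm`, `Dm Dm`). -/
structure Prm where
  /-- coefficient of `j ^ 2` -/
  a : ℚ
  /-- coefficient of `m ^ 2` -/
  b : ℚ
  /-- the constant -/
  s : ℚ
  /-- norm of the value -/
  d0 : ℚ
  /-- norm of `Dj` -/
  d1 : ℚ
  /-- norm of `Dm` -/
  d2 : ℚ
  /-- norm of `Dj Dj` -/
  d3 : ℚ
  /-- norm of `Dj Dm` -/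
  d4 : ℚ
  /-- norm of `Dm Dm` -/
  d5 : ℚ

namespace Prm

/-- The inequalities between the parameters. -/
structure Ok (P : Prm) : Prop where
  a0 : 0 < P.a
  b0 : 0 < P.b
  s0 : 0 < P.s
  d0 : 0 ≤ P.d0
  d1 : 0 ≤ P.d1
  d2 : 0 ≤ P.d2
  d3 : 0 ≤ P.d3
  d4 : 0 ≤ P.d4
  d5 : 0 ≤ P.d5
  h0 : 1 ≤ P.d0 * P.s
  h1 : 1 ≤ 4 * P.a * P.s * P.d1 ^ 2
  h2 : 1 ≤ 4 * P.b * P.s * P.d2 ^ 2
  h3 : 1 ≤ P.d3 * P.a
  h4 : 1 ≤ 4 * P.a * P.b * P.d4 ^ 2
  h5 : 1 ≤ P.d5 * P.b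

variable (P : Prm)

/-- The jet of order `(p, q)` of the unknown. -/
def J (p q : ℕ) : W →L[ℝ] W := jet P.a P.b P.s p q

/-- The six jet maps. -/
def D : Fin 6 → W →+ W :=
  ![(P.J 0 0 : W →ₗ[ℝ] W).toAddMonoidHom, (P.J 1 0 : W →ₗ[ℝ] W).toAddMonoidHom,
    (P.J 0 1 : W →ₗ[ℝ] W).toAddMonoidHom, (P.J 2 0 : W →ₗ[ℝ] W).toAddMonoidHom,
    (P.J 1 1 : W →ₗ[ℝ] W).toAddMonoidHom, (P.J 0 2 : W →ₗ[ℝ] W).toAddMonoidHom]

@[simp] theorem D_zero (y : W) : P.D 0 y = P.J 0 0 y := rfl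
@[simp] theorem D_one (y : W) : P.D 1 y = P.J 1 0 y := rfl
@[simp] theorem D_two (y : W) : P.D 2 y = P.J 0 1 y := rfl
@[simp] theorem D_three (y : W) : P.D 3 y = P.J 2 0 y := rfl
@[simp] theorem D_four (y : W) : P.D 4 y = P.J 1 1 y := rfl
@[simp] theorem D_five (y : W) : P.D 5 y = P.J 0 2 y := rfl

/-- The bounds as a function. -/
def dn : Fin 6 → ℝ := ![P.d0, P.d1, P.d2, P.d3, P.d4, P.d5]

variable {P}

theorem Ok.norm_D (h : P.Ok) (j : Fin 6) (y : W) : ‖P.D j y‖ ≤ P.dn j * ‖y‖ := by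
  have a0 : (0 : ℝ) < P.a := by exact_mod_cast h.a0
  have b0 : (0 : ℝ) < P.b := by exact_mod_cast h.b0
  have s0 : (0 : ℝ) < P.s := by exact_mod_cast h.s0
  fin_cases j
  · exact norm_mult_le (sb_bound_00 (d := (P.d0 : ℝ)) a0.le b0.le s0 (by exact_mod_cast h.d0)
      (by exact_mod_cast h.h0)) y
  · exact norm_mult_le (sb_bound_10 (d := (P.d1 : ℝ)) a0.le b0.le s0 (by exact_mod_cast h.d1)
      (by exact_mod_cast h.h1)) y
  · exact norm_mult_le (sb_bound_01 (d := (P.d2 : ℝ)) a0.le b0.le s0 (by exact_mod_cast h.d2)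
      (by exact_mod_cast h.h2)) y
  · exact norm_mult_le (sb_bound_20 (d := (P.d3 : ℝ)) a0.le b0.le s0 (by exact_mod_cast h.d3)
      (by exact_mod_cast h.h3)) y
  · exact norm_mult_le (sb_bound_11 (d := (P.d4 : ℝ)) a0.le b0.le s0 (by exact_mod_cast h.d4)
      (by exact_mod_cast h.h4)) y
  · exact norm_mult_le (sb_bound_02 (d := (P.d5 : ℝ)) a0.le b0.le s0 (by exact_mod_cast h.d5)
      (by exact_mod_cast h.h5)) y

end Prm

/-- The rational constants of the proof. -/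
structure Cst where
  /-- parameters of the norm -/
  P : Prm
  /-- bounds of the leaves and of the intermediate quantities -/
  S : Slots
  /-- bound of the residual -/
  Y : ℚ
  /-- bound of the error of the approximate linearization -/
  e : ℚ
  /-- defect of the approximate right inverse -/
  z : ℚ
  /-- norm of the approximate right inverse -/
  α : ℚ
  /-- radius of the ball of the right hand sides -/
  r : ℚ
  /-- approximate value of the coefficient of `Dj Dj` -/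
  κ : ℚ

namespace Cst

variable (c : Cst)

/-- The radius of the ball of the unknown. -/
def ρ : ℚ := c.α * c.r

/-- The Lipschitz constant of the nonlinear part. -/
def ε : ℚ := (c.S.tF c.ρ).c * c.ρ + c.e

/-- The purely rational inequalities. -/
structure Num : Prop where
  P : c.P.Ok
  e0 : 0 ≤ c.e
  z0 : 0 ≤ c.z
  α0 : 0 ≤ c.α
  r0 : 0 ≤ c.r
  κ0 : 0 < c.κ
  h1 : c.Y + (c.z + c.ε * c.α) * c.r ≤ c.r
  h2 : c.z + c.ε * c.α < 1

end Cst

/-- **All the hypotheses.** `β` is the background, `g` are the six approximate coefficients of the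
linearization and `A` is the approximate right inverse. -/
structure Cert (β : Bg W) (g : Fin 6 → W) (A : W →L[ℝ] W) (c : Cst) : Prop where
  /-- rational inequalities -/
  num : c.Num
  /-- the parities of the background -/
  sym : β.Sym
  /-- bounds of the leaves and of the intermediate quantities -/
  ok : β.Ok c.P.D c.S
  /-- the residual -/
  res : ‖β.dF.v‖ ≤ c.Y
  /-- the approximate linearization -/
  lin : ∑ j, ‖β.dF.d j - g j‖ * c.P.dn j ≤ c.e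
  /-- nondegeneracy -/
  unit : ‖β.dF.d 3 - algebraMap ℝ W c.κ‖ < c.κ
  /-- the approximate inverse preserves the symmetry -/
  Asym : ∀ y ∈ WS, A y ∈ WS
  /-- the approximate inverse is bounded -/
  Anorm : ∀ y ∈ WS, ‖A y‖ ≤ c.α * ‖y‖
  /-- the defect of the approximate inverse -/
  Ainv : ∀ y ∈ WS, ‖y - ∑ j, g j * c.P.D j (A y)‖ ≤ c.z * ‖y‖

/-- An element close to a positive number is invertible. -/
theorem isUnit_of_near {x : W} {κ : ℝ} (hκ : 0 < κ) (h : ‖x - algebraMap ℝ W κ‖ < κ) :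
    IsUnit x := by
  have h1 : ‖1 - κ⁻¹ • x‖ < 1 := by
    have e : 1 - κ⁻¹ • x = -(κ⁻¹ • (x - algebraMap ℝ W κ)) := by
      rw [smul_sub, Algebra.algebraMap_eq_smul_one, smul_smul, inv_mul_cancel₀ hκ.ne', one_smul]
      abel
    rw [e, norm_neg, norm_smul, Real.norm_eq_abs, abs_of_pos (inv_pos.2 hκ), inv_mul_lt_iff₀ hκ,
      mul_one]
    exact h
  have h2 : IsUnit (1 - (1 - κ⁻¹ • x)) := (Units.oneSub _ h1).isUnit
  rw [sub_sub_cancel] at h2
  have h3 : IsUnit (algebraMap ℝ W κ⁻¹ * x) := by rwa [← Algebra.smul_def]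
  exact isUnit_of_mul_isUnit_right h3

/-- The coefficient of `Dj Dj` is a multiple of `s`. -/
theorem dvd_d3 (β : Bg W) : β.s ∣ β.dF.d 3 := by
  refine ⟨2 * β.debb.v * (β.V 0 * (β.dn 0).v + β.V 1 * (β.dn 1).v + β.V 2 * (β.dn 2).v), ?_⟩
  have h0 : ∀ i, (β.dn i).d 3 = 0 := by
    intro i
    fin_cases i <;> simp [Bg.dn, dCrs, Du.sub, Du.mul, Bg.da, Bg.db]
  have h5 : β.debb.d 3 = 0 := by simp [Bg.debb, dEta, Du.sub, Du.mul, Bg.db]
  have h6 : β.deab.d 3 = 0 := by simp [Bg.deab, dEta, Du.sub, Du.mul, Bg.db, Bg.da]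
  have h7 : β.deaa.d 3 = 0 := by simp [Bg.deaa, dEta, Du.sub, Du.mul, Bg.da]
  have h8 : β.debB.d 3 = 0 := by simp [Bg.debB, dEta, Du.sub, Du.mul, Bg.db, Bg.dB]
  have h9 : β.deaB.d 3 = 0 := by simp [Bg.deaB, dEta, Du.sub, Du.mul, Bg.da, Bg.dB]
  have hg : β.dg.d 3 = 0 := by simp [Bg.dg, Du.sub, Du.mul, h6, h7, h8, h9]
  have e1 : ∀ i, (β.dp i).d 3 = β.s * β.V i := fun i => rfl
  have e2 : ∀ i, (β.dq i).d 3 = 0 := fun i => rfl
  have e3 : ∀ i, (β.dw i).d 3 = 0 := fun i => rfl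
  have e4 : ∀ i, (β.dC i).d 3 = 0 := fun i => rfl
  have hT : ∀ i, (β.dT i).d 3 = 2 * (β.debb.v * (β.s * β.V i)) := by
    intro i
    simp only [Bg.dT, Bg.du, Du.add, Du.sub, Du.mul, h5, h6, h7, hg, e1, e2, e3, e4]
    ring
  simp only [Bg.dF, dDt, Du.add, Du.mul, h0, hT]
  ring

/-- The normaliser is invertible. -/
theorem Cert.isUnit_s {β : Bg W} {g : Fin 6 → W} {A : W →L[ℝ] W} {c : Cst} (h : Cert β g A c) :
    IsUnit β.s :=
  isUnit_of_dvd_unit (dvd_d3 β)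
    (isUnit_of_near (by exact_mod_cast h.num.κ0) h.unit)

/-- The jet of an even/even element has the right parities. -/
theorem Prm.Ok.jpar {P : Prm} (h : P.Ok) {y : W} (hy : Par 1 1 y) : Bg.JPar (Bg.jt P.D y) :=
  Bg.JPar.of_jet (a := P.a) (b := P.b) (s := P.s) (by exact_mod_cast h.a0)
    (by exact_mod_cast h.b0) (by exact_mod_cast h.s0) hy rfl rfl rfl rfl rfl rfl

/-- **Existence.** -/
theorem Cert.exists_zero {β : Bg W} {g : Fin 6 → W} {A : W →L[ℝ] W} {c : Cst}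
    (h : Cert β g A c) : ∃ y ∈ WS, ‖y‖ ≤ c.ρ ∧ β.F (Bg.jt c.P.D y) = 0 := by
  have r0 : (0 : ℝ) ≤ c.r := by exact_mod_cast h.num.r0
  have α0 : (0 : ℝ) ≤ c.α := by exact_mod_cast h.num.α0
  have z0 : (0 : ℝ) ≤ c.z := by exact_mod_cast h.num.z0
  have e0 : (0 : ℝ) ≤ c.e := by exact_mod_cast h.num.e0
  have ρ0 : 0 ≤ c.ρ := mul_nonneg h.num.α0 h.num.r0
  have hρ : ((c.ρ : ℚ) : ℝ) = c.α * c.r := by rw [Cst.ρ]; push_cast; ring
  have Q := Bg.quad h.ok ρ0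
  have c0 : (0 : ℝ) ≤ (c.S.tF c.ρ).c := by exact_mod_cast Q.c0
  have hε : ((c.ε : ℚ) : ℝ) = (c.S.tF c.ρ).c * c.ρ + c.e := by rw [Cst.ε]; push_cast; ring
  have ε0 : (0 : ℝ) ≤ c.ε := by
    rw [hε]
    have : (0 : ℝ) ≤ c.ρ := by exact_mod_cast ρ0
    positivity
  have h1 : (c.Y : ℝ) + (c.z + c.ε * c.α) * c.r ≤ c.r := by exact_mod_cast h.num.h1
  have h2 : (c.z : ℝ) + c.ε * c.α < 1 := by exact_mod_cast h.num.h2
  obtain ⟨y, hy, hyr, hAy, hAyr, hF⟩ := H95.exists_zero_on WS isClosed_WS WS A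
    (fun x => ∑ j, g j * c.P.D j x) (fun x => β.F (Bg.jt c.P.D x)) (α := c.α) (z := c.z)
    (ε := c.ε) (Y := c.Y) (r := c.r) α0 ε0 z0 r0 h.Asym (fun y hy => h.sym.parF (h.num.P.jpar hy))
    (fun y _ y' _ => map_sub A y y') h.Anorm h.Ainv
    (fun x _ x' _ hx hx' => by
      rw [← hρ] at hx hx'
      rw [hε]
      exact Q.nk h.num.P.norm_D g h.lin hx hx')
    (by
      have h3 : β.F (Bg.jt c.P.D 0) = β.dF.v := Q.h0
      rw [h3]
      exact h.res) h1 h2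
  refine ⟨A y, hAy, ?_, hF⟩
  rw [hρ]
  exact hAyr

/-- **Existence, for the polynomial without the normaliser.** -/
theorem Cert.exists_PF {β : Bg W} {g : Fin 6 → W} {A : W →L[ℝ] W} {c : Cst}
    (h : Cert β g A c) : ∃ y ∈ WS, ‖y‖ ≤ c.ρ ∧
      PF (β.fC (Bg.jt c.P.D y)) (β.fA (Bg.jt c.P.D y)) (β.fB (Bg.jt c.P.D y))
        (β.fp (Bg.jt c.P.D y)) (β.fq (Bg.jt c.P.D y)) (β.fw (Bg.jt c.P.D y)) = 0 := by
  obtain ⟨y, hy, h1, h2⟩ := h.exists_zero
  refine ⟨y, hy, h1, ?_⟩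
  rw [Bg.F_eq] at h2
  exact (h.isUnit_s.pow 5).mul_right_eq_zero.1 h2

end

end Pool.MP_ce2c94_gt.D3E
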