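import Pool.Agent.H.MP_ce2c94_gt.D3.Eqn
import Pool.Agent.H.MP_ce2c94_gt.h42.Wien4

/-!
Parities: the nonlinear map `Bg.F` maps even/even jets to even/even elements.
-/

namespace Pool.MP_ce2c94_gt.D3S

open Pool.MP_ce2c94_gt.D3W

/-- the parities of a formal vector -/
structure VPar (c d : ℝ) (v : Fin 3 → W) : Prop where
  x : Par c d (v 0)
  y : Par c (-d) (v 1)
  z : Par (-c) d (v 2)

namespace VPar

variable {c d c' d' : ℝ} {v w : Fin 3 → W}

theorem cast {c₂ d₂ : ℝ} (h : VPar c d v) (hc : c = c₂) (hd : d = d₂) : VPar c₂ d₂ v := by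
  subst hc; subst hd; exact h

theorem add (h : VPar c d v) (h' : VPar c d w) : VPar c d (fun i => v i + w i) :=
  ⟨h.x.add h'.x, h.y.add h'.y, h.z.add h'.z⟩

theorem mul_left {g : W} (hg : Par c' d' g) (h : VPar c d v) :
    VPar (c' * c) (d' * d) (fun i => g * v i) :=
  ⟨hg.mul h.x, (hg.mul h.y).cast rfl (by ring), (hg.mul h.z).cast (by ring) rfl⟩

theorem eta (h : VPar c d v) (h' : VPar c' d' w) : Par (c * c') (d * d') (D3S.eta v w) := by
  unfold D3S.eta
  exact ((h.x.mul h'.x).sub ((h.y.mul h'.y).cast rfl (by ring))).sub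
    ((h.z.mul h'.z).cast (by ring) rfl)

theorem dt (h : VPar c d v) (h' : VPar c' d' w) : Par (c * c') (d * d') (D3S.dt v w) := by
  unfold D3S.dt
  exact ((h.x.mul h'.x).add ((h.y.mul h'.y).cast rfl (by ring))).add
    ((h.z.mul h'.z).cast (by ring) rfl)

theorem crs (h : VPar c d v) (h' : VPar c' d' w) :
    VPar (-(c * c')) (-(d * d')) (D3S.crs v w) := by
  refine ⟨?_, ?_, ?_⟩
  · change Par _ _ (v 1 * w 2 - v 2 * w 1)
    exact ((h.y.mul h'.z).cast (by ring) (by ring)).sub ((h.z.mul h'.y).cast (by ring) (by ring))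
  · change Par _ _ (v 2 * w 0 - v 0 * w 2)
    exact ((h.z.mul h'.x).cast (by ring) (by ring)).sub ((h.x.mul h'.z).cast (by ring) (by ring))
  · change Par _ _ (v 0 * w 1 - v 1 * w 0)
    exact ((h.x.mul h'.y).cast (by ring) (by ring)).sub ((h.y.mul h'.x).cast (by ring) (by ring))

theorem sm {s : W} (hs : Par 1 1 s) (h : VPar c d v) : VPar c d (D3S.sm s v) :=
  (mul_left hs h).cast (one_mul _) (one_mul _)

end VPar

theorem par_two : Par 1 1 (2 : W) := by
  have h := Par.one.add Par.one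
  rwa [one_add_one_eq_two] at h

theorem par_vT {ebb eab eaa g : W} {C p q w : Fin 3 → W} (h1 : Par 1 1 ebb)
    (h2 : Par (-1) (-1) eab) (h3 : Par 1 1 eaa) (h4 : Par 1 1 g) (hC : VPar 1 1 C)
    (hp : VPar 1 1 p) (hq : VPar (-1) (-1) q) (hw : VPar 1 1 w) :
    VPar 1 1 (vT ebb eab eaa g C p q w) := by
  refine ⟨?_, ?_, ?_⟩
  · exact ((par_two.mul (((h1.mul hp.x).sub
      ((par_two.mul (h2.mul hq.x)).cast (by ring) (by ring))).add (h3.mul hw.x))).cast
      (by ring) (by ring)).add ((h4.mul hC.x).cast (by ring) (by ring))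
  · exact ((par_two.mul (((h1.mul hp.y).sub
      ((par_two.mul (h2.mul hq.y)).cast (by ring) (by ring))).add (h3.mul hw.y))).cast
      (by ring) (by ring)).add ((h4.mul hC.y).cast (by ring) (by ring))
  · exact ((par_two.mul (((h1.mul hp.z).sub
      ((par_two.mul (h2.mul hq.z)).cast (by ring) (by ring))).add (h3.mul hw.z))).cast
      (by ring) (by ring)).add ((h4.mul hC.z).cast (by ring) (by ring))

namespace Bg

/-- the parities of the background data -/
structure Sym (β : Bg W) : Prop where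
  k : Par 1 1 β.k
  s : Par 1 1 β.s
  C : VPar 1 1 β.C
  A : VPar (-1) 1 β.A
  B : VPar 1 (-1) β.B
  p : VPar 1 1 β.p
  q : VPar (-1) (-1) β.q
  w : VPar 1 1 β.w
  V : VPar 1 1 β.V
  Vj : VPar (-1) 1 β.Vj
  V2 : VPar 1 (-1) β.V2
  Vjj : VPar 1 1 β.Vjj
  Vj2 : VPar (-1) (-1) β.Vj2
  V22 : VPar 1 1 β.V22

/-- the parities of a jet of an even/even element -/
structure JPar (x : Fin 6 → W) : Prop where
  h0 : Par 1 1 (x 0)
  h1 : Par (-1) 1 (x 1)
  h2 : Par 1 (-1) (x 2)
  h3 : Par 1 1 (x 3)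
  h4 : Par (-1) (-1) (x 4)
  h5 : Par 1 1 (x 5)

variable {β : Bg W} {x : Fin 6 → W}

theorem Sym.parF (H : β.Sym) (hx : JPar x) : Par 1 1 (β.F x) := by
  have hC : VPar 1 1 (β.fC x) :=
    H.C.add ((VPar.mul_left hx.h0 H.V).cast (by ring) (by ring))
  have hA : VPar (-1) 1 (β.fA x) :=
    H.A.add (((VPar.mul_left hx.h0 H.Vj).cast (by ring) (by ring)).add
      ((VPar.mul_left hx.h1 H.V).cast (by ring) (by ring)))
  have hkV : VPar 1 1 (fun i => β.k * β.V i) :=
    (VPar.mul_left H.k H.V).cast (by ring) (by ring)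
  have hB : VPar 1 (-1) (β.fB x) :=
    H.B.add (((VPar.mul_left hx.h0 H.V2).cast (by ring) (by ring)).add
      ((VPar.mul_left hx.h2 hkV).cast (by ring) (by ring)))
  have h2Vj : VPar (-1) 1 (fun i => 2 * β.Vj i) :=
    (VPar.mul_left par_two H.Vj).cast (by ring) (by ring)
  have hp : VPar 1 1 (β.fp x) :=
    H.p.add ((((VPar.mul_left hx.h0 H.Vjj).cast (by ring) (by ring)).add
      ((VPar.mul_left hx.h1 h2Vj).cast (by ring) (by ring))).add
      ((VPar.mul_left hx.h3 H.V).cast (by ring) (by ring)))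
  have hkVj : VPar (-1) 1 (fun i => β.k * β.Vj i) :=
    (VPar.mul_left H.k H.Vj).cast (by ring) (by ring)
  have hq : VPar (-1) (-1) (β.fq x) :=
    H.q.add (((((VPar.mul_left hx.h0 H.Vj2).cast (by ring) (by ring)).add
      ((VPar.mul_left hx.h1 H.V2).cast (by ring) (by ring))).add
      ((VPar.mul_left hx.h2 hkVj).cast (by ring) (by ring))).add
      ((VPar.mul_left hx.h4 hkV).cast (by ring) (by ring)))
  have h2kV2 : VPar 1 (-1) (fun i => 2 * (β.k * β.V2 i)) :=
    (VPar.mul_left par_two (VPar.mul_left H.k H.V2)).cast (by ring) (by ring)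
  have hkkV : VPar 1 1 (fun i => β.k * β.k * β.V i) :=
    (VPar.mul_left (H.k.mul H.k) H.V).cast (by ring) (by ring)
  have hw : VPar 1 1 (β.fw x) :=
    H.w.add ((((VPar.mul_left hx.h0 H.V22).cast (by ring) (by ring)).add
      ((VPar.mul_left hx.h2 h2kV2).cast (by ring) (by ring))).add
      ((VPar.mul_left hx.h5 hkkV).cast (by ring) (by ring)))
  have sA := VPar.sm H.s hA
  have sB := VPar.sm H.s hB
  have sp := VPar.sm H.s hp
  have sq := VPar.sm H.s hq
  have sw := VPar.sm H.s hw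
  have hn := sA.crs sB
  have hg : Par 1 1 (D3S.eta (D3S.sm β.s (β.fA x)) (D3S.sm β.s (β.fA x)) *
      D3S.eta (D3S.sm β.s (β.fB x)) (β.fB x) -
      D3S.eta (D3S.sm β.s (β.fA x)) (D3S.sm β.s (β.fB x)) *
      D3S.eta (D3S.sm β.s (β.fA x)) (β.fB x)) :=
    Par.sub (((sA.eta sA).mul (sB.eta hB)).cast (by ring) (by ring))
      (((sA.eta sB).mul (sA.eta hB)).cast (by ring) (by ring))
  have hT := par_vT ((sB.eta sB).cast (a' := 1) (b' := 1) (by ring) (by ring))
    ((sA.eta sB).cast (a' := -1) (b' := -1) (by ring) (by ring))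
    ((sA.eta sA).cast (a' := 1) (b' := 1) (by ring) (by ring)) hg hC sp sq sw
  unfold F Phi
  exact (hT.dt hn).cast (by ring) (by ring)

/-- the jets of an even/even element -/
theorem JPar.of_jet {a b s : ℝ} (ha : 0 < a) (hb : 0 < b) (hs : 0 < s) {y : W} (hy : Par 1 1 y)
    {x : Fin 6 → W} (h0 : x 0 = jet a b s 0 0 y) (h1 : x 1 = jet a b s 1 0 y)
    (h2 : x 2 = jet a b s 0 1 y) (h3 : x 3 = jet a b s 2 0 y) (h4 : x 4 = jet a b s 1 1 y)
    (h5 : x 5 = jet a b s 0 2 y) : JPar x where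
  h0 := by rw [h0]; exact (par_jet ha hb hs (by norm_num) hy).cast (by norm_num) (by norm_num)
  h1 := by rw [h1]; exact (par_jet ha hb hs (by norm_num) hy).cast (by norm_num) (by norm_num)
  h2 := by rw [h2]; exact (par_jet ha hb hs (by norm_num) hy).cast (by norm_num) (by norm_num)
  h3 := by rw [h3]; exact (par_jet ha hb hs (by norm_num) hy).cast (by norm_num) (by norm_num)
  h4 := by rw [h4]; exact (par_jet ha hb hs (by norm_num) hy).cast (by norm_num) (by norm_num)
  h5 := by rw [h5]; exact (par_jet ha hb hs (by norm_num) hy).cast (by norm_num) (by norm_num)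

/-- a linear combination of jets with coefficients of the same parities is even/even -/
theorem par_lin {g x : Fin 6 → W} (hg : JPar g) (hx : JPar x) : Par 1 1 (∑ j, g j * x j) := by
  rw [Fin.sum_univ_six]
  refine ((((Par.add ?_ ?_).add ?_).add ?_).add ?_).add ?_
  · exact (hg.h0.mul hx.h0).cast (by norm_num) (by norm_num)
  · exact (hg.h1.mul hx.h1).cast (by norm_num) (by norm_num)
  · exact (hg.h2.mul hx.h2).cast (by norm_num) (by norm_num)
  · exact (hg.h3.mul hx.h3).cast (by norm_num) (by norm_num)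
  · exact (hg.h4.mul hx.h4).cast (by norm_num) (by norm_num)
  · exact (hg.h5.mul hx.h5).cast (by norm_num) (by norm_num)

end Bg

end Pool.MP_ce2c94_gt.D3S
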