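import Pool.Agent.H.MP_ce2c94_gt.D3.DChk
import Pool.Agent.H.MP_ce2c94_gt.D3.Exist
import Pool.Agent.H.MP_ce2c94_gt.D3Jet

set_option autoImplicit false

/-!
# The numerical hypotheses in the Wiener algebra

`Dat.B` is the background of the tables; `okD`, `resD` give the fields `ok`, `lin`, `unit`, `res` of
`D3E.Cert` from the Booleans of `DChk`.
-/

namespace Pool.MP_ce2c94_gt.D3C

open Pool.Agent.H.MP_ce2c94_gt.h46 Pool.MP_ce2c94_gt.W93 Pool.MP_ce2c94_gt.D3S D3W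

namespace Dat

variable (Δ : Dat)

/-- the position -/
noncomputable def C : D3.Hat W := D3.tabHat Δ.C0 Δ.C1 Δ.C2

/-- the direction -/
noncomputable def V : D3.Hat W := D3.tabHat Δ.V0 Δ.V1 Δ.V2

/-- the background -/
noncomputable def B : Bg W := D3.bgOf Δ.k (D3.baseJ Δ.s).f Δ.C Δ.V

/-- the approximate coefficients -/
noncomputable def G : Fin 6 → W :=
  ![(D3.baseJ Δ.g0).f, (D3.baseJ Δ.g1).f, (D3.baseJ Δ.g2).f, (D3.baseJ Δ.g3).f,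
    (D3.baseJ Δ.g4).f, (D3.baseJ Δ.g5).f]

theorem bg_eq (P : Par) (h : nu ^ (P.I0 + P.J0) ≤ 1 + 1 / 2 ^ P.k) :
    Δ.bg (D3.algW P h) = Δ.B := by
  have e : ((Δ.k : ℤ) : W) = ((Δ.k : ℕ) : W) := Int.cast_natCast _
  unfold bg bgW
  rw [e]
  rfl

theorem g_eq (P : Par) (h : nu ^ (P.I0 + P.J0) ≤ 1 + 1 / 2 ^ P.k) :
    Δ.g (D3.algW P h) = Δ.G := rfl

/-- The parities of the tables. -/
structure Sgn : Prop where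
  s : Δ.s.ε = 1 ∧ Δ.s.δ = 1
  C0 : Δ.C0.ε = 1 ∧ Δ.C0.δ = 1
  C1 : Δ.C1.ε = 1 ∧ Δ.C1.δ = -1
  C2 : Δ.C2.ε = -1 ∧ Δ.C2.δ = 1
  V0 : Δ.V0.ε = 1 ∧ Δ.V0.δ = 1
  V1 : Δ.V1.ε = 1 ∧ Δ.V1.δ = -1
  V2 : Δ.V2.ε = -1 ∧ Δ.V2.δ = 1

variable {Δ}

theorem Sgn.hC (h : Δ.Sgn) : D3.HPar Δ.C := D3.tabHat_par _ _ _ h.C0 h.C1 h.C2

theorem Sgn.hV (h : Δ.Sgn) : D3.HPar Δ.V := D3.tabHat_par _ _ _ h.V0 h.V1 h.V2

theorem Sgn.hs (h : Δ.Sgn) : Par 1 1 (D3.baseJ Δ.s).f :=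
  (D3.par_base Δ.s (by rw [h.s.1]; norm_num) (by rw [h.s.2]; norm_num)).cast
    (by rw [h.s.1]; norm_num) (by rw [h.s.2]; norm_num)

theorem Sgn.sym (h : Δ.Sgn) : Δ.B.Sym := D3.bgOf_sym h.hC h.hV h.hs Δ.k

end Dat

variable {E : Type*} [NormedAddCommGroup E] {D : Fin 6 → E →+ W} {dn : Fin 6 → ℝ}

/-- **The bounds, the linear part and the nondegeneracy.** -/
theorem okD {b W' h I0 J0 k : ℕ} {r r' : Rd} {Δ : Dat} {Λ : Lin} {S : SN}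
    (hk : (I0 + J0) * 2 ^ (k + 1) ≤ 2 ^ 20) (hD : ∀ j x, ‖D j x‖ ≤ dn j * ‖x‖)
    (hdn : ∀ j, dn j ≤ (Λ.M.f j : ℝ) / 2 ^ 20) (hc : chkD b W' h I0 J0 k r r' Δ Λ S = true) :
    Δ.B.Ok D (S.slots Λ.d) ∧
    ∑ j, ‖Δ.B.dF.d j - Δ.G j‖ * dn j ≤ (Λ.en : ℝ) / Λ.ed ∧
    ‖Δ.B.dF.d 3 - algebraMap ℝ W ((Λ.κn : ℝ) / 2 ^ Λ.κq)‖ < (Λ.κn : ℝ) / 2 ^ Λ.κq := by
  have hn : nu ^ ((par b W' h I0 J0 k).I0 + (par b W' h I0 J0 k).J0) ≤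
      1 + 1 / 2 ^ (par b W' h I0 J0 k).k := by
    simp only [par, mkPar, forceN_eq, id]
    exact D3.nu_pow_le hk
  have := chkD_sound (A := D3.algW _ hn) hD hdn hc
  rw [Dat.bg_eq, Dat.g_eq] at this
  exact this

/-- **The residual.** -/
theorem resD {b W' h I0 J0 k : ℕ} {r : Rd} {Δ : Dat} {Yn Yd : ℕ}
    (hk : (I0 + J0) * 2 ^ (k + 1) ≤ 2 ^ 20) (hc : chkR b W' h I0 J0 k r Δ Yn Yd = true) :
    ‖Δ.B.dF.v‖ ≤ (Yn : ℝ) / Yd := by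
  have hn : nu ^ ((par b W' h I0 J0 k).I0 + (par b W' h I0 J0 k).J0) ≤
      1 + 1 / 2 ^ (par b W' h I0 J0 k).k := by
    simp only [par, mkPar, forceN_eq, id]
    exact D3.nu_pow_le hk
  have := chkR_sound (A := D3.algW _ hn) hc
  rw [Dat.bg_eq] at this
  exact this

end Pool.MP_ce2c94_gt.D3C
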