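import Pool.Agent.H.MP_ce2c94_gt.D3.DBg

set_option autoImplicit false

/-!
# The numerical hypotheses of `D3.Exist` as Booleans

`chkD`: the bounds of all the leaves and nodes, the error of the approximate linear part, and the
nondegeneracy. `chkR`: the residual. `chkD_sound`, `chkR_sound`.
-/

namespace Pool.MP_ce2c94_gt.D3C

open Pool.Agent.H.MP_ce2c94_gt.h46 Pool.MP_ce2c94_gt.W93 Pool.MP_ce2c94_gt.D3S

/-! ### numbers -/

/-- numerators of a pair of bounds -/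
structure SP where
  A : ℕ
  l : ℕ

/-- three pairs -/
structure SV where
  x : SP
  y : SP
  z : SP

/-- numerators of `Slots` -/
structure SN where
  C : SV
  B : SV
  a : SV
  b : SV
  p : SV
  q : SV
  w : SV
  n : SV
  ebb : SP
  eab : SP
  eaa : SP
  ebB : SP
  eaB : SP
  g : SP
  T : SV

/-- the pair with denominator `d` -/
def SP.q (d : ℕ) (s : SP) : ℚ × ℚ := ((s.A : ℚ) / d, (s.l : ℚ) / d)

/-- the three pairs with denominator `d` -/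
def SV.q (d : ℕ) (s : SV) : Fin 3 → ℚ × ℚ := ![s.x.q d, s.y.q d, s.z.q d]

/-- the bounds with denominator `d` -/
def SN.slots (d : ℕ) (S : SN) : Slots where
  C := S.C.q d
  B := S.B.q d
  a := S.a.q d
  b := S.b.q d
  p := S.p.q d
  q := S.q.q d
  w := S.w.q d
  n := S.n.q d
  ebb := S.ebb.q d
  eab := S.eab.q d
  eaa := S.eaa.q d
  ebB := S.ebB.q d
  eaB := S.eaB.q d
  g := S.g.q d
  T := S.T.q d

/-- six multipliers, denominator `2^20` -/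
structure M6 where
  m0 : ℕ
  m1 : ℕ
  m2 : ℕ
  m3 : ℕ
  m4 : ℕ
  m5 : ℕ

/-! ### kernel functions -/

/-- adds `m ‖c‖ 2^Q` -/
def ctr (Q m : ℕ) (c : OC) (t : ℕ) (K : ℕ → Bool) : Bool :=
  match c with
  | .z => K t
  | .u => false
  | .c a => Nat.ble a.p Q && forceN (t + (a.s + a.e) * (m * 2 ^ (Q - a.p))) K

/-- the weighted sum of the norms of the coefficients is at most `l / d` -/
def chkL (Q d : ℕ) (M : M6) (d0 d1 d2 d3 d4 d5 : OC) (l : ℕ) : Bool :=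
  ctr Q M.m0 d0 0 fun t => ctr Q M.m1 d1 t fun t => ctr Q M.m2 d2 t fun t =>
  ctr Q M.m3 d3 t fun t => ctr Q M.m4 d4 t fun t => ctr Q M.m5 d5 t fun t =>
  Nat.ble (t * d) (l * 2 ^ (20 + Q))

/-- the norm is at most `A / d` -/
def chkA (d : ℕ) (c : OC) (A : ℕ) : Bool :=
  match c with
  | .z => true
  | .u => false
  | .c a => Nat.ble ((a.s + a.e) * d) (A * 2 ^ a.p)

/-- the norm is less than `n / 2^q` -/
def chkK (c : OC) (n q : ℕ) : Bool :=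
  match c with
  | .z => Nat.ble 1 n
  | .u => false
  | .c a => Nat.ble ((a.s + a.e) * 2 ^ q + 1) (n * 2 ^ a.p)

/-- the bounds of a dual cell -/
def chkS (Q d : ℕ) (M : M6) (x : DC) (s : SP) : Bool :=
  chkA d x.v s.A && chkL Q d M x.d0 x.d1 x.d2 x.d3 x.d4 x.d5 s.l

/-- the bounds of three dual cells -/
def chkV (Q d : ℕ) (M : M6) (x : DV) (s : SV) : Bool :=
  chkS Q d M x.x s.x && chkS Q d M x.y s.y && chkS Q d M x.z s.z

/-- the bounds of the leaves and nodes -/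
def chkLN (Q d : ℕ) (M : M6) (L : LV) (N : NV) (S : SN) : Bool :=
  chkV Q d M L.C S.C && chkV Q d M L.B S.B && chkV Q d M L.a S.a && chkV Q d M L.b S.b &&
  chkV Q d M L.p S.p && chkV Q d M L.q S.q && chkV Q d M L.w S.w && chkV Q d M N.n S.n &&
  chkS Q d M N.ebb S.ebb && chkS Q d M N.eab S.eab && chkS Q d M N.eaa S.eaa &&
  chkS Q d M N.ebB S.ebB && chkS Q d M N.eaB S.eaB && chkS Q d M N.g S.g && chkV Q d M N.T S.T

/-- the data of the problem -/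
structure Dat where
  /-- the frequency -/
  k : ℕ
  /-- the normaliser -/
  s : Base
  /-- the position -/
  C0 : Base
  C1 : Base
  C2 : Base
  /-- the direction -/
  V0 : Base
  V1 : Base
  V2 : Base
  /-- the approximate coefficients -/
  g0 : Base
  g1 : Base
  g2 : Base
  g3 : Base
  g4 : Base
  g5 : Base

/-- the parameters of the test of the linear part -/
structure Lin where
  /-- precision of the sums -/
  Q : ℕ
  /-- denominator of the slots -/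
  d : ℕ
  /-- the multipliers -/
  M : M6
  /-- numerator and denominator of the error -/
  en : ℕ
  ed : ℕ
  /-- the number `κn / 2^κq` -/
  κn : ℕ
  κq : ℕ

/-- the difference of a cell and a table, with its norm -/
def difO (P : Par) (r : Rd) (x : OC) (B : Base) : Option OC :=
  bnd (ldO P r B 0 0) fun g => bnd (addO P x (negO g)) fun y => nrmO P y

/-- the test of the linear part -/
def chkF (P : Par) (r r' : Rd) (D : Dat) (Λ : Lin) (T n : DV) : Option Bool :=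
  dtD P r r' T n fun F =>
  bnd (bnd (addO P F.d3 (.c (hlfC Λ.κq (cstC P (-Λ.κn))))) fun y => nrmO P y) fun y =>
  match chkK y Λ.κn Λ.κq with
  | false => none
  | true =>
    bnd (difO P r' F.d0 D.g0) fun d0 => bnd (difO P r' F.d1 D.g1) fun d1 =>
    bnd (difO P r' F.d2 D.g2) fun d2 => bnd (difO P r' F.d3 D.g3) fun d3 =>
    bnd (difO P r' F.d4 D.g4) fun d4 => bnd (difO P r' F.d5 D.g5) fun d5 =>
    some (chkL Λ.Q Λ.ed Λ.M d0 d1 d2 d3 d4 d5 Λ.en)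

/-- the bounds, the linear part and the nondegeneracy -/
def chkD (b W h I0 J0 k : ℕ) (r r' : Rd) (D : Dat) (Λ : Lin) (S : SN) : Bool :=
  mkPar b W h I0 J0 k fun P => P.ok && Nat.ble 1 Λ.d && Nat.ble 1 Λ.ed &&
    match evalBg P r r' D.k D.s D.C0 D.C1 D.C2 D.V0 D.V1 D.V2 fun L N =>
      match chkLN Λ.Q Λ.d Λ.M L N S with
      | false => none
      | true => chkF P r r' D Λ N.T N.n with
    | some c => c
    | none => false

/-- the residual is at most `Yn / Yd` -/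
def chkR (b W h I0 J0 k : ℕ) (r : Rd) (D : Dat) (Yn Yd : ℕ) : Bool :=
  mkPar b W h I0 J0 k fun P => P.ok && Nat.ble 1 Yd &&
    match evalVal P r D.k D.s D.C0 D.C1 D.C2 fun _ N =>
      dtD P r r N.T N.n fun F => some (chkA Yd F.v Yn) with
    | some c => c
    | none => false

/-! ### soundness -/

section
variable {P : Par} {W : Type*} [NormedCommRing W] [NormedAlgebra ℝ W] {A : Alg P W}

theorem Enc.mul_le {x : W} {a : Cell} (h : Enc A x a) : ‖x‖ * 2 ^ a.p ≤ a.s + a.e := by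
  have := h.norm_le
  rwa [le_div_iff₀ (by positivity)] at this

theorem ctr_sound {Q m t : ℕ} {c : OC} {x : W} (hx : EncO A x c) {K : ℕ → Bool}
    (h : ctr Q m c t K = true) : ∃ t' : ℕ, (t : ℝ) + ‖x‖ * m * 2 ^ Q ≤ t' ∧ K t' = true := by
  cases c with
  | z =>
    change x = 0 at hx
    exact ⟨t, by rw [hx]; simp, h⟩
  | u => exact absurd h (by simp [ctr])
  | c a =>
    simp only [ctr, Bool.and_eq_true, Nat.ble_eq, forceN_eq] at h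
    obtain ⟨h1, h2⟩ := h
    refine ⟨_, ?_, h2⟩
    push_cast
    have h3 := Enc.mul_le (A := A) hx
    have h4 : (2 : ℝ) ^ Q = 2 ^ a.p * 2 ^ (Q - a.p) := by
      rw [← pow_add]
      congr 1
      omega
    rw [h4]
    have h5 : ‖x‖ * m * (2 ^ a.p * 2 ^ (Q - a.p)) = (‖x‖ * 2 ^ a.p) * (m * 2 ^ (Q - a.p)) := by
      ring
    rw [h5]
    gcongr

theorem chkA_sound {d n : ℕ} (hd : 1 ≤ d) {c : OC} {x : W} (hx : EncO A x c)
    (h : chkA d c n = true) : ‖x‖ ≤ (n : ℝ) / d := by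
  have hd' : (0 : ℝ) < d := by exact_mod_cast hd
  cases c with
  | z =>
    change x = 0 at hx
    rw [hx, norm_zero]
    positivity
  | u => exact absurd h (by simp [chkA])
  | c a =>
    simp only [chkA, Nat.ble_eq] at h
    have h3 := Enc.mul_le (A := A) hx
    rw [le_div_iff₀ hd']
    have h4 : ((a.s : ℝ) + a.e) * d ≤ n * 2 ^ a.p := by exact_mod_cast h
    have h5 : (0 : ℝ) < 2 ^ a.p := by positivity
    have h6 : ‖x‖ * d * 2 ^ a.p ≤ n * 2 ^ a.p := by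
      calc ‖x‖ * d * 2 ^ a.p = ‖x‖ * 2 ^ a.p * d := by ring
        _ ≤ (a.s + a.e) * d := by gcongr
        _ ≤ n * 2 ^ a.p := h4
    exact le_of_mul_le_mul_right h6 h5

theorem chkK_sound {n q : ℕ} {c : OC} {x : W} (hx : EncO A x c) (h : chkK c n q = true) :
    ‖x‖ < (n : ℝ) / 2 ^ q := by
  cases c with
  | z =>
    change x = 0 at hx
    simp only [chkK, Nat.ble_eq] at h
    have : (0 : ℝ) < n := by exact_mod_cast h
    rw [hx, norm_zero]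
    positivity
  | u => exact absurd h (by simp [chkK])
  | c a =>
    simp only [chkK, Nat.ble_eq] at h
    have h3 := Enc.mul_le (A := A) hx
    rw [lt_div_iff₀ (by positivity)]
    have h4 : ((a.s : ℝ) + a.e) * 2 ^ q + 1 ≤ n * 2 ^ a.p := by exact_mod_cast h
    have h5 : (0 : ℝ) < 2 ^ a.p := by positivity
    have h6 : ‖x‖ * 2 ^ q * 2 ^ a.p < n * 2 ^ a.p := by
      calc ‖x‖ * 2 ^ q * 2 ^ a.p = ‖x‖ * 2 ^ a.p * 2 ^ q := by ring
        _ ≤ (a.s + a.e) * 2 ^ q := by gcongr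
        _ < n * 2 ^ a.p := by linarith
    exact lt_of_mul_lt_mul_right h6 h5.le

/-- the multipliers as a function -/
def M6.f (M : M6) : Fin 6 → ℕ := ![M.m0, M.m1, M.m2, M.m3, M.m4, M.m5]

theorem chkL_sound {Q d l : ℕ} (hd : 1 ≤ d) {M : M6} {d0 d1 d2 d3 d4 d5 : OC} {δ : Fin 6 → W}
    (h0 : EncO A (δ 0) d0) (h1 : EncO A (δ 1) d1) (h2 : EncO A (δ 2) d2) (h3 : EncO A (δ 3) d3)
    (h4 : EncO A (δ 4) d4) (h5 : EncO A (δ 5) d5) (h : chkL Q d M d0 d1 d2 d3 d4 d5 l = true)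
    {dn : Fin 6 → ℝ} (hdn : ∀ j, dn j ≤ (M.f j : ℝ) / 2 ^ 20) :
    ∑ j, ‖δ j‖ * dn j ≤ (l : ℝ) / d := by
  have hd' : (0 : ℝ) < d := by exact_mod_cast hd
  obtain ⟨t0, e0, h⟩ := ctr_sound h0 h
  obtain ⟨t1, e1, h⟩ := ctr_sound h1 h
  obtain ⟨t2, e2, h⟩ := ctr_sound h2 h
  obtain ⟨t3, e3, h⟩ := ctr_sound h3 h
  obtain ⟨t4, e4, h⟩ := ctr_sound h4 h
  obtain ⟨t5, e5, h⟩ := ctr_sound h5 h
  rw [Nat.ble_eq] at h
  have h' : (t5 : ℝ) * d ≤ l * 2 ^ (20 + Q) := by exact_mod_cast h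
  have s1 : ∑ j, ‖δ j‖ * dn j ≤ ∑ j, ‖δ j‖ * ((M.f j : ℝ) / 2 ^ 20) :=
    Finset.sum_le_sum fun j _ => mul_le_mul_of_nonneg_left (hdn j) (norm_nonneg _)
  have s2 : ∑ j, ‖δ j‖ * ((M.f j : ℝ) / 2 ^ 20) = (‖δ 0‖ * M.m0 + ‖δ 1‖ * M.m1 + ‖δ 2‖ * M.m2 +
      ‖δ 3‖ * M.m3 + ‖δ 4‖ * M.m4 + ‖δ 5‖ * M.m5) / 2 ^ 20 := by
    simp only [Fin.sum_univ_six, M6.f, Matrix.cons_val_zero, Matrix.cons_val_one,
      Matrix.cons_val]
    ring
  have s3 : (‖δ 0‖ * M.m0 + ‖δ 1‖ * M.m1 + ‖δ 2‖ * M.m2 +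
      ‖δ 3‖ * M.m3 + ‖δ 4‖ * M.m4 + ‖δ 5‖ * M.m5) * 2 ^ Q ≤ t5 := by
    push_cast at e0
    linarith
  refine s1.trans ?_
  rw [s2, div_le_div_iff₀ (by positivity) hd']
  have h6 : (0 : ℝ) < 2 ^ Q := by positivity
  refine le_of_mul_le_mul_right ?_ h6
  calc (‖δ 0‖ * M.m0 + ‖δ 1‖ * M.m1 + ‖δ 2‖ * M.m2 + ‖δ 3‖ * M.m3 + ‖δ 4‖ * M.m4 +
      ‖δ 5‖ * M.m5) * d * 2 ^ Q = (‖δ 0‖ * M.m0 + ‖δ 1‖ * M.m1 + ‖δ 2‖ * M.m2 +
      ‖δ 3‖ * M.m3 + ‖δ 4‖ * M.m4 + ‖δ 5‖ * M.m5) * 2 ^ Q * d := by ring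
    _ ≤ t5 * d := by gcongr
    _ ≤ l * 2 ^ (20 + Q) := h'
    _ = l * 2 ^ 20 * 2 ^ Q := by rw [pow_add]; ring

variable {E : Type*} [NormedAddCommGroup E] {D : Fin 6 → E →+ W} {dn : Fin 6 → ℝ}

theorem chkS_sound {Q d : ℕ} (hd : 1 ≤ d) {M : M6} {x : DC} {δ : Du W (Fin 6)} {s : SP}
    (hx : EncD A δ x) (h : chkS Q d M x s = true) (hD : ∀ j x, ‖D j x‖ ≤ dn j * ‖x‖)
    (hdn : ∀ j, dn j ≤ (M.f j : ℝ) / 2 ^ 20) : Bnd D δ (s.q d) := by
  rw [chkS, Bool.and_eq_true] at h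
  refine Bnd.of hD ?_ ?_ ?_ ?_
  · simp only [SP.q]; positivity
  · simp only [SP.q]; positivity
  · have := chkA_sound hd hx.v h.1
    simp only [SP.q]
    push_cast
    exact this
  · have := chkL_sound hd hx.d0 hx.d1 hx.d2 hx.d3 hx.d4 hx.d5 h.2 hdn
    simp only [SP.q]
    push_cast
    exact this

theorem chkV_sound {Q d : ℕ} (hd : 1 ≤ d) {M : M6} {x : DV} {δ : Fin 3 → Du W (Fin 6)} {s : SV}
    (hx : EncV A δ x) (h : chkV Q d M x s = true) (hD : ∀ j x, ‖D j x‖ ≤ dn j * ‖x‖)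
    (hdn : ∀ j, dn j ≤ (M.f j : ℝ) / 2 ^ 20) (i : Fin 3) : Bnd D (δ i) (s.q d i) := by
  rw [chkV, Bool.and_eq_true, Bool.and_eq_true] at h
  fin_cases i
  · exact chkS_sound hd hx.x h.1.1 hD hdn
  · exact chkS_sound hd hx.y h.1.2 hD hdn
  · exact chkS_sound hd hx.z h.2 hD hdn

theorem chkLN_sound {Q d : ℕ} (hd : 1 ≤ d) {M : M6} {L : LV} {N : NV} {S : SN} {b : Bg W}
    (hL : EncL A b L) (hN : EncN A b N) (h : chkLN Q d M L N S = true)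
    (hD : ∀ j x, ‖D j x‖ ≤ dn j * ‖x‖) (hdn : ∀ j, dn j ≤ (M.f j : ℝ) / 2 ^ 20) :
    b.Ok D (S.slots d) := by
  simp only [chkLN, Bool.and_eq_true] at h
  obtain ⟨⟨⟨⟨⟨⟨⟨⟨⟨⟨⟨⟨⟨⟨h1, h2⟩, h3⟩, h4⟩, h5⟩, h6⟩, h7⟩, h8⟩, h9⟩, h10⟩, h11⟩, h12⟩, h13⟩, h14⟩,
    h15⟩ := h
  exact ⟨chkV_sound hd hL.C h1 hD hdn, chkV_sound hd hL.B h2 hD hdn, chkV_sound hd hL.a h3 hD hdn,
    chkV_sound hd hL.b h4 hD hdn, chkV_sound hd hL.p h5 hD hdn, chkV_sound hd hL.q h6 hD hdn,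
    chkV_sound hd hL.w h7 hD hdn, chkV_sound hd hN.n h8 hD hdn, chkS_sound hd hN.ebb h9 hD hdn,
    chkS_sound hd hN.eab h10 hD hdn, chkS_sound hd hN.eaa h11 hD hdn,
    chkS_sound hd hN.ebB h12 hD hdn, chkS_sound hd hN.eaB h13 hD hdn,
    chkS_sound hd hN.g h14 hD hdn, chkV_sound hd hN.T h15 hD hdn⟩

theorem difO_sound (hP : P.Ok) {r : Rd} {x : OC} {v : W} (hx : EncO A v x) {B : Base} {c : OC}
    (h : difO P r x B = some c) : EncO A (v - (jetW A B).f) c := by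
  obtain ⟨g, hg, h⟩ := bnd_eq h
  obtain ⟨y, hy, h⟩ := bnd_eq h
  exact nrmO_sound hP (subO_sound hx (ldO_sound hP hg) hy) h

/-- the approximate coefficients -/
noncomputable def Dat.g (A : Alg P W) (Δ : Dat) : Fin 6 → W :=
  ![(jetW A Δ.g0).f, (jetW A Δ.g1).f, (jetW A Δ.g2).f, (jetW A Δ.g3).f, (jetW A Δ.g4).f,
    (jetW A Δ.g5).f]

/-- the background -/
noncomputable def Dat.bg (A : Alg P W) (Δ : Dat) : Bg W :=
  bgW A Δ.k Δ.s Δ.C0 Δ.C1 Δ.C2 Δ.V0 Δ.V1 Δ.V2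

theorem chkF_sound (hP : P.Ok) {r r' : Rd} {Δ : Dat} {Λ : Lin} (hd : 1 ≤ Λ.ed) {b : Bg W}
    {T n : DV} (hT : EncV A b.dT T) (hn : EncV A b.dn n)
    (h : chkF P r r' Δ Λ T n = some true) (hdn : ∀ j, dn j ≤ (Λ.M.f j : ℝ) / 2 ^ 20) :
    ∑ j, ‖b.dF.d j - Δ.g A j‖ * dn j ≤ (Λ.en : ℝ) / Λ.ed ∧
      ‖b.dF.d 3 - algebraMap ℝ W ((Λ.κn : ℝ) / 2 ^ Λ.κq)‖ < (Λ.κn : ℝ) / 2 ^ Λ.κq := by
  obtain ⟨F, hF, h⟩ := dtD_sound hP hT hn h
  obtain ⟨y, hy, h⟩ := bnd_eq h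
  obtain ⟨y', hy', hy⟩ := bnd_eq hy
  have hc : EncO A ((((2 : ℝ) ^ Λ.κq)⁻¹) • (((-Λ.κn : ℤ)) : W))
      (.c (hlfC Λ.κq (cstC P (-Λ.κn)))) := hlfC_sound (cstC_sound A _)
  have k1 := nrmO_sound hP (addO_sound hF.d3 hc hy') hy
  have e1 : (dDt b.dT b.dn).d 3 + (((2 : ℝ) ^ Λ.κq)⁻¹) • (((-Λ.κn : ℤ)) : W) =
      b.dF.d 3 - algebraMap ℝ W ((Λ.κn : ℝ) / 2 ^ Λ.κq) := by
    change b.dF.d 3 + _ = _
    rw [sub_eq_add_neg]
    congr 1
    rw [Int.cast_neg, smul_neg, Int.cast_natCast, Algebra.algebraMap_eq_smul_one, div_eq_inv_mul,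
      mul_smul, ← nsmul_one Λ.κn, Nat.cast_smul_eq_nsmul]
  rw [e1] at k1
  split at h
  · exact absurd h (by simp)
  · rename_i hk
    refine ⟨?_, chkK_sound k1 hk⟩
    obtain ⟨d0, h0, h⟩ := bnd_eq h
    obtain ⟨d1, h1, h⟩ := bnd_eq h
    obtain ⟨d2, h2, h⟩ := bnd_eq h
    obtain ⟨d3, h3, h⟩ := bnd_eq h
    obtain ⟨d4, h4, h⟩ := bnd_eq h
    obtain ⟨d5, h5, h⟩ := bnd_eq h
    rw [Option.some.injEq] at h
    exact chkL_sound hd (δ := fun j => b.dF.d j - Δ.g A j) (difO_sound hP hF.d0 h0)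
      (difO_sound hP hF.d1 h1) (difO_sound hP hF.d2 h2) (difO_sound hP hF.d3 h3)
      (difO_sound hP hF.d4 h4) (difO_sound hP hF.d5 h5) h hdn

end

section
variable {W : Type*} [NormedCommRing W] [NormedAlgebra ℝ W] {E : Type*} [NormedAddCommGroup E]
  {D : Fin 6 → E →+ W} {dn : Fin 6 → ℝ}

/-- **The bounds, the linear part and the nondegeneracy.** -/
theorem chkD_sound {b W' h I0 J0 k : ℕ} {A : Alg (par b W' h I0 J0 k) W} {r r' : Rd} {Δ : Dat}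
    {Λ : Lin} {S : SN} (hD : ∀ j x, ‖D j x‖ ≤ dn j * ‖x‖)
    (hdn : ∀ j, dn j ≤ (Λ.M.f j : ℝ) / 2 ^ 20) (hc : chkD b W' h I0 J0 k r r' Δ Λ S = true) :
    (Δ.bg A).Ok D (S.slots Λ.d) ∧
    ∑ j, ‖(Δ.bg A).dF.d j - Δ.g A j‖ * dn j ≤ (Λ.en : ℝ) / Λ.ed ∧
    ‖(Δ.bg A).dF.d 3 - algebraMap ℝ W ((Λ.κn : ℝ) / 2 ^ Λ.κq)‖ < (Λ.κn : ℝ) / 2 ^ Λ.κq := by
  unfold chkD at hc
  rw [mkPar_eq, Bool.and_eq_true, Bool.and_eq_true, Bool.and_eq_true, Nat.ble_eq, Nat.ble_eq] at hc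
  obtain ⟨⟨⟨hP, hd⟩, hed⟩, hc⟩ := hc
  have hP := Par.ok_iff _ hP
  split at hc
  · rename_i c h1
    subst hc
    obtain ⟨L, N, hL, hN, h2⟩ := evalBg_sound (A := A) hP h1
    split at h2
    · exact absurd h2 (by simp)
    · rename_i h3
      refine ⟨chkLN_sound hd hL hN h3 hD hdn, ?_⟩
      exact chkF_sound hP hed hN.T hN.n h2 hdn
  · exact absurd hc (by simp)

/-- **The residual.** -/
theorem chkR_sound {b W' h I0 J0 k : ℕ} {A : Alg (par b W' h I0 J0 k) W} {r : Rd} {Δ : Dat}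
    {Yn Yd : ℕ} (hc : chkR b W' h I0 J0 k r Δ Yn Yd = true) :
    ‖(Δ.bg A).dF.v‖ ≤ (Yn : ℝ) / Yd := by
  unfold chkR at hc
  rw [mkPar_eq, Bool.and_eq_true, Bool.and_eq_true, Nat.ble_eq] at hc
  obtain ⟨⟨hP, hd⟩, hc⟩ := hc
  have hP := Par.ok_iff _ hP
  split at hc
  · rename_i c h1
    subst hc
    obtain ⟨L, N, hL, hN, h2⟩ := evalVal_sound (A := A) hP (jetW A Δ.V0) (jetW A Δ.V1)
      (jetW A Δ.V2) h1
    obtain ⟨F, hF, h3⟩ := dtD_sound hP hN.T hN.n h2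
    rw [Option.some.injEq] at h3
    exact chkA_sound hd hF.v h3
  · exact absurd hc (by simp)

end

end Pool.MP_ce2c94_gt.D3C
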