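import Pool.Agent.H.MP_ce2c94_gt.D3.Cover
import Pool.Agent.H.MP_ce2c94_gt.D3.ColTab
import Pool.Agent.H.MP_ce2c94_gt.D3.DCert

set_option autoImplicit false

/-!
# Existence of a zero from the Boolean checks

`HasInv` is the existence of the approximate right inverse; `hasInv_of_checks` produces it from
`tailChk`, `coverChk` and the columns. `exists_zero_of` is the existence theorem with `HasInv`, and
`exists_zero_dat` the one for tables, with the Booleans `chkD`, `chkR`.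
-/

namespace Pool.MP_ce2c94_gt.D3E

open D3W D3S W93 D3C Pool.Agent.H.MP_ce2c94_gt.h46

noncomputable section

theorem rle {x y : ℚ} (h : x ≤ y) : (x : ℝ) ≤ (y : ℝ) := by exact_mod_cast h

/-- An approximate right inverse of norm at most `α` with defect at most `z`. -/
def HasInv (P : Prm) (g : Fin 6 → W) (α z : ℝ) : Prop :=
  ∃ A : W →L[ℝ] W, (∀ y, ‖A y‖ ≤ α * ‖y‖) ∧ (∀ y, A y ∈ WS) ∧
    ∀ y ∈ WS, ‖y - ∑ j, g j * P.D j (A y)‖ ≤ z * ‖y‖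

/-- The existence theorem. -/
theorem exists_zero_of {β : Bg W} {g : Fin 6 → W} {c : Cst} (num : c.Num) (sym : β.Sym)
    (ok : β.Ok c.P.D c.S) (res : ‖β.dF.v‖ ≤ c.Y) (lin : ∑ j, ‖β.dF.d j - g j‖ * c.P.dn j ≤ c.e)
    (unit : ‖β.dF.d 3 - algebraMap ℝ W c.κ‖ < c.κ) (inv : HasInv c.P g c.α c.z) :
    IsUnit β.s ∧ ∃ y ∈ WS, ‖y‖ ≤ c.ρ ∧ β.F (Bg.jt c.P.D y) = 0 := by
  obtain ⟨A, h1, h2, h3⟩ := inv
  have hC : Cert β g A c := ⟨num, sym, ok, res, lin, unit, fun y _ => h2 y, fun y _ => h1 y, h3⟩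
  exact ⟨hC.isUnit_s, hC.exists_zero⟩

/-- The sum of the errors from the errors. -/
theorem lin_of {β : Bg W} {g : Fin 6 → W} {P : Prm} (hP : P.Ok) {e0 e1 e2 e3 e4 e5 e : ℝ}
    (h0 : ‖β.dF.d 0 - g 0‖ ≤ e0) (h1 : ‖β.dF.d 1 - g 1‖ ≤ e1) (h2 : ‖β.dF.d 2 - g 2‖ ≤ e2)
    (h3 : ‖β.dF.d 3 - g 3‖ ≤ e3) (h4 : ‖β.dF.d 4 - g 4‖ ≤ e4) (h5 : ‖β.dF.d 5 - g 5‖ ≤ e5)
    (he : e0 * P.d0 + e1 * P.d1 + e2 * P.d2 + e3 * P.d3 + e4 * P.d4 + e5 * P.d5 ≤ e) :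
    ∑ j, ‖β.dF.d j - g j‖ * P.dn j ≤ e := by
  have hd0 : (0 : ℝ) ≤ P.d0 := by exact_mod_cast hP.d0
  have hd1 : (0 : ℝ) ≤ P.d1 := by exact_mod_cast hP.d1
  have hd2 : (0 : ℝ) ≤ P.d2 := by exact_mod_cast hP.d2
  have hd3 : (0 : ℝ) ≤ P.d3 := by exact_mod_cast hP.d3
  have hd4 : (0 : ℝ) ≤ P.d4 := by exact_mod_cast hP.d4
  have hd5 : (0 : ℝ) ≤ P.d5 := by exact_mod_cast hP.d5
  have m0 := mul_le_mul_of_nonneg_right h0 hd0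
  have m1 := mul_le_mul_of_nonneg_right h1 hd1
  have m2 := mul_le_mul_of_nonneg_right h2 hd2
  have m3 := mul_le_mul_of_nonneg_right h3 hd3
  have m4 := mul_le_mul_of_nonneg_right h4 hd4
  have m5 := mul_le_mul_of_nonneg_right h5 hd5
  have w0 : P.dn 0 = P.d0 := rfl
  have w1 : P.dn 1 = P.d1 := rfl
  have w2 : P.dn 2 = P.d2 := rfl
  have w3 : P.dn 3 = P.d3 := rfl
  have w4 : P.dn 4 = P.d4 := rfl
  have w5 : P.dn 5 = P.d5 := rfl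
  rw [Fin.sum_univ_six, w0, w1, w2, w3, w4, w5]
  linarith

/-- Nondegeneracy with `κ = a`. -/
theorem unit_of {x g3 g5 : W} {a b nG nH e3 : ℝ} (a0 : 0 < a)
    (hG : ‖(1 / (2 * a)) • g3 - (1 / (2 * b)) • g5‖ ≤ nG)
    (hH : ‖(1 / (2 * a)) • g3 + (1 / (2 * b)) • g5 - 1‖ ≤ nH) (h3 : ‖x - g3‖ ≤ e3)
    (hu : a * (nH + nG) + e3 < a) : ‖x - algebraMap ℝ W a‖ < a := by
  have e1 : g3 - algebraMap ℝ W a
      = a • ((1 / (2 * a)) • g3 + (1 / (2 * b)) • g5 - 1)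
      + a • ((1 / (2 * a)) • g3 - (1 / (2 * b)) • g5) := by
    rw [Algebra.algebraMap_eq_smul_one, smul_sub, smul_sub, smul_add, smul_smul, smul_smul]
    have e2 : a * (1 / (2 * a)) = 1 / 2 := by field_simp
    rw [e2]
    module
  have e3' : x - algebraMap ℝ W a = (g3 - algebraMap ℝ W a) + (x - g3) := by abel
  have n1 : ‖g3 - algebraMap ℝ W a‖ ≤ a * (nH + nG) := by
    rw [e1, mul_add]
    refine (norm_add_le _ _).trans (add_le_add ?_ ?_)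
    · rw [norm_smul, Real.norm_eq_abs, abs_of_pos a0]
      exact mul_le_mul_of_nonneg_left hH a0.le
    · rw [norm_smul, Real.norm_eq_abs, abs_of_pos a0]
      exact mul_le_mul_of_nonneg_left hG a0.le
  rw [e3']
  have n2 := norm_add_le (g3 - algebraMap ℝ W a) (x - g3)
  linarith

/-! ### the approximate right inverse -/

theorem ColOK.mono {a b s : ℝ} {g : Fin 6 → W} {α z α' z' : ℝ} {k : ℤ × ℤ}
    (h : ColOK a b s g α z k) (hα : α ≤ α') (hz : z ≤ z') : ColOK a b s g α' z' k := by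
  obtain ⟨ψ, h1, h2, h3⟩ := h
  exact ⟨ψ, h1, h2.trans hα, h3.trans hz⟩

/-- The approximate right inverse, from the columns. -/
theorem hasInv_of {P : Prm} (hP : P.Ok) {g : Fin 6 → W} {K α z nG nH n0 n1 n2 n4 Q1 Q2 : ℝ}
    (hK : 0 < K)
    (hG : ‖(1 / (2 * (P.a : ℝ))) • g 3 - (1 / (2 * (P.b : ℝ))) • g 5‖ ≤ nG)
    (hH : ‖(1 / (2 * (P.a : ℝ))) • g 3 + (1 / (2 * (P.b : ℝ))) • g 5 - 1‖ ≤ nH)
    (h0 : ‖g 0‖ ≤ n0) (h1 : ‖g 1‖ ≤ n1) (h2 : ‖g 2‖ ≤ n2) (h4 : ‖g 4‖ ≤ n4)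
    (hQ1 : 0 ≤ Q1) (hQ2 : 0 ≤ Q2)
    (c1 : nG ^ 2 + n4 ^ 2 / (4 * P.a * P.b) ≤ Q1 ^ 2)
    (c2 : n1 ^ 2 / P.a + n2 ^ 2 / P.b ≤ Q2 ^ 2)
    (hz : Q1 + nH + Q2 / K + n0 / K ^ 2 ≤ z) (hα : 1 + P.s / K ^ 2 ≤ α)
    (cols : ∀ j m : ℕ, (P.a : ℝ) * (j : ℝ) ^ 2 + (P.b : ℝ) * (m : ℝ) ^ 2 < K ^ 2 →
      ColOK P.a P.b P.s g α z ((j : ℤ), (m : ℤ))) : HasInv P g α z := by
  obtain ⟨A, hA, hA1, hA2⟩ := exists_rinv (a := P.a) (b := P.b) (s := P.s)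
    (by exact_mod_cast hP.a0) (by exact_mod_cast hP.b0) (by exact_mod_cast hP.s0) g hK hG hH h0 h1
    h2 h4 hQ1 hQ2 c1 c2 hz hα cols
  refine ⟨A, hA, hA1, fun y hy => ?_⟩
  have e1 : ∑ j, g j * P.D j (A y) = ∑ j, g j * dj P.a P.b P.s j (A y) :=
    Finset.sum_congr rfl fun j _ => by rw [P.D_eq]
  rw [e1]
  exact hA2 y hy

/-- Columns from a list of tables. -/
theorem cols_map {Q : ℤ × ℤ → Prop} {L : List (ℕ × ℕ × Base)}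
    (h : ∀ x ∈ L, Q ((x.1 : ℤ), (x.2.1 : ℤ))) :
    ∀ x ∈ L.map fun x => (x.1, x.2.1), Q ((x.1 : ℤ), (x.2 : ℤ)) := by
  intro x hx
  obtain ⟨y, hy, rfl⟩ := List.mem_map.1 hx
  exact h y hy

theorem cols_append {Q : ℤ × ℤ → Prop} {l l' : List (ℕ × ℕ)}
    (h : ∀ x ∈ l, Q ((x.1 : ℤ), (x.2 : ℤ))) (h' : ∀ x ∈ l', Q ((x.1 : ℤ), (x.2 : ℤ))) :
    ∀ x ∈ l ++ l', Q ((x.1 : ℤ), (x.2 : ℤ)) := by
  intro x hx
  rcases List.mem_append.1 hx with hx | hx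
  · exact h x hx
  · exact h' x hx

/-- **The approximate right inverse, from the checks.** -/
theorem hasInv_of_checks {P : Prm} (hP : P.Ok) {an bn sn d : ℕ} (ha0 : 0 < an) (hb0 : 0 < bn)
    (hd0 : 0 < d) (ha : P.a = an / d) (hb : P.b = bn / d) (hs : P.s = sn / d)
    {G0 G1 G2 G3 G4 G5 : Base} {b W' h I0 J0 k q nG nH n0 n1 n2 n4 : ℕ}
    (ht : tailChk b W' h I0 J0 k G0 G1 G2 G3 G4 G5 an bn d q nG nH n0 n1 n2 n4 = true)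
    {K α z Q1 Q2 : ℚ} (hK : 0 < K) (hQ1 : 0 ≤ Q1) (hQ2 : 0 ≤ Q2)
    (c1 : ((d : ℚ) * nG / 2 ^ q / (2 * an * bn)) ^ 2 + ((n4 : ℚ) / 2 ^ q) ^ 2 / (4 * P.a * P.b)
      ≤ Q1 ^ 2)
    (c2 : ((n1 : ℚ) / 2 ^ q) ^ 2 / P.a + ((n2 : ℚ) / 2 ^ q) ^ 2 / P.b ≤ Q2 ^ 2)
    (hz : Q1 + (nH : ℚ) / 2 ^ q / (2 * an * bn) + Q2 / K + ((n0 : ℚ) / 2 ^ q) / K ^ 2 ≤ z)
    (hα : 1 + P.s / K ^ 2 ≤ α) {J M kn : ℕ} {l : List (ℕ × ℕ)}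
    (cov : coverChk an bn kn J M l = true) (hkn : K ^ 2 ≤ kn / d)
    (hl : ∀ x ∈ l, ColOK ((an : ℝ) / d) ((bn : ℝ) / d) ((sn : ℝ) / d) (gW G0 G1 G2 G3 G4 G5) α z
      ((x.1 : ℤ), (x.2 : ℤ))) : HasInv P (gW G0 G1 G2 G3 G4 G5) α z := by
  have ha' : (P.a : ℝ) = an / d := by rw [ha]; push_cast; ring
  have hb' : (P.b : ℝ) = bn / d := by rw [hb]; push_cast; ring
  have hs' : (P.s : ℝ) = sn / d := by rw [hs]; push_cast; ring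
  have hkn' := rle hkn
  have c1' := rle c1
  have c2' := rle c2
  have hz' := rle hz
  have hα' := rle hα
  push_cast at hkn' c1' c2' hz' hα'
  obtain ⟨t1, t2, t3, t4, t5, t6⟩ := tailChk_sound ha0 hb0 hd0 ht
  refine hasInv_of hP (K := K) (Q1 := Q1) (Q2 := Q2) (by exact_mod_cast hK)
    (nG := (d : ℝ) * nG / 2 ^ q / (2 * an * bn)) (nH := (nH : ℝ) / 2 ^ q / (2 * an * bn))
    (by rw [ha', hb']; exact t1) (by rw [ha', hb']; exact t2) t3 t4 t5 t6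
    (by exact_mod_cast hQ1) (by exact_mod_cast hQ2) c1' c2' hz' hα'
    (cols_of_cover cov hd0 ha' hb' hkn' (by rw [ha', hb', hs']; exact hl))

/-! ### tables -/

theorem gW_eq (Δ : Dat) : gW Δ.g0 Δ.g1 Δ.g2 Δ.g3 Δ.g4 Δ.g5 = Δ.G := rfl

/-- **Existence of a zero for tables.** -/
theorem exists_zero_dat {Δ : Dat} (sgn : Δ.Sgn) {c : Cst} (num : c.Num)
    (ok : Δ.B.Ok c.P.D c.S) (res : ‖Δ.B.dF.v‖ ≤ c.Y)
    (lin : ∑ j, ‖Δ.B.dF.d j - Δ.G j‖ * c.P.dn j ≤ c.e)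
    (unit : ‖Δ.B.dF.d 3 - algebraMap ℝ W c.κ‖ < c.κ) (inv : HasInv c.P Δ.G c.α c.z) :
    IsUnit (D3.baseJ Δ.s).f ∧ ∃ y ∈ WS, ‖y‖ ≤ c.ρ ∧
      (D3.bgOf Δ.k (D3.baseJ Δ.s).f Δ.C Δ.V).F (Bg.jt c.P.D y) = 0 :=
  exists_zero_of num sgn.sym ok res lin unit inv

/-- **Existence of a zero for tables, from the two Boolean checks and the inverse.** -/
theorem exists_zero_chk {Δ : Dat} (sgn : Δ.Sgn) {c : Cst} (num : c.Num)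
    {b W' h I0 J0 k : ℕ} {r r' : Rd} {Λ : Lin} {S : SN} {b₁ W₁ h₁ I₁ J₁ k₁ Yn Yd : ℕ} {r₁ : Rd}
    (hk : (I0 + J0) * 2 ^ (k + 1) ≤ 2 ^ 20) (hk₁ : (I₁ + J₁) * 2 ^ (k₁ + 1) ≤ 2 ^ 20)
    (hS : c.S = S.slots Λ.d) (he : (Λ.en : ℚ) / Λ.ed ≤ c.e) (hκ : c.κ = (Λ.κn : ℚ) / 2 ^ Λ.κq)
    (hY : (Yn : ℚ) / Yd ≤ c.Y)
    (m0 : c.P.d0 ≤ (Λ.M.m0 : ℚ) / 2 ^ 20) (m1 : c.P.d1 ≤ (Λ.M.m1 : ℚ) / 2 ^ 20)
    (m2 : c.P.d2 ≤ (Λ.M.m2 : ℚ) / 2 ^ 20) (m3 : c.P.d3 ≤ (Λ.M.m3 : ℚ) / 2 ^ 20)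
    (m4 : c.P.d4 ≤ (Λ.M.m4 : ℚ) / 2 ^ 20) (m5 : c.P.d5 ≤ (Λ.M.m5 : ℚ) / 2 ^ 20)
    (chk1 : chkD b W' h I0 J0 k r r' Δ Λ S = true)
    (chk2 : chkR b₁ W₁ h₁ I₁ J₁ k₁ r₁ Δ Yn Yd = true)
    (inv : HasInv c.P (gW Δ.g0 Δ.g1 Δ.g2 Δ.g3 Δ.g4 Δ.g5) c.α c.z) :
    IsUnit (D3.baseJ Δ.s).f ∧ ∃ y ∈ WS, ‖y‖ ≤ c.ρ ∧
      (D3.bgOf Δ.k (D3.baseJ Δ.s).f Δ.C Δ.V).F (Bg.jt c.P.D y) = 0 := by
  obtain ⟨h1, h2, h3⟩ := okD (D := c.P.D) (dn := c.P.dn) hk num.P.norm_D (fun j => by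
    fin_cases j
    · change (c.P.d0 : ℝ) ≤ (Λ.M.m0 : ℝ) / 2 ^ 20
      have := rle m0
      push_cast at this
      exact this
    · change (c.P.d1 : ℝ) ≤ (Λ.M.m1 : ℝ) / 2 ^ 20
      have := rle m1
      push_cast at this
      exact this
    · change (c.P.d2 : ℝ) ≤ (Λ.M.m2 : ℝ) / 2 ^ 20
      have := rle m2
      push_cast at this
      exact this
    · change (c.P.d3 : ℝ) ≤ (Λ.M.m3 : ℝ) / 2 ^ 20
      have := rle m3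
      push_cast at this
      exact this
    · change (c.P.d4 : ℝ) ≤ (Λ.M.m4 : ℝ) / 2 ^ 20
      have := rle m4
      push_cast at this
      exact this
    · change (c.P.d5 : ℝ) ≤ (Λ.M.m5 : ℝ) / 2 ^ 20
      have := rle m5
      push_cast at this
      exact this) chk1
  have h4 := resD hk₁ chk2
  have hY' := rle hY
  have he' := rle he
  push_cast at hY' he'
  refine exists_zero_dat sgn num (by rw [hS]; exact h1) (h4.trans hY')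
    (h2.trans he') ?_ inv
  have e : ((c.κ : ℚ) : ℝ) = (Λ.κn : ℝ) / 2 ^ Λ.κq := by rw [hκ]; push_cast; ring
  rw [e]
  exact h3

end

end Pool.MP_ce2c94_gt.D3E
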