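import Pool.Agent.H.MP_ce2c94_gt.D3.Exist
import Pool.Agent.H.MP_ce2c94_gt.D3.RInv

set_option autoImplicit false

/-!
# Existence of a zero: the approximate right inverse from its columns

`CertR` is the final list of numerical hypotheses: no operator occurs in it.
-/

namespace Pool.MP_ce2c94_gt.D3E

open D3W D3S W93

noncomputable section

theorem Prm.D_eq (P : Prm) (j : Fin 6) (x : W) : P.D j x = dj P.a P.b P.s j x := by
  fin_cases j <;> rfl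

/-- The rational constants of the approximate linearization. -/
structure Tl where
  /-- the columns with `a j ^ 2 + b m ^ 2 < K ^ 2` are checked one by one -/
  K : ℚ
  /-- deviation of the principal part, anisotropic -/
  nG : ℚ
  /-- deviation of the principal part, isotropic -/
  nH : ℚ
  /-- norm of the coefficient 0 -/
  n0 : ℚ
  /-- norm of the coefficient 1 -/
  n1 : ℚ
  /-- norm of the coefficient 2 -/
  n2 : ℚ
  /-- norm of the coefficient 4 -/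
  n4 : ℚ
  /-- root of a quadratic expression -/
  Q1 : ℚ
  /-- root of a quadratic expression -/
  Q2 : ℚ
  /-- error of the coefficient 0 -/
  e0 : ℚ
  /-- error of the coefficient 1 -/
  e1 : ℚ
  /-- error of the coefficient 2 -/
  e2 : ℚ
  /-- error of the coefficient 3 -/
  e3 : ℚ
  /-- error of the coefficient 4 -/
  e4 : ℚ
  /-- error of the coefficient 5 -/
  e5 : ℚ

/-- The rational inequalities for the approximate linearization. -/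
structure Tl.Num (t : Tl) (c : Cst) : Prop where
  K0 : 0 < t.K
  Q1 : 0 ≤ t.Q1
  Q2 : 0 ≤ t.Q2
  c1 : t.nG ^ 2 + t.n4 ^ 2 / (4 * c.P.a * c.P.b) ≤ t.Q1 ^ 2
  c2 : t.n1 ^ 2 / c.P.a + t.n2 ^ 2 / c.P.b ≤ t.Q2 ^ 2
  z : t.Q1 + t.nH + t.Q2 / t.K + t.n0 / t.K ^ 2 ≤ c.z
  α : 1 + c.P.s / t.K ^ 2 ≤ c.α
  e : t.e0 * c.P.d0 + t.e1 * c.P.d1 + t.e2 * c.P.d2 + t.e3 * c.P.d3 + t.e4 * c.P.d4
    + t.e5 * c.P.d5 ≤ c.e
  κ : c.κ = c.P.a
  u : c.P.a * (t.nH + t.nG) + t.e3 < c.P.a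

/-- **All the hypotheses, final form.** `β` is the background and `g` are the six approximate
coefficients of the linearization. -/
structure CertR (β : Bg W) (g : Fin 6 → W) (c : Cst) (t : Tl) : Prop where
  /-- rational inequalities -/
  num : c.Num
  /-- rational inequalities -/
  tnum : t.Num c
  /-- the parities of the background -/
  sym : β.Sym
  /-- bounds of the leaves and of the intermediate quantities -/
  ok : β.Ok c.P.D c.S
  /-- the residual -/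
  res : ‖β.dF.v‖ ≤ c.Y
  e0 : ‖β.dF.d 0 - g 0‖ ≤ t.e0
  e1 : ‖β.dF.d 1 - g 1‖ ≤ t.e1
  e2 : ‖β.dF.d 2 - g 2‖ ≤ t.e2
  e3 : ‖β.dF.d 3 - g 3‖ ≤ t.e3
  e4 : ‖β.dF.d 4 - g 4‖ ≤ t.e4
  e5 : ‖β.dF.d 5 - g 5‖ ≤ t.e5
  nG : ‖(1 / (2 * (c.P.a : ℝ))) • g 3 - (1 / (2 * (c.P.b : ℝ))) • g 5‖ ≤ t.nG
  nH : ‖(1 / (2 * (c.P.a : ℝ))) • g 3 + (1 / (2 * (c.P.b : ℝ))) • g 5 - 1‖ ≤ t.nH
  n0 : ‖g 0‖ ≤ t.n0
  n1 : ‖g 1‖ ≤ t.n1
  n2 : ‖g 2‖ ≤ t.n2
  n4 : ‖g 4‖ ≤ t.n4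
  /-- the columns -/
  cols : ∀ j m : ℕ, (c.P.a : ℝ) * (j : ℝ) ^ 2 + (c.P.b : ℝ) * (m : ℝ) ^ 2 < (t.K : ℝ) ^ 2 →
    ColOK c.P.a c.P.b c.P.s g c.α c.z ((j : ℤ), (m : ℤ))

/-- The certificate without operator gives the one with operator. -/
theorem CertR.exists_cert {β : Bg W} {g : Fin 6 → W} {c : Cst} {t : Tl} (h : CertR β g c t) :
    ∃ A : W →L[ℝ] W, Cert β g A c := by
  have a0 : (0 : ℝ) < c.P.a := by exact_mod_cast h.num.P.a0
  have b0 : (0 : ℝ) < c.P.b := by exact_mod_cast h.num.P.b0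
  have s0 : (0 : ℝ) < c.P.s := by exact_mod_cast h.num.P.s0
  obtain ⟨A, hA, hA1, hA2⟩ := exists_rinv (a := c.P.a) (b := c.P.b) (s := c.P.s) a0 b0 s0 g
    (K := t.K) (α := c.α) (z := c.z) (nG := t.nG) (nH := t.nH) (n0 := t.n0) (n1 := t.n1)
    (n2 := t.n2) (n4 := t.n4) (Q1 := t.Q1) (Q2 := t.Q2) (by exact_mod_cast h.tnum.K0) h.nG h.nH
    h.n0 h.n1 h.n2 h.n4 (by exact_mod_cast h.tnum.Q1) (by exact_mod_cast h.tnum.Q2)
    (by exact_mod_cast h.tnum.c1) (by exact_mod_cast h.tnum.c2) (by exact_mod_cast h.tnum.z)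
    (by exact_mod_cast h.tnum.α) h.cols
  refine ⟨A, h.num, h.sym, h.ok, h.res, ?_, ?_, fun y _ => hA1 y, fun y _ => hA y, fun y hy => ?_⟩
  · rw [Fin.sum_univ_six]
    have hd0 : (0 : ℝ) ≤ c.P.d0 := by exact_mod_cast h.num.P.d0
    have hd1 : (0 : ℝ) ≤ c.P.d1 := by exact_mod_cast h.num.P.d1
    have hd2 : (0 : ℝ) ≤ c.P.d2 := by exact_mod_cast h.num.P.d2
    have hd3 : (0 : ℝ) ≤ c.P.d3 := by exact_mod_cast h.num.P.d3
    have hd4 : (0 : ℝ) ≤ c.P.d4 := by exact_mod_cast h.num.P.d4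
    have hd5 : (0 : ℝ) ≤ c.P.d5 := by exact_mod_cast h.num.P.d5
    have he : (t.e0 : ℝ) * c.P.d0 + t.e1 * c.P.d1 + t.e2 * c.P.d2 + t.e3 * c.P.d3
        + t.e4 * c.P.d4 + t.e5 * c.P.d5 ≤ c.e := by exact_mod_cast h.tnum.e
    have m0 := mul_le_mul_of_nonneg_right h.e0 hd0
    have m1 := mul_le_mul_of_nonneg_right h.e1 hd1
    have m2 := mul_le_mul_of_nonneg_right h.e2 hd2
    have m3 := mul_le_mul_of_nonneg_right h.e3 hd3
    have m4 := mul_le_mul_of_nonneg_right h.e4 hd4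
    have m5 := mul_le_mul_of_nonneg_right h.e5 hd5
    have w0 : c.P.dn 0 = c.P.d0 := rfl
    have w1 : c.P.dn 1 = c.P.d1 := rfl
    have w2 : c.P.dn 2 = c.P.d2 := rfl
    have w3 : c.P.dn 3 = c.P.d3 := rfl
    have w4 : c.P.dn 4 = c.P.d4 := rfl
    have w5 : c.P.dn 5 = c.P.d5 := rfl
    rw [w0, w1, w2, w3, w4, w5]
    linarith
  · rw [h.tnum.κ]
    have hu : (c.P.a : ℝ) * (t.nH + t.nG) + t.e3 < c.P.a := by exact_mod_cast h.tnum.u
    have e1 : g 3 - algebraMap ℝ W c.P.a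
        = (c.P.a : ℝ) • ((1 / (2 * (c.P.a : ℝ))) • g 3 + (1 / (2 * (c.P.b : ℝ))) • g 5 - 1)
        + (c.P.a : ℝ) • ((1 / (2 * (c.P.a : ℝ))) • g 3 - (1 / (2 * (c.P.b : ℝ))) • g 5) := by
      rw [Algebra.algebraMap_eq_smul_one, smul_sub, smul_sub, smul_add, smul_smul, smul_smul]
      have e2 : (c.P.a : ℝ) * (1 / (2 * (c.P.a : ℝ))) = 1 / 2 := by field_simp
      rw [e2]
      module
    have e3 : β.dF.d 3 - algebraMap ℝ W c.P.a
        = (g 3 - algebraMap ℝ W c.P.a) + (β.dF.d 3 - g 3) := by abel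
    have n1 : ‖g 3 - algebraMap ℝ W c.P.a‖ ≤ (c.P.a : ℝ) * (t.nH + t.nG) := by
      rw [e1, mul_add]
      refine (norm_add_le _ _).trans (add_le_add ?_ ?_)
      · rw [norm_smul, Real.norm_eq_abs, abs_of_pos a0]
        exact mul_le_mul_of_nonneg_left h.nH a0.le
      · rw [norm_smul, Real.norm_eq_abs, abs_of_pos a0]
        exact mul_le_mul_of_nonneg_left h.nG a0.le
    rw [e3]
    have n2 := norm_add_le (g 3 - algebraMap ℝ W c.P.a) (β.dF.d 3 - g 3)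
    have n3 := h.e3
    linarith
  · have e1 : ∑ j, g j * c.P.D j (A y) = ∑ j, g j * dj c.P.a c.P.b c.P.s j (A y) :=
      Finset.sum_congr rfl fun j _ => by rw [c.P.D_eq]
    rw [e1]
    exact hA2 y hy

/-- **Existence.** -/
theorem CertR.exists_zero {β : Bg W} {g : Fin 6 → W} {c : Cst} {t : Tl} (h : CertR β g c t) :
    IsUnit β.s ∧ ∃ y ∈ WS, ‖y‖ ≤ c.ρ ∧ β.F (Bg.jt c.P.D y) = 0 := by
  obtain ⟨A, hA⟩ := h.exists_cert
  exact ⟨hA.isUnit_s, hA.exists_zero⟩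

end

end Pool.MP_ce2c94_gt.D3E
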