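import Pool.Agent.H.MP_ce2c94_gt.D3.ExistD

set_option autoImplicit false

/-!
# The approximate right inverse: the seven numerical statements, and the final existence theorem
-/

namespace Pool.MP_ce2c94_gt.D3E

open D3W D3S W93 D3C Pool.Agent.H.MP_ce2c94_gt.h46

noncomputable section

/-- The rational inequalities needed for the right inverse. -/
structure Tl.Q (t : Tl) (c : Cst) : Prop where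
  K0 : 0 < t.K
  Q1 : 0 ≤ t.Q1
  Q2 : 0 ≤ t.Q2
  c1 : t.nG ^ 2 + t.n4 ^ 2 / (4 * c.P.a * c.P.b) ≤ t.Q1 ^ 2
  c2 : t.n1 ^ 2 / c.P.a + t.n2 ^ 2 / c.P.b ≤ t.Q2 ^ 2
  z : t.Q1 + t.nH + t.Q2 / t.K + t.n0 / t.K ^ 2 ≤ c.z
  α : 1 + c.P.s / t.K ^ 2 ≤ c.α

theorem Tl.Num.q {t : Tl} {c : Cst} (h : t.Num c) : t.Q c :=
  ⟨h.K0, h.Q1, h.Q2, h.c1, h.c2, h.z, h.α⟩

/-- The seven statements about the approximate coefficients. -/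
structure Inv (c : Cst) (t : Tl) (g : Fin 6 → W) : Prop where
  nG : ‖(1 / (2 * (c.P.a : ℝ))) • g 3 - (1 / (2 * (c.P.b : ℝ))) • g 5‖ ≤ t.nG
  nH : ‖(1 / (2 * (c.P.a : ℝ))) • g 3 + (1 / (2 * (c.P.b : ℝ))) • g 5 - 1‖ ≤ t.nH
  n0 : ‖g 0‖ ≤ t.n0
  n1 : ‖g 1‖ ≤ t.n1
  n2 : ‖g 2‖ ≤ t.n2
  n4 : ‖g 4‖ ≤ t.n4
  cols : ∀ j m : ℕ, (c.P.a : ℝ) * (j : ℝ) ^ 2 + (c.P.b : ℝ) * (m : ℝ) ^ 2 < (t.K : ℝ) ^ 2 →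
    ColOK c.P.a c.P.b c.P.s g c.α c.z ((j : ℤ), (m : ℤ))

/-- The approximate right inverse. -/
theorem Inv.hasInv {c : Cst} {t : Tl} {g : Fin 6 → W} (h : Inv c t g) (num : c.Num)
    (q : t.Q c) : HasInv c.P g c.α c.z := by
  have c1 := rle q.c1
  have c2 := rle q.c2
  have z := rle q.z
  have α := rle q.α
  push_cast at c1 c2 z α
  exact hasInv_of num.P (K := t.K) (Q1 := t.Q1) (Q2 := t.Q2) (by exact_mod_cast q.K0) h.nG h.nH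
    h.n0 h.n1 h.n2 h.n4 (by exact_mod_cast q.Q1) (by exact_mod_cast q.Q2) c1 c2 z α h.cols

/-- **Existence of a zero for tables, from the two Boolean checks and the inverse**; the constant
`κ` of the check is independent of the one in `c`. -/
theorem exists_zero_has {Δ : Dat} (sgn : Δ.Sgn) {c : Cst} (num : c.Num)
    {b W' h I0 J0 k : ℕ} {r r' : Rd} {Λ : Lin} {S : SN} {b₁ W₁ h₁ I₁ J₁ k₁ Yn Yd : ℕ} {r₁ : Rd}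
    (hk : (I0 + J0) * 2 ^ (k + 1) ≤ 2 ^ 20) (hk₁ : (I₁ + J₁) * 2 ^ (k₁ + 1) ≤ 2 ^ 20)
    (hS : c.S = S.slots Λ.d) (he : (Λ.en : ℚ) / Λ.ed ≤ c.e) (hκ : 0 < Λ.κn)
    (hY : (Yn : ℚ) / Yd ≤ c.Y)
    (m0 : c.P.d0 ≤ (Λ.M.m0 : ℚ) / 2 ^ 20) (m1 : c.P.d1 ≤ (Λ.M.m1 : ℚ) / 2 ^ 20)
    (m2 : c.P.d2 ≤ (Λ.M.m2 : ℚ) / 2 ^ 20) (m3 : c.P.d3 ≤ (Λ.M.m3 : ℚ) / 2 ^ 20)
    (m4 : c.P.d4 ≤ (Λ.M.m4 : ℚ) / 2 ^ 20) (m5 : c.P.d5 ≤ (Λ.M.m5 : ℚ) / 2 ^ 20)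
    (chk1 : chkD b W' h I0 J0 k r r' Δ Λ S = true)
    (chk2 : chkR b₁ W₁ h₁ I₁ J₁ k₁ r₁ Δ Yn Yd = true)
    (inv : HasInv c.P (gW Δ.g0 Δ.g1 Δ.g2 Δ.g3 Δ.g4 Δ.g5) c.α c.z) :
    IsUnit (D3.baseJ Δ.s).f ∧ ∃ y ∈ WS, ‖y‖ ≤ c.ρ ∧
      (D3.bgOf Δ.k (D3.baseJ Δ.s).f Δ.C Δ.V).F (Bg.jt c.P.D y) = 0 := by
  have num' : Cst.Num { c with κ := (Λ.κn : ℚ) / 2 ^ Λ.κq } :=
    { P := num.P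
      e0 := num.e0
      z0 := num.z0
      α0 := num.α0
      r0 := num.r0
      κ0 := by positivity
      h1 := num.h1
      h2 := num.h2 }
  exact exists_zero_chk (c := { c with κ := (Λ.κn : ℚ) / 2 ^ Λ.κq }) sgn num' hk hk₁ hS he rfl hY
    m0 m1 m2 m3 m4 m5 chk1 chk2 inv

/-- The same with the seven statements `Inv`. -/
theorem exists_zero_inv {Δ : Dat} (sgn : Δ.Sgn) {c : Cst} {t : Tl} (num : c.Num) (q : t.Q c)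
    {b W' h I0 J0 k : ℕ} {r r' : Rd} {Λ : Lin} {S : SN} {b₁ W₁ h₁ I₁ J₁ k₁ Yn Yd : ℕ} {r₁ : Rd}
    (hk : (I0 + J0) * 2 ^ (k + 1) ≤ 2 ^ 20) (hk₁ : (I₁ + J₁) * 2 ^ (k₁ + 1) ≤ 2 ^ 20)
    (hS : c.S = S.slots Λ.d) (he : (Λ.en : ℚ) / Λ.ed ≤ c.e) (hκ : 0 < Λ.κn)
    (hY : (Yn : ℚ) / Yd ≤ c.Y)
    (m0 : c.P.d0 ≤ (Λ.M.m0 : ℚ) / 2 ^ 20) (m1 : c.P.d1 ≤ (Λ.M.m1 : ℚ) / 2 ^ 20)
    (m2 : c.P.d2 ≤ (Λ.M.m2 : ℚ) / 2 ^ 20) (m3 : c.P.d3 ≤ (Λ.M.m3 : ℚ) / 2 ^ 20)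
    (m4 : c.P.d4 ≤ (Λ.M.m4 : ℚ) / 2 ^ 20) (m5 : c.P.d5 ≤ (Λ.M.m5 : ℚ) / 2 ^ 20)
    (chk1 : chkD b W' h I0 J0 k r r' Δ Λ S = true)
    (chk2 : chkR b₁ W₁ h₁ I₁ J₁ k₁ r₁ Δ Yn Yd = true)
    (inv : Inv c t (gW Δ.g0 Δ.g1 Δ.g2 Δ.g3 Δ.g4 Δ.g5)) :
    IsUnit (D3.baseJ Δ.s).f ∧ ∃ y ∈ WS, ‖y‖ ≤ c.ρ ∧
      (D3.bgOf Δ.k (D3.baseJ Δ.s).f Δ.C Δ.V).F (Bg.jt c.P.D y) = 0 :=
  exists_zero_has sgn num hk hk₁ hS he hκ hY m0 m1 m2 m3 m4 m5 chk1 chk2 (inv.hasInv num q)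

end

end Pool.MP_ce2c94_gt.D3E
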