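import Pool.Agent.H.MP_ce2c94_gt.D3Jet
import Pool.Agent.H.MP_ce2c94_gt.D3.Exist

set_option autoImplicit false

/-!
# Assembly

`Pos` collects the four positivity facts; `torus_of_zero` turns a zero of the normalised equation
into a shrinking torus; `main` gives two shrinking tori which are not congruent.
-/

open Set

namespace D3

open Pool.MP_ce2c94_gt Pool.MP_ce2c94_gt.D3W Pool.MP_ce2c94_gt.D3S Pool.MP_ce2c94_gt.D3E

/-- the jet of the unknown in the parameters of `Exist` -/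
noncomputable def phiP (P : Prm) (y : W) : HJet W := phiJ P.a P.b P.s y

theorem jt_eq (P : Prm) (y : W) : Bg.jt P.D y = (phiP P y).vec6 := by
  funext j
  fin_cases j <;> rfl

/-- the four positivity facts of the embeddedness criterion -/
structure Pos (N : ℕ) (S0 c : ℝ) (h : Hat W) : Prop where
  c0 : 0 < c
  h1 : PosW h.P.f
  h2 : PosW (h.cosq eu eu' S0 c)
  h3 : PosW (h.ang N)
  h4 : PosW (h.jac N S0)

theorem evp_ne_zero_of_isUnit {s : W} (hs : IsUnit s) (p : ℝ × ℝ) : evp p s ≠ 0 :=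
  (hs.map (evp p)).ne_zero

section

variable {C V : Hat W} {P : Prm} {y : W}

/-- the perturbed surface is a surface -/
theorem isHat_pert (hC : HPar C) (hV : HPar V) (hP : P.Ok) (hy : y ∈ WS) :
    IsHat evp (C.pert V (phiP P y)) :=
  hC.fs3.isHat hV.fs3
    (phiJ_jet (by exact_mod_cast hP.a0) (by exact_mod_cast hP.b0) (by exact_mod_cast hP.s0) y)
    (phiJ_even (by exact_mod_cast hP.a0) (by exact_mod_cast hP.b0) (by exact_mod_cast hP.s0)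
      (mem_WS.1 hy))

theorem torus_of_zero (hC : HPar C) (hV : HPar V) (hP : P.Ok) (hy : y ∈ WS) {N : ℕ} {s : W}
    (hs : IsUnit s) (h0 : (bgOf N s C V).F (Bg.jt P.D y) = 0) {S0 c : ℝ}
    (pos : Pos N S0 c (C.pert V (phiP P y))) :
    IsShrinkingTorus (range ((isHat_pert hC hV hP hy).rot N).toSurf.X) := by
  rw [jt_eq] at h0
  exact shrinkingTorus_of_y hC hV (by exact_mod_cast hP.a0) (by exact_mod_cast hP.b0)
    (by exact_mod_cast hP.s0) (mem_WS.1 hy) (evp_ne_zero_of_isUnit hs) h0 pos.c0 pos.h1 pos.h2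
    pos.h3 pos.h4

end

/-- a shrinking torus near the surface `C`, in the direction `V` -/
structure Sol (C V : Hat W) (N : ℕ) (s : W) (P : Prm) (ρ : ℚ) (S0 c : ℝ) (y : W) : Prop where
  hC : HPar C
  hV : HPar V
  hP : P.Ok
  hy : y ∈ WS
  hρ : ‖y‖ ≤ ρ
  hs : IsUnit s
  zero : (bgOf N s C V).F (Bg.jt P.D y) = 0
  pos : Pos N S0 c (C.pert V (phiP P y))

theorem norm_pert_le {f g : W} {P : Prm} (hP : P.Ok) {y : W} {ρ x v : ℝ} (hy : ‖y‖ ≤ ρ)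
    (hf : ‖f‖ ≤ x) (hg : ‖g‖ ≤ v) : ‖f + (phiP P y).f * g‖ ≤ x + P.d0 * ρ * v := by
  have d0 : (0 : ℝ) ≤ P.d0 := by exact_mod_cast hP.d0
  have h1 : ‖(phiP P y).f‖ ≤ P.d0 * ρ :=
    (hP.norm_D 0 y).trans (mul_le_mul_of_nonneg_left hy d0)
  have h2 : 0 ≤ P.d0 * ρ := (norm_nonneg _).trans h1
  calc ‖f + (phiP P y).f * g‖ ≤ ‖f‖ + ‖(phiP P y).f * g‖ := norm_add_le _ _
    _ ≤ ‖f‖ + ‖(phiP P y).f‖ * ‖g‖ := add_le_add_right (norm_mul_le _ _) _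
    _ ≤ x + P.d0 * ρ * v :=
      add_le_add hf (mul_le_mul h1 hg (norm_nonneg _) h2)

/-- The real part of the value at a point changes little. -/
theorem re_pert_ge {f g : W} {P : Prm} (hP : P.Ok) {y : W} {ρ x v : ℝ} (hy : ‖y‖ ≤ ρ)
    (p : ℝ × ℝ) (hf : x ≤ (evp p f).re) (hg : ‖g‖ ≤ v) :
    x - P.d0 * ρ * v ≤ (evp p (f + (phiP P y).f * g)).re := by
  have h := norm_pert_le (f := 0) (x := 0) hP hy (by simp) hg
  rw [zero_add, zero_add] at h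
  have h1 : |(evp p ((phiP P y).f * g)).re| ≤ P.d0 * ρ * v :=
    (Complex.abs_re_le_norm _).trans ((norm_evp_le p _).trans h)
  rw [map_add, Complex.add_re]
  linarith [(abs_le.1 h1).1]

/-- **Two shrinking tori which are not congruent.** -/
theorem main {CA VA CB VB : Hat W} {NA NB : ℕ} {sA sB : W} {PA PB : Prm} {ρA ρB : ℚ}
    {SA cA SB cB : ℝ} {yA yB : W} (A : Sol CA VA NA sA PA ρA SA cA yA)
    (B : Sol CB VB NB sB PB ρB SB cB yB) {R : ℝ}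
    (hR : ‖(CA.pert VA (phiP PA yA)).P.f‖ ^ 2 + ‖(CA.pert VA (phiP PA yA)).Q.f‖ ^ 2 +
      ‖(CA.pert VA (phiP PA yA)).Z.f‖ ^ 2 ≤ R)
    (hR' : R < (evp (0, 0) (CB.pert VB (phiP PB yB)).P.f).re ^ 2) :
    ∃ S T : Set E3, IsShrinkingTorus S ∧ IsShrinkingTorus T ∧
      ∀ g : E3 ≃ₗᵢ[ℝ] E3, g '' S ≠ T :=
  two_tori (isHat_pert A.hC A.hV A.hP A.hy) (isHat_pert B.hC B.hV B.hP B.hy)
    (torus_of_zero A.hC A.hV A.hP A.hy A.hs A.zero A.pos)
    (torus_of_zero B.hC B.hV B.hP B.hy B.hs B.zero B.pos) hR hR'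

/-- **Two shrinking tori which are not congruent**, with numbers: `x`, `v` bound the norms of the
tables of the first surface, `t` is a lower bound of `P(0, 0)` for the second one. -/
theorem main' {CA VA CB VB : Hat W} {NA NB : ℕ} {sA sB : W} {PA PB : Prm} {ρA ρB : ℚ}
    {SA cA SB cB : ℝ} (A : ∃ y, Sol CA VA NA sA PA ρA SA cA y)
    (B : ∃ y, Sol CB VB NB sB PB ρB SB cB y) {x1 x2 x3 v1 v2 v3 t v : ℝ}
    (a1 : ‖CA.P.f‖ ≤ x1) (a2 : ‖CA.Q.f‖ ≤ x2) (a3 : ‖CA.Z.f‖ ≤ x3)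
    (b1 : ‖VA.P.f‖ ≤ v1) (b2 : ‖VA.Q.f‖ ≤ v2) (b3 : ‖VA.Z.f‖ ≤ v3)
    (ht : t ≤ (evp (0, 0) CB.P.f).re) (hv : ‖VB.P.f‖ ≤ v) (h0 : 0 ≤ t - PB.d0 * ρB * v)
    (h : (x1 + PA.d0 * ρA * v1) ^ 2 + (x2 + PA.d0 * ρA * v2) ^ 2 + (x3 + PA.d0 * ρA * v3) ^ 2 <
      (t - PB.d0 * ρB * v) ^ 2) :
    ∃ S T : Set E3, IsShrinkingTorus S ∧ IsShrinkingTorus T ∧
      ∀ g : E3 ≃ₗᵢ[ℝ] E3, g '' S ≠ T := by
  obtain ⟨yA, A⟩ := A
  obtain ⟨yB, B⟩ := B
  have n1 := norm_pert_le A.hP A.hρ a1 b1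
  have n2 := norm_pert_le A.hP A.hρ a2 b2
  have n3 := norm_pert_le A.hP A.hρ a3 b3
  have m := re_pert_ge B.hP B.hρ (0, 0) ht hv
  refine main A B (R := (x1 + PA.d0 * ρA * v1) ^ 2 + (x2 + PA.d0 * ρA * v2) ^ 2 +
    (x3 + PA.d0 * ρA * v3) ^ 2) ?_ (h.trans_le (pow_le_pow_left₀ h0 m 2))
  exact add_le_add (add_le_add (pow_le_pow_left₀ (norm_nonneg _) n1 2)
    (pow_le_pow_left₀ (norm_nonneg _) n2 2)) (pow_le_pow_left₀ (norm_nonneg _) n3 2)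

end D3
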