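import Mathlib

set_option autoImplicit false

/-!
# The shrinker polynomial in formal variables, over any type with sum, difference and product

Vectors with three components, the forms `dot` and `eta` (signature `+ - -`), the vector product
and the polynomial `Phi` of the equation.
-/

namespace Pool.MP_ce2c94_gt

/-- Vectors with three components. -/
structure V3 (R : Type*) where
  /-- first component -/
  x : R
  /-- second component -/
  y : R
  /-- third component -/
  z : R

namespace V3

variable {R S : Type*}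

@[ext] theorem ext' {a b : V3 R} (h1 : a.x = b.x) (h2 : a.y = b.y) (h3 : a.z = b.z) : a = b := by
  cases a
  cases b
  simp_all

/-- Apply a function to the components. -/
def map (f : R → S) (a : V3 R) : V3 S := ⟨f a.x, f a.y, f a.z⟩

section
variable [Add R] [Sub R] [Mul R]

/-- `a₁ b₁ + a₂ b₂ + a₃ b₃` -/
def dot (a b : V3 R) : R := a.x * b.x + a.y * b.y + a.z * b.z

/-- `a₁ b₁ - a₂ b₂ - a₃ b₃` -/
def eta (a b : V3 R) : R := a.x * b.x - a.y * b.y - a.z * b.z

/-- the vector product -/
def cross (a b : V3 R) : V3 R :=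
  ⟨a.y * b.z - a.z * b.y, a.z * b.x - a.x * b.z, a.x * b.y - a.y * b.x⟩

/-- multiple -/
def smul (c : R) (a : V3 R) : V3 R := ⟨c * a.x, c * a.y, c * a.z⟩

/-- sum -/
def add (a b : V3 R) : V3 R := ⟨a.x + b.x, a.y + b.y, a.z + b.z⟩

/-- difference -/
def sub (a b : V3 R) : V3 R := ⟨a.x - b.x, a.y - b.y, a.z - b.z⟩

end

end V3

section
variable {R : Type*} [Add R] [Sub R] [Mul R]

/-- The factor of the vector `C`: `η(a,a) η(b,B) - η(a,b) η(a,B)`. -/
def PhiG (eaa eab ebB eaB : R) : R := eaa * ebB - eab * eaB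

/-- The second order part: `η(b,b) p - 2 η(a,b) q + η(a,a) w`. -/
def PhiU (eaa eab ebb : R) (p q w : V3 R) : V3 R :=
  ((V3.smul ebb p).sub (V3.smul (eab + eab) q)).add (V3.smul eaa w)

/-- The vector `2 u + g C`. -/
def PhiT (u : V3 R) (g : R) (C : V3 R) : V3 R := (u.add u).add (V3.smul g C)

/-- The polynomial of the shrinker equation:
`⟨2 (η(b,b) p - 2 η(a,b) q + η(a,a) w) + (η(a,a) η(b,B) - η(a,b) η(a,B)) C, a × b⟩`. -/
def Phi (C a b B p q w : V3 R) : R :=
  (PhiT (PhiU (a.eta a) (a.eta b) (b.eta b) p q w)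
    (PhiG (a.eta a) (a.eta b) (b.eta B) (a.eta B)) C).dot (a.cross b)

end

end Pool.MP_ce2c94_gt
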