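import Pool.Agent.H.MP_ce2c94_gt.w93.Quad

set_option autoImplicit false

/-!
# The normalised shrinker equation in formal (real coefficient) variables

A formal vector `c = (c 0, c 1, c 2)` stands for the vector `(c 0, -i c 1, -i c 2)` in the rotating
frame. With `A = Dj C`, `B = D2 C` one has `X = [C]`, `X_s = i [A]`, `X_v = i [B]`,
`X_ss = -[Dj A]`, `X_sv = -[D2 A]`, `X_vv = -[D2 B]`.
-/

namespace Pool.MP_ce2c94_gt.D3S

section Ring

variable {R : Type*} [CommRing R]

/-- the product of formal vectors which gives the scalar product of the vectors -/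
def eta (a b : Fin 3 → R) : R := a 0 * b 0 - a 1 * b 1 - a 2 * b 2

/-- the plain product of coordinates -/
def dt (a b : Fin 3 → R) : R := a 0 * b 0 + a 1 * b 1 + a 2 * b 2

/-- the vector product -/
def crs (a b : Fin 3 → R) : Fin 3 → R :=
  ![a 1 * b 2 - a 2 * b 1, a 2 * b 0 - a 0 * b 2, a 0 * b 1 - a 1 * b 0]

/-- the vector `T = 2 (η(b,b) p - 2 η(a,b) q + η(a,a) w) + g C` -/
def vT (ebb eab eaa g : R) (C p q w : Fin 3 → R) (i : Fin 3) : R :=
  2 * (ebb * p i - 2 * (eab * q i) + eaa * w i) + g * C i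

/-- the normalised equation: `⟨T, a × b⟩` with `g = η(a,a) η(b,B) - η(a,b) η(a,B)` -/
def Phi (C B a b p q w : Fin 3 → R) : R :=
  dt (vT (eta b b) (eta a b) (eta a a) (eta a a * eta b B - eta a b * eta a B) C p q w) (crs a b)

/-- twice the polynomial form of the shrinker equation -/
def PF (C A B p q w : Fin 3 → R) : R :=
  2 * (eta B B * dt p (crs A B) - 2 * (eta A B * dt q (crs A B)) + eta A A * dt w (crs A B)) +
    (eta A A * eta B B - eta A B * eta A B) * dt C (crs A B)

/-- scaling of a vector -/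
def sm (s : R) (a : Fin 3 → R) : Fin 3 → R := fun i => s * a i

theorem Phi_eq (s : R) (C A B p q w : Fin 3 → R) :
    Phi C B (sm s A) (sm s B) (sm s p) (sm s q) (sm s w) = s ^ 5 * PF C A B p q w := by
  simp only [Phi, vT, PF, eta, dt, crs, sm, Matrix.cons_val_zero, Matrix.cons_val_one,
    Matrix.cons_val]
  ring

variable {S : Type*} [CommRing S]

theorem map_eta (f : R →+* S) (a b : Fin 3 → R) :
    f (eta a b) = eta (fun i => f (a i)) (fun i => f (b i)) := by
  simp only [eta, map_sub, map_mul]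

theorem map_dt (f : R →+* S) (a b : Fin 3 → R) :
    f (dt a b) = dt (fun i => f (a i)) (fun i => f (b i)) := by
  simp only [dt, map_add, map_mul]

theorem map_crs (f : R →+* S) (a b : Fin 3 → R) (i : Fin 3) :
    f (crs a b i) = crs (fun i => f (a i)) (fun i => f (b i)) i := by
  fin_cases i <;> simp [crs]

theorem map_PF (f : R →+* S) (C A B p q w : Fin 3 → R) :
    f (PF C A B p q w) = PF (fun i => f (C i)) (fun i => f (A i)) (fun i => f (B i))
      (fun i => f (p i)) (fun i => f (q i)) (fun i => f (w i)) := by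
  have h : (fun i => f (crs A B i)) = crs (fun i => f (A i)) (fun i => f (B i)) :=
    funext fun i => map_crs f A B i
  simp only [PF, map_add, map_mul, map_sub, map_eta, map_dt, map_ofNat, h]

end Ring

/-- The background surface `C`, the direction `V` of the perturbation with their formal
derivatives, the normaliser `s` and the angular frequency `k`. -/
structure Bg (W : Type*) where
  /-- the angular frequency -/
  k : W
  /-- the normaliser -/
  s : W
  /-- position -/
  C : Fin 3 → W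
  /-- `Dj C` -/
  A : Fin 3 → W
  /-- `D2 C` -/
  B : Fin 3 → W
  /-- `Dj Dj C` -/
  p : Fin 3 → W
  /-- `Dj D2 C` -/
  q : Fin 3 → W
  /-- `D2 D2 C` -/
  w : Fin 3 → W
  /-- direction -/
  V : Fin 3 → W
  /-- `Dj V` -/
  Vj : Fin 3 → W
  /-- `D2 V` -/
  V2 : Fin 3 → W
  /-- `Dj Dj V` -/
  Vjj : Fin 3 → W
  /-- `Dj D2 V` -/
  Vj2 : Fin 3 → W
  /-- `D2 D2 V` -/
  V22 : Fin 3 → W

namespace Bg

variable {W : Type*} [CommRing W] (b : Bg W)

/-- position of the perturbed surface, `x` = the jet `φ, Dj φ, Dm φ, Dj Dj φ, Dj Dm φ, Dm Dm φ` -/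
def fC (x : Fin 6 → W) (i : Fin 3) : W := b.C i + x 0 * b.V i
def fA (x : Fin 6 → W) (i : Fin 3) : W := b.A i + (x 0 * b.Vj i + x 1 * b.V i)
def fB (x : Fin 6 → W) (i : Fin 3) : W := b.B i + (x 0 * b.V2 i + x 2 * (b.k * b.V i))
def fp (x : Fin 6 → W) (i : Fin 3) : W :=
  b.p i + (x 0 * b.Vjj i + x 1 * (2 * b.Vj i) + x 3 * b.V i)
def fq (x : Fin 6 → W) (i : Fin 3) : W :=
  b.q i + (x 0 * b.Vj2 i + x 1 * b.V2 i + x 2 * (b.k * b.Vj i) + x 4 * (b.k * b.V i))
def fw (x : Fin 6 → W) (i : Fin 3) : W :=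
  b.w i + (x 0 * b.V22 i + x 2 * (2 * (b.k * b.V2 i)) + x 5 * (b.k * b.k * b.V i))

/-- the nonlinear map -/
def F (x : Fin 6 → W) : W :=
  Phi (b.fC x) (b.fB x) (sm b.s (b.fA x)) (sm b.s (b.fB x)) (sm b.s (b.fp x)) (sm b.s (b.fq x))
    (sm b.s (b.fw x))

theorem F_eq (x : Fin 6 → W) :
    b.F x = b.s ^ 5 * PF (b.fC x) (b.fA x) (b.fB x) (b.fp x) (b.fq x) (b.fw x) :=
  Phi_eq _ _ _ _ _ _ _

end Bg

end Pool.MP_ce2c94_gt.D3S
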